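import Pool.Agent.P.MP_e5b57f_nt.TM.IfaceA

/-! Step ABP0. -/

open Polynomial WithZero
open scoped Matrix Pointwise IntermediateField Topology

namespace Pool.Agent.P.MP_e5b57f_nt.TM

theorem z_ABP0 (hRN : Z_RN) (hSIE1 : Z_SIE1) (hCB : Z_CB) (hUP : Z_UP) (hTWD : Z_TWD)
    (hLOW : Z_LOW) :
    Z_ABP0 := by
  intro F _ _ ev l ψ D D' B B' r hev hind hB hB' hD hr
  by_contra r0
  obtain ⟨C, hC⟩ := hRN F ev l ψ D D' B B' r hev hind hB hB' hD r0 hr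
  have D0 : D ≠ 0 := by
    rintro rfl
    exact hD 0 (by simp)
  obtain ⟨M, hM⟩ := hTWD F l ψ D B D0 hB C
  obtain ⟨C₁, hC₁⟩ : ∃ C₁ : ℤ, ∀ i (n : ℕ), Bd (cf n (ψ i)) (C₁ - 2 * n) := by
    choose f hf using fun i => cf_bd (ψ i)
    obtain ⟨c, hc⟩ := (Set.finite_range f).bddAbove
    exact ⟨c, fun i n => (hf i n).mono (by have := hc ⟨i, rfl⟩; omega)⟩
  obtain ⟨g, hg⟩ : ∃ g : ℕ, C₁ + C + M + 2 ≤ g := ⟨_, Int.self_le_toNat _⟩
  obtain ⟨N, hN⟩ : ∃ N, l * g * (C + 1) < Fintype.card F ^ N :=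
    ⟨_, Nat.lt_pow_self two_le_card⟩
  obtain ⟨R, R0, hR, hRs⟩ := hC N
  obtain ⟨a, h, h0, hd, hz, he⟩ := hSIE1 F l C _ g R R0 hR hN
  obtain ⟨α, α0, hα, hs⟩ := hM h hd
  obtain ⟨n, hn⟩ := hLOW F l M α _ α0 hα (fun e => h0 (hind h e)) hs
  refine hn ((hUP F ev _ N (C₁ + C - 2 * g) hev (fun k _ => ?_) ?_ n).mono (by omega))
  · rw [map_sum]
    exact Bd.sum fun i _ => hCB F (ψ i) (h i) C₁ C _ g (hC₁ i) (hd i) (hz i) k
  · have e : ∀ i, ev ((sT F)^[N] (io F (h i) * ψ i)) =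
        aeval (th F) a * (aeval (th F) (R i) * ev ((sT F)^[N] (ψ i))) := fun i => by
      rw [iterate_map_mul, map_mul, sT_iter_io, hev.io, he, map_mul, mul_assoc]
    rw [← RingHom.coe_pow, map_sum, map_sum, RingHom.coe_pow]
    simp only [e]
    rw [← Finset.mul_sum, hRs, mul_zero]

end Pool.Agent.P.MP_e5b57f_nt.TM
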