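import Pool.Agent.P.MP_e5b57f_nt.TM.IfaceA

/-! Step ABPK. -/

open Polynomial WithZero
open scoped Matrix Pointwise IntermediateField Topology

namespace Pool.Agent.P.MP_e5b57f_nt.TM

namespace ZABPK

variable {F : Type} [Field F]

theorem ev_map (Q : ℕ) (d : F[X]) :
    (expand F[X] Q (d.map (C : F →+* F[X]))).eval X = expand F Q d := by
  rw [← map_expand, eval_map, eval₂_C_X]

theorem nz [Fintype F] (d d' : F[X]) (hd : d ≠ 0) (hd' : d' ≠ 0) (e N : ℕ) :
    (expand F[X] (Fintype.card F ^ N) (d.map (C : F →+* F[X]) *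
      (d'.map (C : F →+* F[X]) * (C X - X ^ Fintype.card F) ^ e))).eval X ≠ 0 := by
  have hq := two_le_card (F := F)
  have hQ : 0 < Fintype.card F ^ N := pow_pos (by omega) _
  rw [map_mul, map_mul, map_pow, eval_mul, eval_mul, eval_pow, ev_map, ev_map]
  refine mul_ne_zero ((expand_eq_zero hQ).not.2 hd)
    (mul_ne_zero ((expand_eq_zero hQ).not.2 hd') (pow_ne_zero _ ?_))
  rw [map_sub, map_pow, expand_C, expand_X, eval_sub, eval_C, eval_pow, eval_pow, eval_X,
    ← pow_mul, sub_ne_zero]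
  intro h
  have := congrArg natDegree h
  rw [natDegree_X, natDegree_X_pow] at this
  have h2 : 1 * 2 ≤ Fintype.card F ^ N * Fintype.card F := Nat.mul_le_mul hQ hq
  omega

end ZABPK

theorem z_ABPK (hABP0 : Z_ABP0) (hRRA : Z_RRA) (hMAT : Z_MAT) (hBAS : Z_BAS) :
    Z_ABPK := by
  intro F _ _ ev y hev hy m hm h0
  obtain ⟨l, e, ψ, hsp, hind, hs, hs'⟩ := hBAS F _ y hy
  obtain ⟨d, B, hd, hB⟩ := (hMAT F l).1 (fun i => sT F (ψ i)) ψ hs
  obtain ⟨d', B', hd', hB'⟩ := (hMAT F l).1 _ (fun j => sT F (ψ j)) hs'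
  rw [← hsp] at hm ⊢
  obtain ⟨r, rfl⟩ := (Submodule.mem_span_range_iff_exists_fun _).1 hm
  have hr := fun i => (hRRA F (K0 F).toSubfield).2 ev hev th_mem_K0 (r i) (r i).2
  choose hr1 r' hr' hr2 using hr
  obtain ⟨D, p, hD, hp⟩ := (hMAT F l).2 (fun i => ev (r i)) hr1
  have hp0 : p = 0 := by
    refine hABP0 F ev l ψ (d.map C) (d'.map C * (C X - X ^ Fintype.card F) ^ e) B B' p hev
      (fun h hh => ?_) hB (fun i => ?_) (ZABPK.nz d d' hd hd' e) ?_
    · have := hind (fun i => io F (h i)) (fun i => io_mem_RR _) hh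
      funext i
      exact io_injective ((congrFun this i).trans (map_zero _).symm)
    · rw [← hB' i, map_mul, map_pow, map_sub, map_pow, io_C_X, io_X, ← map_pow, mul_assoc]
    · simp only [← hp, mul_assoc]
      rw [← Finset.mul_sum]
      have : ∑ i, ev (r i) * ev (ψ i) = 0 := by
        rw [← h0, map_sum]
        exact Finset.sum_congr rfl fun i _ => (map_mul ev _ _).symm
      rw [this, mul_zero]
  have hD' : aeval (th F) D ≠ 0 := fun h => hD (aeval_th_injective (h.trans (map_zero _).symm))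
  have hz : ∀ i, ev (r i) = 0 := fun i => by
    have := hp i
    rw [hp0, Pi.zero_apply, map_zero] at this
    exact (mul_eq_zero.1 this).resolve_left hD'
  refine ⟨∑ i, r' i * ψ i, Submodule.sum_mem _ fun i _ =>
    Sp.mul_mem (hr' i) (Submodule.subset_span ⟨i, rfl⟩), ?_⟩
  rw [Finset.mul_sum]
  refine Finset.sum_congr rfl fun i _ => ?_
  have := hr2 i
  rw [hz i, map_zero, zero_add] at this
  rw [← mul_assoc, ← this]
  rfl

end Pool.Agent.P.MP_e5b57f_nt.TM
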