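import Pool.Agent.P.MP_e5b57f_nt.TM.IfaceA

/-! Step AGF. -/

open Polynomial WithZero
open scoped Matrix Pointwise IntermediateField Topology

namespace Pool.Agent.P.MP_e5b57f_nt.TM

theorem z_AGF :
    Z_AGF := by
  intro F _ _ d s E e ρ ev he hv z
  obtain ⟨m, hm⟩ := exists_bdV z
  obtain ⟨u, hu⟩ : ∃ u : ℕ → Fin d → KI F, ∀ n, u n = e ((th F)⁻¹ ^ n • z) := ⟨_, fun _ => rfl⟩
  have u0 : e z = u 0 := by rw [hu, pow_zero, one_smul]
  have hy : ∀ n : ℕ, BdV ((th F)⁻¹ ^ n • z) (-n + m) := fun n => BdV.smul' (Bd.th_inv_pow n) hm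
  have hK : ∀ n i, u n i = th F * u (n + 1) i +
      ∑ l, ∑ j, E l i j * u (n + 1) j ^ Fintype.card F ^ (l.val + 1) := by
    intro n i
    have h1 : u n = phiL F (th F) E (u (n + 1)) := by
      rw [hu, hu, ← he.fe, smul_smul, pow_succ', ← mul_assoc, mul_inv_cancel₀ th_ne_zero, one_mul]
    rw [h1, coe_phiL, phi, Pi.add_apply, Finset.sum_apply]
    rfl
  have hg : ∀ i, ∃ x : T F, ∀ n, cf n x = u (n + 1) i ^ Fintype.card F := by
    intro i
    obtain ⟨B, hB⟩ := exists_bd_fin fun n : Fin (m - min ρ 0).toNat =>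
      u (n + 1) i ^ Fintype.card F
    refine exists_T _ (max (2 * m) (B + 2 * (m - min ρ 0).toNat)) fun n => ?_
    rcases lt_or_ge n (m - min ρ 0).toNat with c | c
    · exact (hB ⟨n, c⟩).mono (by omega)
    · have h1 := (he.bd (by push_cast; omega) (hy (n + 1)) i).pow (Fintype.card F)
      rw [← hu] at h1
      refine h1.mono ?_
      have h2 : (2 : ℤ) ≤ Fintype.card F := by exact_mod_cast two_le_card (F := F)
      have h3 : (Fintype.card F : ℤ) * (-((n + 1 : ℕ) : ℤ) + m) ≤ 2 * (-((n + 1 : ℕ) : ℤ) + m) :=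
        mul_le_mul_of_nonpos_right h2 (by push_cast; omega)
      omega
  choose g hg using hg
  refine ⟨g, fun i => cf_ext fun n => ?_, fun i => ?_⟩
  · have h1 := congrArg (frn F (KI F) 1) (hK n i)
    simp only [map_add, map_mul, map_sum, map_pow, frn_apply, pow_one] at h1
    simp only [sub_mul, map_add, map_sub, map_sum, cf_cT_mul, cf_cT, cf_sT_iter, hg, u0]
    cases n with
    | zero => rw [cf_zero_tt_mul, if_pos rfl, h1]; ring
    | succ n => rw [cf_succ_tt_mul, if_neg (Nat.succ_ne_zero n), hg, h1]; ring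
  · have h1 : ∀ n, cf n (towU E (e z) g i) =
        (if n = 0 then u 0 i else 0) - (u n i - th F * u (n + 1) i) := by
      intro n
      simp only [towU, map_sub, map_sum, cf_cT_mul, cf_cT, cf_sT_iter, hg, u0, ← pow_mul,
        ← pow_succ']
      rw [hK n i]; ring
    have h2 : ∀ N, ∑ n ∈ Finset.range (N + 1), cf n (towU E (e z) g i) * th F ^ n =
        th F ^ (N + 1) * u (N + 1) i := by
      intro N
      induction N with
      | zero => simp [h1]
      | succ N ih => rw [Finset.sum_range_succ, ih, h1, if_neg (Nat.succ_ne_zero N)]; ring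
    obtain ⟨C, hC⟩ := cf_bd (towU E (e z) g i)
    refine sub_eq_zero.1 (eq_zero_of_bd (C := max C (2 * m - ρ)) (N₀ := (m - ρ).toNat)
      fun N hN => ?_)
    have h3 := hv.2 _ C hC (N + 1)
    have h4 := (Bd.th_pow (N + 1)).mul (he.near _ _ (by push_cast; omega) (hy (N + 1)) i)
    rw [h2] at h3
    rw [← hu, Pi.sub_apply, Pi.smul_apply, smul_eq_mul, mul_sub, ← mul_assoc, ← mul_pow,
      mul_inv_cancel₀ th_ne_zero, one_pow, one_mul] at h4
    have h5 := (h3.mono (n := max C (2 * m - ρ) - N) (by push_cast; omega)).add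
      (h4.mono (by push_cast; omega))
    rwa [sub_add_sub_cancel] at h5

end Pool.Agent.P.MP_e5b57f_nt.TM
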