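import Pool.Agent.P.MP_e5b57f_nt.TM.IfaceA

/-! Step BAS. -/

open Polynomial WithZero
open scoped Matrix Pointwise IntermediateField Topology

namespace Pool.Agent.P.MP_e5b57f_nt.TM

namespace ZBAS

theorem basis {A : Type} [CommRing A] [IsDomain A] (R : Subring A) [IsPrincipalIdealRing R]
    {y : Set A} (hy : y.Finite) : ∃ (l : ℕ) (ψ : Fin l → A),
      Submodule.span R (Set.range ψ) = Submodule.span R y ∧
      ∀ r : Fin l → A, (∀ i, r i ∈ R) → ∑ i, r i * ψ i = 0 → r = 0 := by
  have : Module.Finite R (Submodule.span R y) := Module.Finite.span_of_finite _ hy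
  let b := Module.finBasis R (Submodule.span R y)
  refine ⟨_, fun i => (b i : A), ?_, fun r hr h => funext fun i => ?_⟩
  · conv_rhs => rw [← Submodule.map_subtype_top (Submodule.span R y), ← b.span_eq,
      Submodule.map_span, ← Set.range_comp]
    rfl
  · exact congrArg Subtype.val (Fintype.linearIndependent_iff.1
      (b.linearIndependent.map' (Submodule.span R y).subtype (Submodule.ker_subtype _))
      (fun i => ⟨r i, hr i⟩) h i)

end ZBAS

theorem z_BAS (hRRA : Z_RRA) :
    Z_BAS := by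
  intro F _ _ κ y ⟨hy, hs, e, he⟩
  have := (hRRA F κ).1
  obtain ⟨l, ψ, h1, h0⟩ := ZBAS.basis (RR κ) hy
  have hψ : ∀ i, ψ i ∈ Sp κ y := fun i => h1.le (Submodule.subset_span ⟨i, rfl⟩)
  refine ⟨l, e, ψ, h1, h0, fun i => h1.ge (Sp.sT_mem hs (hψ i)), fun i => ?_⟩
  have h2 : Sp κ (sT F '' y) ≤ Sp κ (Set.range fun j => sT F (ψ j)) := by
    refine Submodule.span_le.2 ?_
    rintro _ ⟨x, hx, rfl⟩
    refine Sp.sT_mem (y := Set.range ψ) ?_ (h1.ge (Submodule.subset_span hx))
    rintro _ ⟨j, rfl⟩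
    exact Submodule.subset_span ⟨j, rfl⟩
  have h3 : ∀ x ∈ Sp κ y,
      (tt F - cT F (th F ^ Fintype.card F)) ^ e * x ∈ Sp κ (sT F '' y) := by
    intro x hx
    induction hx using Submodule.span_induction with
    | mem x hx => exact he x hx
    | zero => simp
    | add x y _ _ hx hy => rw [mul_add]; exact add_mem hx hy
    | smul r x _ hx => rw [mul_smul_comm]; exact Submodule.smul_mem _ r hx
  exact h2 (h3 _ (hψ i))

end Pool.Agent.P.MP_e5b57f_nt.TM
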