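import Pool.Agent.P.MP_e5b57f_nt.TM.IfaceB

/-! Step BR. -/

open Polynomial WithZero
open scoped Matrix Pointwise IntermediateField Topology

namespace Pool.Agent.P.MP_e5b57f_nt.TM

theorem z_BR :
    Z_BR := by
  intro F K L _ _ _ _ _ _ ι d s θ E x
  have one : ∀ (y : Fin d → K) i, ι (phi (Fintype.card F) θ E y i) =
      phi (Fintype.card F) (ι θ) (fun l => (E l).map ι) (fun j => ι (y j)) i := by
    intro y i
    simp [phi, Matrix.mulVec, dotProduct, map_sum, Finset.sum_apply]
  have it : ∀ n i, ι ((phi (Fintype.card F) θ E)^[n] x i) =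
      (phi (Fintype.card F) (ι θ) fun l => (E l).map ι)^[n] (fun j => ι (x j)) i := by
    intro n
    induction n with
    | zero => exact fun _ => rfl
    | succ n ih =>
      intro i
      rw [Function.iterate_succ_apply', Function.iterate_succ_apply', one, funext ih]
  refine ⟨it, fun a i => ?_⟩
  rw [← phiA_eq, coe_phiL]
  unfold phiA Polynomial.sum
  rw [Finset.sum_apply, Finset.sum_apply, map_sum]
  refine Finset.sum_congr rfl fun n _ => ?_
  simp only [Pi.smul_apply, map_smul, it]

end Pool.Agent.P.MP_e5b57f_nt.TM
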