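import Pool.Agent.P.MP_e5b57f_nt.TM.IfaceA

/-! Step CB. -/

open Polynomial WithZero
open scoped Matrix Pointwise IntermediateField Topology

namespace Pool.Agent.P.MP_e5b57f_nt.TM

theorem z_CB :
    Z_CB := by
  intro F _ ψ h C D Q g hψ hD h0 n
  rw [cf_mul]
  refine Bd.sum fun p hp => ?_
  have e := Finset.HasAntidiagonal.mem_antidiagonal.1 hp
  rw [cf_io]
  by_cases c : Q ≤ p.1 + g
  · have : tc p.1 h = 0 := by
      ext m
      rw [coeff_tc, h0 m p.1 c, coeff_zero]
    rw [this, map_zero, zero_mul]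
    exact Bd.zero _
  · have h1 := natDegree_tc p.1 h
    exact ((Bd.aeval (tc p.1 h)).mul (hψ p.2)).mono (by omega)

end Pool.Agent.P.MP_e5b57f_nt.TM
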