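import Pool.Agent.P.MP_e5b57f_nt.TM.IfaceB

/-! Step CTX. -/

open Polynomial WithZero
open scoped Matrix Pointwise IntermediateField Topology

namespace Pool.Agent.P.MP_e5b57f_nt.TM

namespace ZCTX
variable {A B : Type} [Field A] [Field B]

noncomputable def mapK (f : A →+* B) : KI A →+* KI B where
  toFun x := HahnSeries.map (Γ := ℤ) (R := A) x f
  map_one' := HahnSeries.map_one f.toMonoidWithZeroHom
  map_mul' _ _ := HahnSeries.map_mul f.toNonUnitalRingHom
  map_zero' := HahnSeries.map_zero f.toAddMonoidHom.toZeroHom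
  map_add' _ _ := HahnSeries.map_add f.toAddMonoidHom

theorem dg_mapK (f : A →+* B) (n : ℤ) (x : KI A) : dg n (mapK f x) = f (dg n x) := rfl

theorem mapK_th (f : A →+* B) : mapK f (th A) = th B :=
  dg_ext fun n => by
    rw [dg_mapK, ← pow_one (th A), ← pow_one (th B), dg_th_pow, dg_th_pow]
    split_ifs <;> simp

theorem mapK_alg (f : A →+* B) (c : A) :
    mapK f (algebraMap A (KI A) c) = algebraMap B (KI B) (f c) := HahnSeries.map_C c f

noncomputable def mapE (f : A ≃+* A) : KI A ≃+* KI A :=
  RingEquiv.ofRingHom (mapK f) (mapK f.symm)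
    (RingHom.ext fun x => dg_ext fun n => f.apply_symm_apply (dg n x))
    (RingHom.ext fun x => dg_ext fun n => f.symm_apply_apply (dg n x))

theorem dg_mapE (f : A ≃+* A) (n : ℤ) (x : KI A) : dg n (mapE f x) = f (dg n x) := rfl

theorem v_mapE (f : A ≃+* A) (x : KI A) : (Valued.v (mapE f x) : ℤᵐ⁰) = Valued.v x := by
  have h : ∀ n, Bd (mapE f x) n ↔ Bd x n := fun n => by
    simp only [bd_iff_dg, dg_mapE, map_eq_zero]
  by_cases hx : x = 0
  · simp [hx]
  obtain ⟨n, hn⟩ := exists_v_eq hx
  obtain ⟨m, hm⟩ := exists_v_eq ((map_ne_zero (mapE f)).2 hx)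
  have h1 := (bd_iff_of_v_eq hm).1 ((h n).2 hn.le)
  have h2 := (bd_iff_of_v_eq hn).1 ((h m).1 hm.le)
  rw [hn, hm, le_antisymm h1 h2]

noncomputable def ofP : PowerSeries A →+* KI A := HahnSeries.ofPowerSeries ℤ A

theorem dg_ofP (x : PowerSeries A) (n : ℕ) : dg (-n) (ofP x) = PowerSeries.coeff n x := by
  have := HahnSeries.ofPowerSeries_apply_coeff (Γ := ℤ) x n
  rw [← neg_neg (n : ℤ)] at this
  exact this

theorem dg_ofP_pos (x : PowerSeries A) {n : ℤ} (hn : 0 < n) : dg n (ofP x) = 0 :=
  (PowerSeries.coeff_coe x (-n)).trans (if_pos (by omega))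

theorem ofP_C (c : A) : ofP (PowerSeries.C c) = algebraMap A (KI A) c := PowerSeries.coe_C c

theorem ofP_X : ofP PowerSeries.X = (th A)⁻¹ := by
  refine eq_inv_of_mul_eq_one_right (dg_ext fun n => ?_)
  obtain ⟨n, rfl⟩ : ∃ m, n = m + 1 := ⟨n - 1, by ring⟩
  rw [dg_th_mul, dg_one]
  rcases lt_or_ge 0 n with h | h
  · rw [dg_ofP_pos _ h, if_neg (by omega)]
  · obtain ⟨k, rfl⟩ := Int.exists_eq_neg_ofNat h
    rw [dg_ofP, PowerSeries.coeff_X]
    exact if_congr (by omega) rfl rfl

theorem mapE_ofP (f : A ≃+* A) (x : PowerSeries A) :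
    mapE f (ofP x) = ofP (PowerSeries.map (f : A →+* A) x) :=
  dg_ext fun n => by
    rw [dg_mapE]
    rcases lt_or_ge 0 n with h | h
    · rw [dg_ofP_pos _ h, dg_ofP_pos _ h, map_zero]
    · obtain ⟨k, rfl⟩ := Int.exists_eq_neg_ofNat h
      rw [dg_ofP, dg_ofP, PowerSeries.coeff_map]; rfl

theorem inj_inv : Function.Injective (aeval (th A)⁻¹ : A[X] → KI A) := by
  have h : Transcendental A (th A) := transcendental_iff_injective.2 aeval_th_injective
  exact transcendental_iff_injective.1 fun h' => h (IsAlgebraic.inv_iff.1 h')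

noncomputable def lf (x : KI A) (h : Function.Injective (aeval x : A[X] → KI A)) :
    FractionRing A[X] →+* KI A :=
  IsFractionRing.lift (g := (aeval x : A[X] →ₐ[A] KI A).toRingHom) h

theorem lf_alg (x : KI A) (h) (p : A[X]) : lf x h (algebraMap A[X] _ p) = aeval x p :=
  IsFractionRing.lift_algebraMap _ p

theorem mapE_lf (f : A ≃+* A) (x : KI A) (h) (hx : mapE f x = x) (z : FractionRing A[X]) :
    mapE f (lf x h z) = lf x h (IsFractionRing.ringEquivOfRingEquiv (mapEquiv f) z) := by
  have : (mapE f : KI A →+* KI A).comp (lf x h) = (lf x h).comp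
      (IsFractionRing.ringEquivOfRingEquiv (K := FractionRing A[X]) (L := FractionRing A[X])
        (mapEquiv f)).toRingHom := by
    refine IsFractionRing.ringHom_ext (A := A[X]) fun p => ?_
    simp only [RingHom.comp_apply, RingEquiv.toRingHom_eq_coe, RingEquiv.coe_toRingHom,
      IsFractionRing.ringEquivOfRingEquiv_algebraMap, lf_alg]
    induction p using Polynomial.induction_on' with
    | add p q hp hq => simp only [map_add, hp, hq]
    | monomial n c =>
      rw [mapEquiv_apply, map_monomial, aeval_monomial, aeval_monomial, map_mul, map_pow, hx]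
      exact congrArg (· * _) (mapK_alg _ c)
  exact DFunLike.congr_fun this z

theorem dg_aeval_mul (p : A[X]) (y : KI A) (n : ℤ) :
    dg n (aeval (th A) p * y) = p.sum fun l u => u * dg (n - l) y := by
  rw [aeval_def, eval₂_eq_sum, Polynomial.sum, Polynomial.sum, Finset.sum_mul, map_sum]
  refine Finset.sum_congr rfl fun l _ => ?_
  rw [mul_assoc, ← Algebra.smul_def, map_smul, smul_eq_mul, ← dg_th_pow_mul l (n - l),
    sub_add_cancel]

noncomputable def ge (f : A →+* B) : (ℕ → A) →+ KI B where
  toFun x := ofP (PowerSeries.X * PowerSeries.mk fun n => f (x n))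
  map_zero' := by
    have : (PowerSeries.mk fun n => f ((0 : ℕ → A) n)) = 0 := by ext; simp
    rw [this, mul_zero, map_zero]
  map_add' x y := by
    rw [← map_add, ← mul_add]; congr 2; ext; simp

theorem ge_apply (f : A →+* B) (x : ℕ → A) :
    ge f x = (th B)⁻¹ * ofP (PowerSeries.mk fun n => f (x n)) := by
  rw [← ofP_X, ← map_mul]; rfl

theorem dg_ge (f : A →+* B) (x : ℕ → A) (n : ℕ) : dg (-(n + 1 : ℕ)) (ge f x) = f (x n) :=
  (dg_ofP _ _).trans (by rw [PowerSeries.coeff_succ_X_mul, PowerSeries.coeff_mk])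

end ZCTX

open ZCTX in
theorem z_CTX (hDESC : Z_DESC) :
    Z_CTX := by
  intro F _ _
  obtain ⟨p, hp⟩ := CharP.exists F
  have hpp : Fact p.Prime := ⟨CharP.char_is_prime F p⟩
  let W := AlgebraicClosure (KI F)
  have : CharP W p := charP_of_injective_algebraMap (algebraMap F W).injective p
  let σ : W ≃+* W := (FiniteField.frobeniusAlgEquiv F W p).toRingEquiv
  have hσ : ∀ x, σ x = x ^ Fintype.card F := fun _ => rfl
  let a : KI F →+* W := algebraMap _ _
  have hc : ∀ (x : KI W) h (y : KI F), lf x h (algebraMap W[X] _ (C (a y))) =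
      algebraMap W (KI W) (a y) := fun x h y => by rw [lf_alg, aeval_C]
  have ht : ∀ (x : KI W) h, lf x h (algebraMap W[X] _ X) = x := fun x h => by rw [lf_alg, aeval_X]
  refine ⟨FractionRing W[X], KI W, inferInstance, inferInstance, ⟨{
    iL := lf _ inj_inv
    iM := lf _ aeval_th_injective
    v := Valued.v
    sk := IsFractionRing.ringEquivOfRingEquiv (mapEquiv σ)
    sM := mapE σ
    t := algebraMap W[X] _ X
    c := (algebraMap W[X] _).comp (C.comp a)
    j := ofP.comp ((PowerSeries.map a).comp (TA F).val.toRingHom)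
    ge := ge a
    sM_iL := mapE_lf σ _ _ (by rw [map_inv₀]; exact congrArg _ (mapK_th _))
    sM_iM := mapE_lf σ _ _ (mapK_th _)
    v_sM := v_mapE σ
    v_c := fun x => (congrArg _ (hc _ _ x)).trans_le (Bd.const (a x))
    v_t := fun x => ?_
    j_inj := HahnSeries.ofPowerSeries_injective.comp
      ((PowerSeries.map_injective a a.injective).comp Subtype.val_injective)
    j_sT := fun x => ?_
    j_cT := fun x => ?_
    j_tt := ?_
    ge_smul := fun y x => ?_
    sM_ge := fun x => ?_
    t_ge := fun x => ?_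
    ext := fun J _ x b γ hb h => ?_ }⟩⟩
  · show Valued.v (lf _ _ (algebraMap W[X] _ X - algebraMap W[X] _ (C (a x)))) = _
    rw [← map_sub, lf_alg, v_aeval (X_sub_C_ne_zero _), natDegree_X_sub_C]; rfl
  · refine Eq.trans (congrArg ofP ?_) (mapE_ofP σ _).symm
    ext n
    simp only [PowerSeries.coeff_map]
    exact (congrArg a (cf_sT n x)).trans (map_pow a _ _)
  · exact ((congrArg ofP (PowerSeries.map_C a x)).trans (ofP_C _)).trans (hc _ _ x).symm
  · exact ((congrArg ofP (PowerSeries.map_X a)).trans ofP_X).trans (ht _ _).symm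
  · refine Eq.trans ?_ (congrArg (· * _) (hc _ _ y).symm)
    rw [ge_apply, ge_apply, mul_left_comm, ← ofP_C, ← map_mul]
    congr 2; ext; simp
  · rw [ge_apply, ge_apply, map_mul, map_inv₀, mapE_ofP]
    congr 2
    · exact mapK_th _
    · ext; simp [hσ]
  · refine (congrArg (· * _) (ht _ _)).trans (Eq.trans ?_ (congrArg (· + _) (hc _ _ (x 0)).symm))
    rw [ge_apply, ge_apply, mul_inv_cancel_left₀ th_ne_zero, ← ofP_C, ← ofP_X, ← map_mul, ← map_add]
    congr 1; ext n
    cases n <;> simp [PowerSeries.coeff_succ_X_mul]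
  · obtain ⟨D, hD⟩ := IsLocalization.exist_integer_multiples_of_finite (nonZeroDivisors W[X])
      (fun o : Option J => o.elim γ b)
    choose P hP using hD
    refine hDESC (KI F) W a J x (fun j => P (some j)) (fun h0 => hb (funext fun j => ?_)) fun n => ?_
    · have := hP (some j)
      rw [congrFun h0 j, Pi.zero_apply, map_zero, Algebra.smul_def] at this
      exact (mul_eq_zero.1 this.symm).resolve_left
        (IsFractionRing.to_map_ne_zero_of_mem_nonZeroDivisors D.2)
    · have e : ∀ o, aeval (th W) (P o) = aeval (th W) D.1 * lf _ aeval_th_injective (o.elim γ b) :=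
        fun o => by rw [← lf_alg _ aeval_th_injective, hP, Algebra.smul_def, map_mul, lf_alg]
      have h1 : ∑ j, aeval (th W) (P (some j)) * ge a (x j) + aeval (th W) (P none) = 0 := by
        simp only [e, mul_assoc, ← Finset.mul_sum, ← mul_add]
        exact mul_eq_zero_of_right _ h
      have h2 := congrArg (dg (-(n + 1 : ℕ))) h1
      rw [map_add, map_sum, dg_aeval_neg _ (by omega), add_zero, map_zero] at h2
      refine Eq.trans (Finset.sum_congr rfl fun j _ => ?_) h2
      rw [dg_aeval_mul]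
      refine Finset.sum_congr rfl fun l _ => ?_
      beta_reduce
      rw [← dg_ge a (x j) (n + l)]
      congr 3; push_cast; ring

end Pool.Agent.P.MP_e5b57f_nt.TM
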