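import Pool.Agent.P.MP_e5b57f_nt.TM.IfaceA

/-! Step DEN. -/

open Polynomial WithZero
open scoped Matrix Pointwise IntermediateField Topology

namespace Pool.Agent.P.MP_e5b57f_nt.TM

theorem z_DEN :
    Z_DEN := by
  intro F _ r hr
  induction hr using Subring.closure_induction with
  | mem x hx =>
    rcases hx with rfl | ⟨c, hc, rfl⟩
    · exact ⟨1, C X, one_ne_zero, by rw [map_one, map_one, one_mul, io_C_X]⟩
    · obtain ⟨a, b, rfl⟩ := (IntermediateField.mem_adjoin_simple_iff F c).1 hc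
      by_cases hb : b = 0
      · exact ⟨1, 0, one_ne_zero, by simp [hb]⟩
      · have hb' : aeval (th F) b ≠ 0 := fun e =>
          hb (aeval_th_injective (e.trans (map_zero _).symm))
        exact ⟨b, a.map C, hb, by rw [io_map_C, ← map_mul, mul_div_cancel₀ _ hb']⟩
  | zero => exact ⟨1, 0, one_ne_zero, by simp⟩
  | one => exact ⟨1, 1, one_ne_zero, by simp⟩
  | add x y _ _ hx hy =>
    obtain ⟨D, p, hD, e⟩ := hx
    obtain ⟨D', p', hD', e'⟩ := hy
    refine ⟨D * D', p * D'.map C + p' * D.map C, mul_ne_zero hD hD', ?_⟩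
    rw [map_add, map_mul (io F), map_mul (io F), io_map_C, io_map_C, ← e, ← e', map_mul, map_mul]
    ring
  | neg x _ hx =>
    obtain ⟨D, p, hD, e⟩ := hx
    exact ⟨D, -p, hD, by rw [map_neg, ← e]; ring⟩
  | mul x y _ _ hx hy =>
    obtain ⟨D, p, hD, e⟩ := hx
    obtain ⟨D', p', hD', e'⟩ := hy
    refine ⟨D * D', p * p', mul_ne_zero hD hD', ?_⟩
    rw [map_mul (io F), ← e, ← e', map_mul, map_mul]
    ring

end Pool.Agent.P.MP_e5b57f_nt.TM
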