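import Pool.Agent.P.MP_e5b57f_nt.TM.IfaceB

/-! Step DESC. -/

open Polynomial WithZero
open scoped Matrix Pointwise IntermediateField Topology

namespace Pool.Agent.P.MP_e5b57f_nt.TM

theorem z_DESC :
    Z_DESC := by
  intro K L _ _ ι J _ x p hp h
  let _ := ι.toAlgebra
  obtain ⟨b₀, hb⟩ := Function.ne_iff.1 hp
  obtain ⟨l₀, hl⟩ : ∃ l, (p b₀).coeff l ≠ 0 := by
    by_contra hh
    push Not at hh
    exact hb (Polynomial.ext hh)
  obtain ⟨lam, hlam⟩ : ∃ lam : Module.Dual K L, lam ((p b₀).coeff l₀) ≠ 0 := by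
    by_contra hh
    push Not at hh
    exact hl ((Module.forall_dual_apply_eq_zero_iff K _).1 hh)
  let p' : J → K[X] := fun b => ∑ l ∈ (p b).support, monomial l (lam ((p b).coeff l))
  have hc : ∀ b l, (p' b).coeff l = lam ((p b).coeff l) := fun b l => by
    simp only [p']
    rw [finsetSum_coeff, Finset.sum_eq_single l]
    · simp
    · intro c _ hc; simp [coeff_monomial, hc]
    · intro h; simp [notMem_support_iff.1 h]
  refine ⟨p', fun h0 => hlam ?_, fun n => ?_⟩
  · rw [← hc, h0]; simp
  · have := congrArg lam (h n)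
    rw [map_zero, map_sum] at this
    rw [← this]
    refine Finset.sum_congr rfl fun b _ => ?_
    rw [Polynomial.sum_eq_of_subset (s := (p b).support) _ (by simp) (fun l hl => by
      rw [mem_support_iff] at hl ⊢
      intro h0; rw [hc, h0, map_zero] at hl; exact hl rfl), Polynomial.sum, map_sum]
    refine Finset.sum_congr rfl fun l _ => ?_
    rw [hc, mul_comm ((p b).coeff l)]
    have : ι (x b (n + l)) * (p b).coeff l = x b (n + l) • (p b).coeff l := rfl
    rw [this, map_smul, smul_eq_mul, mul_comm]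

end Pool.Agent.P.MP_e5b57f_nt.TM
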