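import Pool.Agent.P.MP_e5b57f_nt.TM.IfaceA

/-! Step DIG. -/

open Polynomial WithZero
open scoped Matrix Pointwise IntermediateField Topology

namespace Pool.Agent.P.MP_e5b57f_nt.TM

theorem z_DIG :
    Z_DIG := by
  intro F _ Q H hQ
  induction H using Polynomial.induction_on' with
  | add p q hp hq =>
    obtain ⟨a, a1, a2, a3⟩ := hp
    obtain ⟨b, b1, b2, b3⟩ := hq
    have e : ∀ n, tc n (a + b) = tc n a + tc n b := fun n => by ext; simp [coeff_tc]
    refine ⟨a + b, fun m n => ?_, ?_, ?_⟩
    · rw [coeff_add, coeff_add, a1, b1, coeff_add]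
      split_ifs <;> simp
    · rw [map_add, eval_add, a2, b2]
    · simp only [e, map_add, mul_add, Finset.sum_add_distrib, a3, b3]
  | monomial k c =>
    have hk := Nat.mod_add_div k Q
    have hlt := Nat.mod_lt k hQ
    have e : ∀ n, tc n (monomial (k / Q) (monomial (k % Q) c) : R0 F) =
        if n = k % Q then monomial (k / Q) c else 0 := fun n => by
      ext m
      rw [coeff_tc, coeff_monomial]
      by_cases h1 : k / Q = m <;> by_cases h2 : n = k % Q <;>
        simp [h1, h2, coeff_monomial, eq_comm]
    refine ⟨monomial (k / Q) (monomial (k % Q) c), fun m n => ?_, ?_, ?_⟩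
    · rw [coeff_monomial, coeff_monomial]
      by_cases h1 : k = n + Q * m ∧ n < Q
      · obtain ⟨h1, h2⟩ := h1
        have h3 : k / Q = m := by
          rw [h1, Nat.add_mul_div_left _ _ hQ, Nat.div_eq_of_lt h2, zero_add]
        have h4 : k % Q = n := by
          rw [h1, Nat.add_mul_mod_self_left, Nat.mod_eq_of_lt h2]
        rw [if_pos h3, if_pos h2, if_pos h1, coeff_monomial, if_pos h4]
      · have h5 : (if n < Q then (if k = n + Q * m then c else 0) else 0) = 0 := by
          split_ifs with h2 h3
          · exact absurd ⟨h3, h2⟩ h1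
          · rfl
          · rfl
        rw [h5]
        split_ifs with h3
        · rw [coeff_monomial, if_neg]
          intro h4
          exact h1 ⟨by rw [← h3, ← h4, hk], h4 ▸ hlt⟩
        · rfl
    · rw [expand_monomial, eval_monomial, monomial_mul_X_pow, mul_comm, hk]
    · rw [Finset.sum_eq_single (k % Q)]
      · rw [e, if_pos rfl, expand_monomial, X_pow_mul_monomial, add_comm, mul_comm, hk]
      · intro n _ hn
        rw [e, if_neg hn, map_zero, mul_zero]
      · intro h
        exact absurd (Finset.mem_range.2 hlt) h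

end Pool.Agent.P.MP_e5b57f_nt.TM
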