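import Pool.Agent.P.MP_e5b57f_nt.TM.IfaceA

/-! Step EV. -/

open Polynomial WithZero
open scoped Matrix Pointwise IntermediateField Topology

namespace Pool.Agent.P.MP_e5b57f_nt.TM

namespace ZEV
variable {F : Type} [Field F]

/-- Partial sums. -/
noncomputable def S (x : T F) (N : ℕ) : KI F := ∑ n ∈ Finset.range N, cf n x * th F ^ n

/-- The partial sums tend to `v`. -/
def Lim (x : T F) (v : KI F) : Prop := ∃ (C : ℤ) (N₀ : ℕ), ∀ N, N₀ ≤ N → Bd (v - S x N) (C - N)

theorem S_succ (x : T F) (N : ℕ) : S x (N + 1) = S x N + cf N x * th F ^ N :=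
  Finset.sum_range_succ _ _

theorem lim_of {x : T F} {C : ℤ} (h : ∀ n : ℕ, Bd (cf n x) (C - 2 * n)) :
    ∃ v, ∀ N : ℕ, Bd (v - S x N) (C - N) := by
  obtain ⟨v, hv⟩ := exists_lim (S x) C 0 fun n _ => by
    rw [S_succ, add_sub_cancel_left]
    exact ((h n).mul (Bd.th_pow n)).mono (by omega)
  exact ⟨v, fun N => hv N (Nat.zero_le _)⟩

theorem uniq {x : T F} {v w : KI F} (h : Lim x v) (k : Lim x w) : v = w := by
  obtain ⟨C, N, h⟩ := h
  obtain ⟨D, M, k⟩ := k
  refine sub_eq_zero.1 (eq_zero_of_bd (C := max C D) (N₀ := max N M) fun n hn => ?_)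
  have := ((h n (by omega)).mono (n := max C D - n) (by omega)).sub
    ((k n (by omega)).mono (by omega))
  rwa [sub_sub_sub_cancel_right] at this

theorem ex (x : T F) : ∃ v, Lim x v := by
  obtain ⟨C, hC⟩ := cf_bd x
  obtain ⟨v, hv⟩ := lim_of hC
  exact ⟨v, C, 0, fun N _ => hv N⟩

/-- The value at `θ`. -/
noncomputable def ev0 (x : T F) : KI F := (ex x).choose

theorem lim (x : T F) : Lim x (ev0 x) := (ex x).choose_spec

theorem ev0_bd {x : T F} {C : ℤ} (h : ∀ n : ℕ, Bd (cf n x) (C - 2 * n)) (N : ℕ) :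
    Bd (ev0 x - S x N) (C - N) := by
  obtain ⟨v, hv⟩ := lim_of h
  rw [uniq (lim x) ⟨C, 0, fun N _ => hv N⟩]
  exact hv N

theorem ev0_add (x y : T F) : ev0 (x + y) = ev0 x + ev0 y := by
  obtain ⟨C, N, h⟩ := lim x
  obtain ⟨D, M, k⟩ := lim y
  refine uniq (lim _) ⟨max C D, max N M, fun n hn => ?_⟩
  have e : ev0 x + ev0 y - S (x + y) n = (ev0 x - S x n) + (ev0 y - S y n) := by
    simp only [S, map_add, add_mul, Finset.sum_add_distrib]; ring
  rw [e]
  exact ((h n (by omega)).mono (by omega)).add ((k n (by omega)).mono (by omega))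

theorem ev0_cT_mul (c : KI F) (x : T F) : ev0 (cT F c * x) = c * ev0 x := by
  obtain ⟨C, N, h⟩ := lim x
  obtain ⟨D, hD⟩ := exists_bd c
  refine uniq (lim _) ⟨D + C, N, fun n hn => ?_⟩
  have e : c * ev0 x - S (cT F c * x) n = c * (ev0 x - S x n) := by
    simp only [S, cf_cT_mul, mul_assoc, ← Finset.mul_sum]; ring
  rw [e]
  exact (hD.mul (h n hn)).mono (by omega)

theorem ev0_one : ev0 (1 : T F) = 1 := by
  refine uniq (lim _) ⟨0, 1, fun n hn => ?_⟩
  obtain ⟨m, rfl⟩ := Nat.exists_eq_add_of_le' hn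
  have e : S (1 : T F) (m + 1) = 1 := by
    rw [S, Finset.sum_range_succ', ← map_one (cT F)]
    simp only [cf_cT]
    simp
  rw [e, sub_self]
  exact Bd.zero _

theorem ev0_tt_mul (x : T F) : ev0 (tt F * x) = th F * ev0 x := by
  obtain ⟨C, N, h⟩ := lim x
  refine uniq (lim _) ⟨C + 2, N + 1, fun n hn => ?_⟩
  obtain ⟨m, rfl⟩ := Nat.exists_eq_add_of_le' (show 1 ≤ n by omega)
  have e : th F * ev0 x - S (tt F * x) (m + 1) = th F * (ev0 x - S x m) := by
    rw [S, Finset.sum_range_succ', cf_zero_tt_mul, zero_mul, add_zero, mul_sub, S, Finset.mul_sum]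
    congr 1
    exact Finset.sum_congr rfl fun k _ => by rw [cf_succ_tt_mul]; ring
  rw [e]
  exact (Bd.th.mul (h m (by omega))).mono (by push_cast; omega)

theorem dec (x : T F) : ∃ y, x = cT F (ev0 x) + (tt F * y + cT F (-th F) * y) := by
  obtain ⟨C, hC⟩ := cf_bd x
  obtain ⟨y, hy⟩ := exists_T (fun n => (th F)⁻¹ ^ (n + 1) * (ev0 x - S x (n + 1))) (C - 2)
    fun n => ((Bd.th_inv_pow (n + 1)).mul (ev0_bd hC (n + 1))).mono (by push_cast; omega)
  refine ⟨y, cf_ext fun n => ?_⟩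
  have h0 := th_ne_zero (F := F)
  rw [map_add, map_add, cf_cT_mul, cf_cT, hy]
  cases n with
  | zero =>
    rw [cf_zero_tt_mul, S_succ]
    simp only [S, Finset.range_zero, Finset.sum_empty, if_true]
    have h1 := mul_inv_cancel₀ h0
    linear_combination (ev0 x - cf 0 x) * h1
  | succ n =>
    rw [cf_succ_tt_mul, hy, S_succ x (n + 1), if_neg (Nat.succ_ne_zero n)]
    simp only [inv_pow]
    field_simp
    ring

theorem ev0_mul (x x' : T F) : ev0 (x * x') = ev0 x * ev0 x' := by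
  obtain ⟨y, hy⟩ := dec x
  have e : x * x' = cT F (ev0 x) * x' + (tt F * (y * x') + cT F (-th F) * (y * x')) := by
    conv_lhs => rw [hy]
    ring
  rw [e, ev0_add, ev0_add, ev0_cT_mul, ev0_cT_mul, ev0_tt_mul]
  ring

/-- The value at `θ` as a linear map. -/
noncomputable def evL : T F →ₗ[KI F] KI F where
  toFun := ev0
  map_add' := ev0_add
  map_smul' c x := by rw [Algebra.smul_def]; exact ev0_cT_mul c x

end ZEV

theorem z_EV :
    Z_EV := by
  intro F _
  refine ⟨AlgHom.ofLinearMap ZEV.evL ZEV.ev0_one ZEV.ev0_mul, ?_, fun x C h N => ZEV.ev0_bd h N⟩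
  show ZEV.ev0 (tt F) = th F
  rw [← mul_one (tt F), ZEV.ev0_tt_mul, ZEV.ev0_one, mul_one]

end Pool.Agent.P.MP_e5b57f_nt.TM
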