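import Pool.Agent.P.MP_e5b57f_nt.TM.IfaceA

/-! Step EXP1. -/

open Polynomial WithZero
open scoped Matrix Pointwise IntermediateField Topology

namespace Pool.Agent.P.MP_e5b57f_nt.TM

namespace ZEXP1

variable {F : Type} [Field F] {d : ℕ} {φ : Module.End F (Fin d → KI F)} {c : ℤ}

/-- `y` is the limit of `u`, with a linear rate. -/
def IsL (y : Fin d → KI F) (u : ℕ → Fin d → KI F) : Prop :=
  ∃ (C : ℤ) (N₀ : ℕ), ∀ N, N₀ ≤ N → BdV (y - u N) (C - N)

theorem IsL.add {y y' : Fin d → KI F} {u u' : ℕ → Fin d → KI F} (h : IsL y u) (h' : IsL y' u') :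
    IsL (y + y') fun N => u N + u' N := by
  obtain ⟨C, N₀, h⟩ := h
  obtain ⟨C', N₀', h'⟩ := h'
  refine ⟨max C C', max N₀ N₀', fun N hN => ?_⟩
  rw [add_sub_add_comm]
  exact ((h N (by omega)).mono (by omega)).add ((h' N (by omega)).mono (by omega))

theorem IsL.smul {y : Fin d → KI F} {u : ℕ → Fin d → KI F} (a : F) (h : IsL y u) :
    IsL (a • y) fun N => a • u N := by
  obtain ⟨C, N₀, h⟩ := h
  exact ⟨C, N₀, fun N hN => by rw [← smul_sub]; exact (h N hN).smul a⟩

theorem IsL.uniq {y y' : Fin d → KI F} {u : ℕ → Fin d → KI F} (h : IsL y u) (h' : IsL y' u) :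
    y = y' := by
  obtain ⟨C, N₀, h⟩ := h
  obtain ⟨C', N₀', h'⟩ := h'
  refine sub_eq_zero.1 (eq_zero_of_bdV (C := max C C') (N₀ := max N₀ N₀') fun N hN => ?_)
  rw [← sub_sub_sub_cancel_right y y' (u N)]
  exact ((h N (by omega)).mono (by omega)).sub ((h' N (by omega)).mono (by omega))

theorem IsL.shift {y : Fin d → KI F} {u : ℕ → Fin d → KI F} (h : IsL y u) :
    IsL y fun N => u (N + 1) := by
  obtain ⟨C, N₀, h⟩ := h
  exact ⟨C, N₀, fun N hN => (h (N + 1) (by omega)).mono (by push_cast; omega)⟩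

section
variable (hc : 0 ≤ c) (H : ∀ w n, n ≤ 0 → BdV w n → BdV (φ w - th F • w) (c + 2 * n))
include hc H

theorem one {w : Fin d → KI F} {n : ℤ} (hn : n ≤ -c) (h : BdV w n) : BdV (φ w) (n + 1) := by
  rw [← sub_add_cancel (φ w) (th F • w)]
  exact ((H w n (by omega) h).mono (by omega)).add ((BdV.smul' Bd.th h).mono (by omega))

theorem iter {w : Fin d → KI F} {n : ℤ} (h : BdV w n) :
    ∀ N : ℕ, n + N ≤ -c + 1 → BdV ((φ ^ N) w) (n + N)
  | 0, _ => by simpa using h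
  | N + 1, hN => by
    rw [pow_succ', Module.End.mul_apply]
    push_cast at hN
    exact (one hc H (by omega) (iter h N (by omega))).mono (by push_cast; omega)

theorem IsL.map {y : Fin d → KI F} {u : ℕ → Fin d → KI F} (h : IsL y u) :
    IsL (φ y) fun N => φ (u N) := by
  obtain ⟨C, N₀, h⟩ := h
  refine ⟨C + 1, max N₀ (C + c).toNat, fun N hN => ?_⟩
  rw [← map_sub]
  exact (one hc H (by omega) (h N (by omega))).mono (by omega)

theorem step {z : Fin d → KI F} {m : ℤ} (h : BdV z m) (N : ℕ) (h1 : m ≤ N)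
    (h2 : 2 * c + 2 * m ≤ N) :
    BdV ((φ ^ (N + 1)) ((th F)⁻¹ ^ (N + 1) • z) - (φ ^ N) ((th F)⁻¹ ^ N • z))
      (c + 2 * m - 2 - N) := by
  have e : (th F)⁻¹ ^ N • z = th F • (th F)⁻¹ ^ (N + 1) • z := by
    rw [smul_smul, pow_succ', mul_inv_cancel_left₀ th_ne_zero]
  have h3 := H _ _ (by push_cast; omega) (BdV.smul' (Bd.th_inv_pow (N + 1)) h)
  rw [pow_succ φ, Module.End.mul_apply, e, ← map_sub]
  push_cast at h3
  exact (iter hc H h3 N (by omega)).mono (by omega)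

end

end ZEXP1

open ZEXP1 in
theorem z_EXP1 :
    Z_EXP1 := by
  intro F _ d φ c hc H
  have ex : ∀ z : Fin d → KI F, ∃ y, IsL y fun N => (φ ^ N) ((th F)⁻¹ ^ N • z) := fun z => by
    obtain ⟨m, hm⟩ := exists_bdV z
    obtain ⟨y, hy⟩ := exists_limV (fun N => (φ ^ N) ((th F)⁻¹ ^ N • z)) _
      (max m.toNat (2 * c + 2 * m).toNat) fun N hN => step hc H hm N (by omega) (by omega)
    exact ⟨y, _, _, hy⟩
  choose e he using ex
  refine ⟨⟨⟨e, fun z z' => (he _).uniq ?_⟩, fun a z => (he _).uniq ?_⟩, fun z => ?_,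
    fun z n hn hz => ?_⟩
  · simpa only [smul_add, map_add] using (he z).add (he z')
  · simpa only [smul_comm _ a z, map_smul, RingHom.id_apply] using (he z).smul a
  · refine (he _).shift.uniq ?_
    have e1 : ∀ N : ℕ, (φ ^ (N + 1)) ((th F)⁻¹ ^ (N + 1) • th F • z) =
        φ ((φ ^ N) ((th F)⁻¹ ^ N • z)) := fun N => by
      rw [smul_smul, pow_succ (th F)⁻¹, inv_mul_cancel_right₀ th_ne_zero, pow_succ',
        Module.End.mul_apply]
    simp only [e1]
    exact (he z).map hc H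
  · obtain ⟨y, hy⟩ := exists_limV (fun N => (φ ^ N) ((th F)⁻¹ ^ N • z)) _ 0
      fun N _ => step hc H hz N (by omega) (by omega)
    have h1 : e z = y := (he z).uniq ⟨_, _, hy⟩
    have h2 := hy 0 le_rfl
    simp only [pow_zero, one_smul, Module.End.one_apply, ← h1] at h2
    exact h2.mono (by omega)

end Pool.Agent.P.MP_e5b57f_nt.TM
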