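import Pool.Agent.P.MP_e5b57f_nt.TM.IfaceA

/-! Step EXP2. -/

open Polynomial WithZero
open scoped Matrix Pointwise IntermediateField Topology

namespace Pool.Agent.P.MP_e5b57f_nt.TM

theorem z_EXP2 :
    Z_EXP2 := by
  intro F _ d e ρ near y hy
  let r : ℕ → Fin d → KI F := fun n => (fun w => w - e w)^[n] y
  have r1 : ∀ n, r (n + 1) = r n - e (r n) := fun n => Function.iterate_succ_apply' _ _ _
  have hr : ∀ n : ℕ, BdV (r n) (ρ - n) := fun n => by
    induction n with
    | zero => simpa [r] using hy
    | succ n ih =>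
      have := (near _ _ (by omega) ih).neg
      rw [neg_sub, ← r1] at this
      exact this.mono (by push_cast; omega)
  have hx : ∀ n, e (∑ k ∈ Finset.range n, r k) = y - r n := fun n => by
    induction n with
    | zero => simp [r]
    | succ n ih => rw [Finset.sum_range_succ, map_add, ih, r1]; abel
  obtain ⟨z, hz⟩ := exists_limV (fun n => ∑ k ∈ Finset.range n, r k) ρ 0 fun n _ => by
    rw [Finset.sum_range_succ, add_sub_cancel_left]; exact hr n
  refine ⟨z, by simpa using hz 0 le_rfl, sub_eq_zero.1
    (eq_zero_of_bdV (C := ρ) (N₀ := 0) fun n _ => ?_)⟩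
  have h1 := hz n (Nat.zero_le n)
  have h2 := (((near _ _ (by omega) h1).mono (n := ρ - n) (by omega)).add h1).sub (hr n)
  rw [sub_add_cancel, map_sub, hx] at h2
  have h3 : e z - (y - r n) - r n = e z - y := by abel
  rwa [h3] at h2

end Pool.Agent.P.MP_e5b57f_nt.TM
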