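import Pool.Agent.P.MP_e5b57f_nt.TM.IfaceB

/-! Step FIN. -/

open Polynomial WithZero
open scoped Matrix Pointwise IntermediateField Topology

namespace Pool.Agent.P.MP_e5b57f_nt.TM

theorem z_FIN :
    Z_FIN := by
  intro F K _ _ _ ι θ S hθ hA hS
  have hm : ∀ x : F⟮θ⟯, ι x ∈ K0 F := fun x => by
    have : F⟮θ⟯.map ι = K0 F := by rw [IntermediateField.adjoin_map, Set.image_singleton, hθ]
    exact this ▸ ⟨x, x.2, rfl⟩
  let f : F⟮θ⟯ →+* K0 F := ((ι : K →+* KI F).comp (algebraMap F⟮θ⟯ K)).codRestrict _ hm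
  have := (hS.image ι).to_subtype
  refine ⟨IntermediateField.adjoin (K0 F) (ι '' S),
    IntermediateField.finiteDimensional_adjoin ?_,
    fun x hx => IntermediateField.subset_adjoin _ _ ⟨x, hx, rfl⟩⟩
  rintro _ ⟨x, -, rfl⟩
  exact (hA.isAlgebraic x).isIntegral.map_of_comp_eq f (ι : K →+* KI F) rfl

end Pool.Agent.P.MP_e5b57f_nt.TM
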