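import Pool.Agent.P.MP_e5b57f_nt.TM.IfaceB

/-! Step GAUSS. -/

open Polynomial WithZero
open scoped Matrix Pointwise IntermediateField Topology

namespace Pool.Agent.P.MP_e5b57f_nt.TM

namespace ZGAUSS

theorem rows {R A L : Type} [CommRing R] [CommRing A] [Algebra R A] [Field L]
    (ev : A →+* L) (P : Set A → Prop) (d : ℕ) (h1 : P {1}) (hm : ∀ y z, P y → P z → P (y * z))
    (Λ : Finset (Fin d → L))
    (hΛ : ∀ l ∈ Λ, ∃ y, P y ∧ ∀ i, ∃ U ∈ Submodule.span R y, ev U = l i) :
    ∃ y, P y ∧ ∃ C : Fin d → Fin d → A, (∀ i j, C i j ∈ Submodule.span R y) ∧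
      (∀ i, ∀ l ∈ Λ, ∑ j, ev (C i j) * l j = 0) ∧
      ∀ c : Fin d → L, (∀ l ∈ Λ, ∑ j, c j * l j = 0) →
        ∃ x : Fin d → L, ∀ j, c j = ∑ i, x i * ev (C i j) := by
  classical
  induction Λ using Finset.induction_on with
  | empty =>
    refine ⟨{1}, h1, fun i j => if i = j then 1 else 0, fun i j => ?_, by simp, fun c _ => ⟨c, fun j => ?_⟩⟩
    · dsimp only
      split_ifs
      · exact Submodule.subset_span rfl
      · exact Submodule.zero_mem _
    · simp [apply_ite ev]
  | insert l Λ _ ih =>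
    obtain ⟨y, hy, C, hC, hk, hs⟩ := ih fun l' hl' => hΛ l' (Finset.mem_insert_of_mem hl')
    obtain ⟨z, hz, hU⟩ := hΛ l (Finset.mem_insert_self _ _)
    choose U hU1 hU2 using hU
    set β : Fin d → A := fun i => ∑ j, C i j * U j with hβ
    have hβ1 : ∀ i, β i ∈ Submodule.span R (y * z) := fun i => Submodule.sum_mem _ fun j _ => by
      rw [← Submodule.span_mul_span]
      exact Submodule.mul_mem_mul (hC i j) (hU1 j)
    have hβ2 : ∀ i, ev (β i) = ∑ j, ev (C i j) * l j := fun i => by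
      simp only [hβ, map_sum, map_mul, hU2]
    by_cases h0 : ∀ i, ev (β i) = 0
    · refine ⟨y, hy, C, hC, fun i l' hl' => ?_, fun c hc =>
        hs c fun l' hl' => hc l' (Finset.mem_insert_of_mem hl')⟩
      rcases Finset.mem_insert.1 hl' with rfl | h
      · rw [← hβ2, h0]
      · exact hk i l' h
    push Not at h0
    obtain ⟨i₀, hi₀⟩ := h0
    have hsum : ∀ (i : Fin d) (w : Fin d → L), ∑ j, ev (β i₀ * C i j - β i * C i₀ j) * w j =
        ev (β i₀) * ∑ j, ev (C i j) * w j - ev (β i) * ∑ j, ev (C i₀ j) * w j := by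
      intro i w
      rw [Finset.mul_sum, Finset.mul_sum, ← Finset.sum_sub_distrib]
      refine Finset.sum_congr rfl fun j _ => ?_
      rw [map_sub, map_mul, map_mul]
      ring
    refine ⟨y * z * y, hm _ _ (hm _ _ hy hz) hy, fun i j => β i₀ * C i j - β i * C i₀ j,
      fun i j => ?_, fun i l' hl' => ?_, fun c hc => ?_⟩
    · rw [← Submodule.span_mul_span]
      exact Submodule.sub_mem _ (Submodule.mul_mem_mul (hβ1 _) (hC _ _))
        (Submodule.mul_mem_mul (hβ1 _) (hC _ _))
    · rw [hsum]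
      rcases Finset.mem_insert.1 hl' with rfl | h
      · rw [← hβ2, ← hβ2]; ring
      · rw [hk i l' h, hk i₀ l' h]; ring
    · obtain ⟨x, hx⟩ := hs c fun l' hl' => hc l' (Finset.mem_insert_of_mem hl')
      have h2 : ∑ i, x i * ev (β i) = 0 := by
        rw [← hc l (Finset.mem_insert_self _ _)]
        simp only [hβ2, hx, Finset.mul_sum, Finset.sum_mul]
        rw [Finset.sum_comm]
        exact Finset.sum_congr rfl fun _ _ => Finset.sum_congr rfl fun _ _ => by ring
      refine ⟨fun i => x i / ev (β i₀), fun j => ?_⟩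
      have h3 : ∑ i, x i / ev (β i₀) * ev (β i₀ * C i j - β i * C i₀ j) =
          ∑ i, x i * ev (C i j) - (∑ i, x i * ev (β i)) * (ev (C i₀ j) / ev (β i₀)) := by
        rw [Finset.sum_mul, ← Finset.sum_sub_distrib]
        refine Finset.sum_congr rfl fun i _ => ?_
        rw [map_sub, map_mul, map_mul]
        field_simp
      rw [h3, h2, zero_mul, sub_zero, hx]

end ZGAUSS

theorem z_GAUSS :
    Z_GAUSS := by
  classical
  intro R A L _ _ _ _ ev P d Λ u h1 hm hΛ hne hu
  obtain ⟨y, hy, C, hC, hk, hs⟩ := ZGAUSS.rows ev P d h1 hm Λ hΛ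
  obtain ⟨f, hf0, hf⟩ := Submodule.exists_le_ker_of_lt_top _ (lt_top_iff_ne_top.2 hne)
  have hfe : ∀ w : Fin d → L, f w = ∑ j, f (Pi.single j 1) * w j := by
    intro w
    conv_lhs => rw [pi_eq_sum_univ' w]
    rw [map_sum]
    exact Finset.sum_congr rfl fun j _ => by rw [map_smul, smul_eq_mul, mul_comm]
  obtain ⟨x, hx⟩ := hs (fun j => f (Pi.single j 1)) fun l hl => by
    rw [← hfe]
    exact hf (Submodule.subset_span hl)
  have hrow : ∃ i, (fun j => ev (C i j)) ≠ 0 := by
    by_contra hcon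
    push Not at hcon
    refine hf0 (LinearMap.ext fun w => ?_)
    rw [hfe, LinearMap.zero_apply]
    refine Finset.sum_eq_zero fun j _ => ?_
    rw [hx j, Finset.sum_eq_zero fun i _ => by rw [show ev (C i j) = 0 from congrFun (hcon i) j, mul_zero],
      zero_mul]
  obtain ⟨i, hi⟩ := hrow
  refine ⟨y, C i, hy, hC i, hi, ?_⟩
  refine Submodule.span_induction (p := fun w _ => ∑ j, ev (C i j) * w j = 0)
    (fun l hl => hk i l hl) (by simp) (fun a b _ _ ha hb => ?_) (fun a w _ hw => ?_) hu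
  · simp only [Pi.add_apply, mul_add, Finset.sum_add_distrib, ha, hb, add_zero]
  · have : ∑ j, ev (C i j) * (a • w) j = a * ∑ j, ev (C i j) * w j := by
      rw [Finset.mul_sum]
      exact Finset.sum_congr rfl fun j _ => by rw [Pi.smul_apply, smul_eq_mul]; ring
    rw [this, hw, mul_zero]

end Pool.Agent.P.MP_e5b57f_nt.TM
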