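import Pool.Agent.P.MP_e5b57f_nt.TM.IfaceA

/-! Step GOODM. -/

open Polynomial WithZero
open scoped Matrix Pointwise IntermediateField Topology

namespace Pool.Agent.P.MP_e5b57f_nt.TM

theorem z_GOODM :
    Z_GOODM := by
  intro F _ _ κ
  refine ⟨⟨Set.finite_singleton _, ?_, 0, ?_⟩, ?_⟩
  · rintro x rfl
    rw [map_one]
    exact Submodule.subset_span rfl
  · rintro x rfl
    rw [pow_zero, one_mul]
    exact Submodule.subset_span ⟨1, rfl, map_one _⟩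
  · rintro y z ⟨hy1, hy2, e₁, hy3⟩ ⟨hz1, hz2, e₂, hz3⟩
    refine ⟨hy1.mul hz1, ?_, e₁ + e₂, ?_⟩
    · rintro _ ⟨a, ha, b, hb, rfl⟩
      show sT F (a * b) ∈ _
      rw [map_mul]
      exact Sp.mul (hy2 a ha) (hz2 b hb)
    · rintro _ ⟨a, ha, b, hb, rfl⟩
      show _ * (a * b) ∈ _
      rw [Set.image_mul, pow_add, mul_mul_mul_comm]
      exact Sp.mul (hy3 a ha) (hz3 b hb)

end Pool.Agent.P.MP_e5b57f_nt.TM
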