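import Pool.Agent.P.MP_e5b57f_nt.TM.IfaceA

/-! Step GOODT. -/

open Polynomial WithZero
open scoped Matrix Pointwise IntermediateField Topology

namespace Pool.Agent.P.MP_e5b57f_nt.TM

namespace ZGOODT

variable {F : Type} [Field F] [Fintype F] {d s : ℕ} {κ : Subfield (KI F)}

theorem solve {A : Matrix (Fin d) (Fin d) (KI F)} (hA : ∀ i j, A i j ∈ κ) (hd : A.det ≠ 0)
    {y : Set (T F)} {x : Fin d → T F}
    (h : ∀ i, ∑ j, cT F (A i j ^ Fintype.card F) * x j ∈ Sp κ y) (k : Fin d) : x k ∈ Sp κ y := by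
  let B : Matrix (Fin d) (Fin d) κ := Matrix.of fun i j => ⟨A i j, hA i j⟩
  have hB : B.det ≠ 0 := fun h0 => hd (by
    have := κ.subtype.map_det B
    rw [h0, map_zero] at this
    exact this.symm)
  let ψ : κ →+* T F := (sT F).comp ((cT F).comp κ.subtype)
  have h1 : (B⁻¹.map ψ) * (B.map ψ) = 1 := by
    rw [← Matrix.map_mul, Matrix.nonsing_inv_mul B hB.isUnit, Matrix.map_one _ ψ.map_zero ψ.map_one]
  have h2 : x k = ∑ i, ψ (B⁻¹ k i) * ∑ j, cT F (A i j ^ Fintype.card F) * x j := by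
    have h3 := congrFun (Matrix.mulVec_mulVec x (B⁻¹.map ψ) (B.map ψ)) k
    rw [h1, Matrix.one_mulVec] at h3
    rw [← h3]
    simp only [← sT_cT]
    rfl
  rw [h2]
  exact Submodule.sum_mem _ fun i _ => Sp.mul_mem (sT_mem_RR (cT_mem_RR (B⁻¹ k i).2)) (h i)

theorem main {E : Fin (s + 1) → Matrix (Fin d) (Fin d) (KI F)} {Q : Fin d → KI F}
    {g : Fin d → T F} (hθ : th F ∈ κ) (hE : ∀ l i j, E l i j ∈ κ) (hd : (E (Fin.last s)).det ≠ 0)
    (h : TowEq E Q g) {y₀ : Set (T F)} (hf : y₀.Finite) (h0 : ∀ x ∈ y₀, sT F x = x)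
    (hQ : ∀ i, cT F (Q i ^ Fintype.card F) ∈ Sp κ y₀) : Good κ (y₀ ∪ Set.range (tw s g)) := by
  set y := y₀ ∪ Set.range (tw s g) with hy
  have hπ : tt F - cT F (th F ^ Fintype.card F) ∈ RR κ :=
    sub_mem (tt_mem_RR κ) (cT_mem_RR (κ.pow_mem hθ _))
  have hc : ∀ l i j, cT F (E l i j ^ Fintype.card F) ∈ RR κ := fun l i j =>
    cT_mem_RR (κ.pow_mem (hE l i j) _)
  have m1 : ∀ p, tw s g p ∈ Sp κ y := fun p => Submodule.subset_span (Or.inr ⟨p, rfl⟩)
  have m2 : ∀ (l : Fin (s + 1)) j, (sT F)^[l.val + 1] (g j) ∈ Sp κ (sT F '' y) := fun l j =>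
    Submodule.subset_span
      ⟨tw s g (l, j), Or.inr ⟨_, rfl⟩, (Function.iterate_succ_apply' _ _ _).symm⟩
  have s0 : y₀ ⊆ sT F '' y := fun x hx => ⟨x, Or.inl hx, h0 x hx⟩
  have m3 : ∀ j, (sT F)^[s + 1] (g j) ∈ Sp κ y := by
    refine solve (hE (Fin.last s)) hd fun i => ?_
    have e := h i
    rw [Fin.sum_univ_castSucc, ← sub_eq_iff_eq_add'] at e
    refine e ▸ sub_mem (add_mem (Sp.mul_mem hπ (m1 (0, i)))
      (Submodule.span_mono Set.subset_union_left (hQ i))) ?_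
    exact Submodule.sum_mem _ fun l _ => Submodule.sum_mem _ fun j _ =>
      Sp.mul_mem (hc _ _ _) (m1 (l.succ, j))
  refine ⟨hf.union (Set.finite_range _), ?_, 1, ?_⟩
  · rintro x (hx | ⟨⟨l, j⟩, rfl⟩)
    · rw [h0 x hx]; exact Submodule.subset_span (Or.inl hx)
    · rw [tw, ← Function.iterate_succ_apply' (sT F)]
      induction l using Fin.lastCases with
      | last => exact m3 j
      | cast l => exact m1 (l.succ, j)
  · rw [pow_one]
    rintro x (hx | ⟨⟨l, j⟩, rfl⟩)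
    · exact Sp.mul_mem hπ (Submodule.subset_span (s0 hx))
    · induction l using Fin.cases with
      | zero =>
        have e := eq_sub_of_add_eq (h j)
        refine e ▸ sub_mem ?_ (Submodule.span_mono s0 (hQ j))
        exact Submodule.sum_mem _ fun l _ => Submodule.sum_mem _ fun j _ =>
          Sp.mul_mem (hc _ _ _) (m2 l j)
      | succ l => exact Sp.mul_mem hπ (m2 l.castSucc j)

end ZGOODT

theorem z_GOODT :
    Z_GOODT := by
  intro F _ _ d s κ E Q g hθ hE hQ hd h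
  constructor
  · refine ZGOODT.main hθ hE hd h (Set.finite_singleton 1) (by rintro _ rfl; exact map_one _)
      fun i => ?_
    rw [← mul_one (cT F _)]
    exact Sp.mul_mem (cT_mem_RR (κ.pow_mem (hQ i) _)) (Submodule.subset_span rfl)
  · rintro rfl
    simpa using ZGOODT.main hθ hE hd h Set.finite_empty (by simp)
      fun i => by simp [Fintype.card_ne_zero]

end Pool.Agent.P.MP_e5b57f_nt.TM
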