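import Pool.Agent.P.MP_e5b57f_nt.TM.IfaceA

/-! Step KRO. -/

open Polynomial WithZero
open scoped Matrix Pointwise IntermediateField Topology

namespace Pool.Agent.P.MP_e5b57f_nt.TM

namespace ZKRO

variable {F : Type} [Field F] {d : ℕ}

/-- The first `N` fractional digits of the multiples of `β`. -/
noncomputable def Ψ (β : Fin d → KI F) (N : ℕ) : F[X] →ₗ[F] (Fin d × Fin N → F) where
  toFun a p := dg (-(p.2.val + 1 : ℤ)) (aeval (th F) a * β p.1)
  map_add' a b := by funext p; simp [add_mul]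
  map_smul' c a := by funext p; simp

theorem Ψ_apply (β : Fin d → KI F) (N : ℕ) (a : F[X]) (p : Fin d × Fin N) :
    Ψ β N a p = dg (-(p.2.val + 1 : ℤ)) (aeval (th F) a * β p.1) := rfl

theorem eq_aeval (hPP : Z_PP) (x : KI F) (h : ∀ m : ℕ, dg (-1 - m) x = 0) :
    ∃ a : F[X], x = aeval (th F) a := by
  obtain ⟨a, ha⟩ := hPP F x
  refine ⟨a, dg_ext fun n => ?_⟩
  by_cases hn : n < 0
  · obtain ⟨m, hm⟩ := Int.eq_ofNat_of_zero_le (show 0 ≤ -1 - n by omega)
    rw [dg_aeval_neg _ hn, show n = -1 - m by omega, h]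
  · have := bd_iff_dg.1 ha n (by omega)
    rwa [map_sub, sub_eq_zero] at this

end ZKRO

open ZKRO in
theorem z_KRO (hPP : Z_PP) :
    Z_KRO := by
  classical
  intro F _ d β
  by_cases hs : ∀ N, Function.Surjective (Ψ β N)
  · refine Or.inr fun γ N => ?_
    obtain ⟨a, ha⟩ := hs N fun p => dg (-(p.2.val + 1 : ℤ)) (γ p.1)
    choose b hb using fun i => hPP F (aeval (th F) a * β i - γ i)
    refine ⟨a, b, fun i => bd_iff_dg.2 fun m hm => ?_⟩
    by_cases h0 : m < 0
    · obtain ⟨k, hk⟩ := Int.eq_ofNat_of_zero_le (show 0 ≤ -1 - m by omega)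
      have h1 := congrFun ha (i, ⟨k, by omega⟩)
      rw [Ψ_apply] at h1
      rw [map_sub, map_sub, dg_aeval_neg _ h0, sub_zero, show m = -(k + 1 : ℤ) by omega]
      exact sub_eq_zero.2 h1
    · rw [sub_right_comm]
      exact bd_iff_dg.1 (hb i) m (by omega)
  · left
    obtain ⟨N, hN⟩ := not_forall.1 hs
    obtain ⟨f, hf, hk⟩ := Submodule.exists_le_ker_of_lt_top (LinearMap.range (Ψ β N))
      (lt_top_iff_ne_top.2 fun e => hN (LinearMap.range_eq_top.1 e))
    obtain ⟨ξ, hξ⟩ : ∃ ξ : Fin d × Fin N → F, ∀ v, f v = ∑ p, v p * ξ p :=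
      ⟨fun p => f fun j => if p = j then 1 else 0, fun v => by
        rw [LinearMap.pi_apply_eq_sum_univ]; rfl⟩
    refine ⟨fun i => ∑ k : Fin N, monomial k.val (ξ (i, k)), fun h => hf ?_, ?_⟩
    · refine LinearMap.ext fun v => ?_
      rw [hξ, LinearMap.zero_apply]
      refine Finset.sum_eq_zero fun p _ => ?_
      have h1 := congrArg (fun q : F[X] => q.coeff p.2.val) (congrFun h p.1)
      simp only [finsetSum_coeff, coeff_monomial, Fin.val_inj, Finset.sum_ite_eq', Finset.mem_univ,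
        if_true, Pi.zero_apply, coeff_zero] at h1
      rw [h1, mul_zero]
    · refine eq_aeval hPP _ fun m => ?_
      have h1 : f (Ψ β N (X ^ m)) = 0 := hk (LinearMap.mem_range_self _ _)
      rw [hξ, Fintype.sum_prod_type] at h1
      rw [← h1, map_sum]
      refine Finset.sum_congr rfl fun i _ => ?_
      rw [map_sum, Finset.sum_mul, map_sum]
      refine Finset.sum_congr rfl fun k _ => ?_
      rw [aeval_monomial, mul_assoc, ← Algebra.smul_def, map_smul, Ψ_apply, map_pow, aeval_X,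
        smul_eq_mul, mul_comm]
      congr 1
      have e1 := dg_th_pow_mul k.val (-1 - m - k.val) (β i)
      have e2 := dg_th_pow_mul m (-1 - m - k.val) (β i)
      rw [show (-1 - m - k.val + k.val : ℤ) = -1 - m by ring] at e1
      rw [show (-1 - m - k.val + m : ℤ) = -(k.val + 1) by ring] at e2
      rw [e1, e2]

end Pool.Agent.P.MP_e5b57f_nt.TM
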