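import Pool.Agent.P.MP_e5b57f_nt.TM.IfaceA

/-! Step LOW. -/

open Polynomial WithZero
open scoped Matrix Pointwise IntermediateField Topology

namespace Pool.Agent.P.MP_e5b57f_nt.TM

theorem z_LOW (hLOWA : Z_LOWA) :
    Z_LOW := by
  intro F _ _ l M α x hα hM hx h
  classical
  have e1 : ∃ n, cf n x ≠ 0 := by
    by_contra hc
    push Not at hc
    exact hx (cf_ext fun n => by rw [hc, map_zero])
  have e2 : ∃ n, ∃ j, tc n (α j) ≠ 0 := by
    by_contra hc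
    push Not at hc
    apply hα
    funext j
    ext m n
    rw [← coeff_tc, hc]
    simp
  obtain ⟨n₀, hn₀, m1⟩ : ∃ n₀, cf n₀ x ≠ 0 ∧ ∀ n < n₀, cf n x = 0 :=
    ⟨Nat.find e1, Nat.find_spec e1, fun n hn => not_not.1 (Nat.find_min e1 hn)⟩
  obtain ⟨μ, ⟨j₀, hj₀⟩, m2⟩ : ∃ μ, (∃ j, tc μ (α j) ≠ 0) ∧ ∀ n < μ, ∀ j, tc n (α j) = 0 :=
    ⟨Nat.find e2, Nat.find_spec e2, fun n hn j => by
      by_contra hc
      exact Nat.find_min e2 hn ⟨j, hc⟩⟩
  refine ⟨n₀, hLOWA F l M (fun j => tc μ (α j)) (cf n₀ x) (fun hc => hj₀ (congrFun hc j₀))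
    (fun j => (natDegree_tc μ (α j)).trans (hM j)) hn₀ ?_⟩
  have h2 := congrArg (cf (μ + n₀)) h
  rw [map_sum, map_zero] at h2
  rw [← h2]
  refine Finset.sum_congr rfl fun j _ => ?_
  rw [cf_mul, Finset.sum_eq_single (μ, n₀)]
  · rw [cf_io, cf_sT_iter]
  · rintro ⟨a, b⟩ hab hne
    have h3 : a + b = μ + n₀ := Finset.HasAntidiagonal.mem_antidiagonal.1 hab
    by_cases ha : a < μ
    · rw [cf_io, m2 a ha j, map_zero, zero_mul]
    · have hb : b < n₀ := by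
        by_contra hb
        apply hne
        rw [Prod.mk.injEq]
        omega
      rw [cf_sT_iter, m1 b hb, zero_pow (pow_ne_zero _ Fintype.card_ne_zero), mul_zero]
  · intro hc
    exact (hc (Finset.HasAntidiagonal.mem_antidiagonal.2 rfl)).elim

end Pool.Agent.P.MP_e5b57f_nt.TM
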