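import Pool.Agent.P.MP_e5b57f_nt.TM.BaseT

/-! Statements: exponential, reduction to periods, evaluation criterion. -/

open Polynomial WithZero
open scoped Matrix Pointwise IntermediateField Topology

namespace Pool.Agent.P.MP_e5b57f_nt.TM

-- deps:
def Z_PHB : Prop := ∀ (F : Type) [Field F] [Fintype F] (d s : ℕ)
  (E : Fin (s + 1) → Matrix (Fin d) (Fin d) (KI F)), ∃ c : ℤ, 0 ≤ c ∧
    ∀ w n, n ≤ 0 → BdV w n → BdV (phiL F (th F) E w - th F • w) (c + 2 * n)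

-- deps:
def Z_EXP1 : Prop := ∀ (F : Type) [Field F] (d : ℕ) (φ : Module.End F (Fin d → KI F)) (c : ℤ),
  0 ≤ c → (∀ w n, n ≤ 0 → BdV w n → BdV (φ w - th F • w) (c + 2 * n)) →
  ∃ e : Module.End F (Fin d → KI F), (∀ z, e (th F • z) = φ (e z)) ∧
    ∀ z n, n ≤ -c → BdV z n → BdV (e z - z) (2 * n - -c - 1)

-- deps:
def Z_EXP2 : Prop := ∀ (F : Type) [Field F] (d : ℕ) (e : Module.End F (Fin d → KI F)) (ρ : ℤ),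
  (∀ z n, n ≤ ρ → BdV z n → BdV (e z - z) (2 * n - ρ - 1)) →
  ∀ y, BdV y ρ → ∃ z, BdV z ρ ∧ e z = y

-- deps:
def Z_TOPO : Prop := ∀ (F : Type) [Field F] (d : ℕ) (S : Set (Fin d → KI F)) (ρ : ℤ),
  (∀ y, BdV y ρ → ∀ N : ℕ, ∃ x ∈ S, BdV (x - y) (-N)) → closure S ∈ 𝓝 (0 : Fin d → KI F)

-- deps:
def Z_PP : Prop := ∀ (F : Type) [Field F] (x : KI F), ∃ p : F[X], Bd (x - aeval (th F) p) (-1)

-- deps: Z_PP
def Z_KRO : Prop := ∀ (F : Type) [Field F] (d : ℕ) (β : Fin d → KI F),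
  (∃ a : Fin d → F[X], a ≠ 0 ∧ ∃ a₀ : F[X], ∑ i, aeval (th F) (a i) * β i = aeval (th F) a₀) ∨
  ∀ (γ : Fin d → KI F) (N : ℕ), ∃ (a : F[X]) (b : Fin d → F[X]),
    ∀ i, Bd (aeval (th F) a * β i - aeval (th F) (b i) - γ i) (-N)

-- deps:
def Z_PIG : Prop := ∀ (F : Type) [Field F] [Fintype F] (d : ℕ)
  (y : ℕ → Fin d → KI F) (R ρ : ℤ),
  (∀ n, BdV (y n) R) → ∃ a : F[X], a ≠ 0 ∧ BdV (a.sum fun n c => c • y n) ρ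

-- deps: Z_PIG
def Z_RED1 : Prop := ∀ (F : Type) [Field F] [Fintype F] (d : ℕ)
  (φ e : Module.End F (Fin d → KI F)) (ρ R : ℤ) (u : Fin d → KI F), IsExp φ e ρ →
  (∀ n : ℕ, BdV ((φ ^ n) (e u)) R) →
  u ∈ Submodule.span (KI F) {l : Fin d → KI F | e l = 0}

-- deps: Z_KRO
def Z_RED2 : Prop := ∀ (F : Type) [Field F] (d : ℕ) (φ e : Module.End F (Fin d → KI F)) (ρ : ℤ)
  (lam : Module.Basis (Fin d) (KI F) (Fin d → KI F)) (u : Fin d → KI F), IsExp φ e ρ →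
  (∀ i, e (lam i) = 0) →
  (∀ y, BdV y ρ → ∀ N : ℕ, ∃ a : F[X], BdV (aeval φ a (e u) - y) (-N)) ∨
    ∃ a : F[X], a ≠ 0 ∧ Deg e (aeval φ a (e u))

-- deps: Z_PIG Z_RED1 Z_RED2
def Z_RED : Prop := ∀ (F : Type) [Field F] [Fintype F] (d : ℕ)
  (φ e : Module.End F (Fin d → KI F)) (ρ R : ℤ) (P : Fin d → KI F), IsExp φ e ρ →
  (∀ n : ℕ, BdV ((φ ^ n) P) R) →
  (∀ y, BdV y ρ → ∀ N : ℕ, ∃ a : F[X], BdV (aeval φ a P - y) (-N)) ∨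
    ∃ a : F[X], a ≠ 0 ∧ Deg e (aeval φ a P)

-- deps:
def Z_EV : Prop := ∀ (F : Type) [Field F], ∃ ev : T F →ₐ[KI F] KI F, IsEv ev

-- deps:
def Z_AGF : Prop := ∀ (F : Type) [Field F] [Fintype F] (d s : ℕ)
  (E : Fin (s + 1) → Matrix (Fin d) (Fin d) (KI F)) (e : Module.End F (Fin d → KI F)) (ρ : ℤ)
  (ev : T F →ₐ[KI F] KI F), IsExp (phiL F (th F) E) e ρ → IsEv ev → ∀ z,
  ∃ g : Fin d → T F, TowEq E (e z) g ∧ ∀ i, ev (towU E (e z) g i) = z i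

-- deps:
def Z_GOODM : Prop := ∀ (F : Type) [Field F] [Fintype F] (κ : Subfield (KI F)),
  Good κ {1} ∧ ∀ y z, Good κ y → Good κ z → Good κ (y * z)

-- deps:
def Z_GOODT : Prop := ∀ (F : Type) [Field F] [Fintype F] (d s : ℕ) (κ : Subfield (KI F))
  (E : Fin (s + 1) → Matrix (Fin d) (Fin d) (KI F)) (Q : Fin d → KI F) (g : Fin d → T F),
  th F ∈ κ → (∀ l i j, E l i j ∈ κ) → (∀ i, Q i ∈ κ) → (E (Fin.last s)).det ≠ 0 → TowEq E Q g →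
  Good κ (insert 1 (Set.range (tw s g))) ∧ (Q = 0 → Good κ (Set.range (tw s g)))

-- deps:
def Z_DIG : Prop := ∀ (F : Type) [Field F] (Q : ℕ) (H : F[X]), 0 < Q → ∃ h : R0 F,
  (∀ m n, (h.coeff m).coeff n = if n < Q then H.coeff (n + Q * m) else 0) ∧
  (expand F[X] Q h).eval X = H ∧ ∑ n ∈ Finset.range Q, X ^ n * expand F Q (tc n h) = H

-- deps:
def Z_MAX2 : Prop := ∀ (F : Type) [Field F] (Q : ℕ) (c : ℕ → KI F) (C : ℤ), 0 < Q →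
  (∀ N : ℕ, Q ≤ N → Bd (∑ n ∈ Finset.range N, c n ^ Q * th F ^ n) (C - N)) →
  ∀ n₀, c n₀ ≠ 0 → ∃ n, Q ≤ n ∧
    (Valued.v (c n₀ ^ Q * th F ^ n₀) : ℤᵐ⁰) ≤ Valued.v (c n ^ Q * th F ^ n)

-- deps: Z_MAX2
def Z_UP : Prop := ∀ (F : Type) [Field F] [Fintype F] (ev : T F →ₐ[KI F] KI F) (x : T F) (N : ℕ)
  (C : ℤ), IsEv ev →
  (∀ n, Fintype.card F ^ N ≤ n → Bd (cf n x) (C - 2 * (n - (Fintype.card F ^ N : ℕ)))) →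
  ev ((sT F)^[N] x) = 0 → ∀ n, Bd (cf n x) (C + 1)

-- deps:
def Z_CB : Prop := ∀ (F : Type) [Field F] (ψ : T F) (h : R0 F) (C : ℤ) (D Q g : ℕ),
  (∀ n : ℕ, Bd (cf n ψ) (C - 2 * n)) → h.natDegree ≤ D →
  (∀ m n, Q ≤ n + g → (h.coeff m).coeff n = 0) →
  ∀ n : ℕ, Bd (cf n (io F h * ψ)) (C + D - 2 * g - 2 * (n - Q))

-- deps:
def Z_LOWA : Prop := ∀ (F : Type) [Field F] [Fintype F] (l M : ℕ) (a : Fin (l + 1) → F[X])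
  (c : KI F), a ≠ 0 → (∀ j, (a j).natDegree ≤ M) → c ≠ 0 →
  ∑ j, aeval (th F) (a j) * c ^ Fintype.card F ^ j.val = 0 → ¬ Bd c (-M - 1)

-- deps: Z_LOWA
def Z_LOW : Prop := ∀ (F : Type) [Field F] [Fintype F] (l M : ℕ) (α : Fin (l + 1) → R0 F)
  (x : T F), α ≠ 0 → (∀ j, (α j).natDegree ≤ M) → x ≠ 0 →
  ∑ j, io F (α j) * (sT F)^[j.val] x = 0 → ∃ n, ¬ Bd (cf n x) (-M - 1)

-- deps:
def Z_SIE2 : Prop := ∀ (S : Type) [CommRing S] [Nontrivial S] (l M : ℕ)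
  (w : Fin (l + 1) → Fin l → S[X]), (∀ j i, (w j i).natDegree ≤ M) →
  ∃ α : Fin (l + 1) → S[X], α ≠ 0 ∧ (∀ j, (α j).natDegree ≤ l * M) ∧ ∀ i, ∑ j, α j * w j i = 0

-- deps: Z_SIE2
def Z_TWD : Prop := ∀ (F : Type) [Field F] [Fintype F] (l : ℕ) (ψ : Fin l → T F) (D : R0 F)
  (B : Matrix (Fin l) (Fin l) (R0 F)), D ≠ 0 →
  (∀ i, io F D * sT F (ψ i) = ∑ j, io F (B i j) * ψ j) → ∀ C : ℕ, ∃ M : ℕ,
    ∀ h : Fin l → R0 F, (∀ i, (h i).natDegree ≤ C) → ∃ α : Fin (l + 1) → R0 F, α ≠ 0 ∧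
      (∀ j, (α j).natDegree ≤ M) ∧ ∑ j, io F (α j) * (sT F)^[j.val] (∑ i, io F (h i) * ψ i) = 0

-- deps:
def Z_RN : Prop := ∀ (F : Type) [Field F] [Fintype F] (ev : T F →ₐ[KI F] KI F) (l : ℕ)
  (ψ : Fin l → T F) (D D' : R0 F) (B B' : Matrix (Fin l) (Fin l) (R0 F)) (r : Fin l → F[X]),
  IsEv ev → (∀ h : Fin l → R0 F, ∑ i, io F (h i) * ψ i = 0 → h = 0) →
  (∀ i, io F D * sT F (ψ i) = ∑ j, io F (B i j) * ψ j) →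
  (∀ i, io F D' * ψ i = ∑ j, io F (B' i j) * sT F (ψ j)) →
  (∀ N, (expand F[X] (Fintype.card F ^ N) (D * D')).eval X ≠ 0) →
  r ≠ 0 → ∑ i, aeval (th F) (r i) * ev (ψ i) = 0 → ∃ C : ℕ, ∀ N, ∃ R : Fin l → F[X], R ≠ 0 ∧
    (∀ i, (R i).natDegree ≤ C * Fintype.card F ^ N) ∧
    ∑ i, aeval (th F) (R i) * ev ((sT F)^[N] (ψ i)) = 0

-- deps: Z_DIG
def Z_SIE1 : Prop := ∀ (F : Type) [Field F] (l C Q g : ℕ) (R : Fin l → F[X]), R ≠ 0 →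
  (∀ i, (R i).natDegree ≤ C * Q) → l * g * (C + 1) < Q → ∃ (a : F[X]) (h : Fin l → R0 F),
    h ≠ 0 ∧ (∀ i, (h i).natDegree ≤ C) ∧ (∀ i m n, Q ≤ n + g → ((h i).coeff m).coeff n = 0) ∧
    ∀ i, (expand F[X] Q (h i)).eval X = a * R i

-- deps: Z_RN Z_SIE1 Z_CB Z_UP Z_TWD Z_LOW
def Z_ABP0 : Prop := ∀ (F : Type) [Field F] [Fintype F] (ev : T F →ₐ[KI F] KI F) (l : ℕ)
  (ψ : Fin l → T F) (D D' : R0 F) (B B' : Matrix (Fin l) (Fin l) (R0 F)) (r : Fin l → F[X]),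
  IsEv ev → (∀ h : Fin l → R0 F, ∑ i, io F (h i) * ψ i = 0 → h = 0) →
  (∀ i, io F D * sT F (ψ i) = ∑ j, io F (B i j) * ψ j) →
  (∀ i, io F D' * ψ i = ∑ j, io F (B' i j) * sT F (ψ j)) →
  (∀ N, (expand F[X] (Fintype.card F ^ N) (D * D')).eval X ≠ 0) →
  ∑ i, aeval (th F) (r i) * ev (ψ i) = 0 → r = 0

-- deps:
def Z_DEN : Prop := ∀ (F : Type) [Field F], ∀ r ∈ RR (K0 F).toSubfield,
  ∃ (D : F[X]) (p : R0 F), D ≠ 0 ∧ cT F (aeval (th F) D) * r = io F p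

-- deps:
def Z_RRA : Prop := ∀ (F : Type) [Field F] (κ : Subfield (KI F)),
  IsPrincipalIdealRing (RR κ) ∧ ∀ ev : T F →ₐ[KI F] KI F, IsEv ev → th F ∈ κ → ∀ r ∈ RR κ,
    ev r ∈ κ ∧ ∃ r' ∈ RR κ, r = cT F (ev r) + (tt F - cT F (th F)) * r'

-- deps: Z_DEN
def Z_MAT : Prop := ∀ (F : Type) [Field F] (l : ℕ),
  (∀ u v : Fin l → T F, (∀ i, u i ∈ Sp (K0 F).toSubfield (Set.range v)) →
    ∃ (D : F[X]) (B : Matrix (Fin l) (Fin l) (R0 F)), D ≠ 0 ∧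
      ∀ i, io F (D.map C) * u i = ∑ j, io F (B i j) * v j) ∧
  ∀ x : Fin l → KI F, (∀ i, x i ∈ K0 F) → ∃ (D : F[X]) (r : Fin l → F[X]), D ≠ 0 ∧
    ∀ i, aeval (th F) D * x i = aeval (th F) (r i)

-- deps: Z_RRA
def Z_BAS : Prop := ∀ (F : Type) [Field F] [Fintype F] (κ : Subfield (KI F)) (y : Set (T F)),
  Good κ y → ∃ (l e : ℕ) (ψ : Fin l → T F), Sp κ (Set.range ψ) = Sp κ y ∧
    (∀ r : Fin l → T F, (∀ i, r i ∈ RR κ) → ∑ i, r i * ψ i = 0 → r = 0) ∧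
    (∀ i, sT F (ψ i) ∈ Sp κ (Set.range ψ)) ∧
    ∀ i, (tt F - cT F (th F ^ Fintype.card F)) ^ e * ψ i ∈ Sp κ (Set.range fun j => sT F (ψ j))

-- deps: Z_ABP0 Z_RRA Z_MAT Z_BAS
def Z_ABPK : Prop := ∀ (F : Type) [Field F] [Fintype F] (ev : T F →ₐ[KI F] KI F) (y : Set (T F)),
  IsEv ev → Good (K0 F).toSubfield y → ∀ m ∈ Sp (K0 F).toSubfield y, ev m = 0 →
  ∃ m' ∈ Sp (K0 F).toSubfield y, m = (tt F - cT F (th F)) * m'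

/-- `b` spans `κ` over `κ₀`. -/
def Spans {F : Type} [Field F] {n : ℕ} (κ₀ κ : Subfield (KI F)) (b : Fin n → KI F) : Prop :=
  (∀ i, b i ∈ κ) ∧ ∀ x ∈ κ, ∃ r : Fin n → KI F, (∀ i, r i ∈ κ₀) ∧ x = ∑ i, r i * b i

-- deps: Z_DIG Z_MAX2 Z_MAT
def Z_SEP : Prop := ∀ (F : Type) [Field F] [Fintype F] (κ : IntermediateField (K0 F) (KI F))
  [FiniteDimensional (K0 F) κ], ∃ (n : ℕ) (b : Fin n → KI F),
    Spans (K0 F).toSubfield κ.toSubfield b ∧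
    Spans (K0 F).toSubfield κ.toSubfield fun i => b i ^ Fintype.card F

-- deps:
def Z_SPK : Prop := ∀ (F : Type) [Field F] (κ₀ κ : Subfield (KI F)) (n : ℕ) (b : Fin n → KI F)
  (y : Set (T F)), κ₀ ≤ κ → Spans κ₀ κ b →
  ∀ x, x ∈ Sp κ y ↔ x ∈ Sp κ₀ (Set.range (fun i => cT F (b i)) * y)

-- deps: Z_ABPK Z_SEP Z_SPK
def Z_ABP1 : Prop := ∀ (F : Type) [Field F] [Fintype F] (κ : IntermediateField (K0 F) (KI F))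
  [FiniteDimensional (K0 F) κ] (ev : T F →ₐ[KI F] KI F) (y : Set (T F)),
  IsEv ev → Good κ.toSubfield y → ∀ m ∈ Sp κ.toSubfield y, ev m = 0 →
  ∃ m' ∈ Sp κ.toSubfield y, m = (tt F - cT F (th F)) * m'

end Pool.Agent.P.MP_e5b57f_nt.TM
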