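import Pool.Agent.P.MP_e5b57f_nt.TM.IfaceB
import Pool.Agent.P.MP_e5b57f_nt.TM.IfaceA

/-! Step MAIN. -/

open Polynomial WithZero
open scoped Matrix Pointwise IntermediateField Topology

namespace Pool.Agent.P.MP_e5b57f_nt.TM

theorem z_MAIN (hPHB : Z_PHB) (hEXP1 : Z_EXP1) (hEXP2 : Z_EXP2) (hTOPO : Z_TOPO) (hRED : Z_RED)
    (hTFIN : Z_TFIN) (hDESC : Z_DESC) (hNREL : Z_NREL) (hFIN : Z_FIN) (hBR : Z_BR) :
    Z_MAIN := by
  intro F K _ _ _ _ ι θ d s E P hθ hK hE hS hP hB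
  set E' : Fin (s + 1) → Matrix (Fin d) (Fin d) (KI F) := fun l => (E l).map ι with hE'
  obtain ⟨c, hc, h1⟩ := hPHB F d s E'
  obtain ⟨e, h2, h3⟩ := hEXP1 F d _ c hc h1
  have hexp : IsExp (phiL F (th F) E') e (-c) := ⟨h2, h3, hEXP2 F d e (-c) h3⟩
  have hb := fun x => hBR F K (KI F) ι d s θ E x
  simp only [hθ] at hb
  obtain ⟨C, hC⟩ := hB
  obtain ⟨R, hR⟩ := exists_le_exp C
  have hinj : Function.Injective (aeval θ : F[X] → K) := fun p p' h => aeval_th_injective (by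
    rw [← hθ, aeval_algHom_apply, aeval_algHom_apply, h])
  have : Infinite K := Infinite.of_injective _ hinj
  rcases hRED F d _ e (-c) R (fun j => ι (P j)) hexp (fun n i => by
    rw [Module.End.pow_apply, coe_phiL, ← (hb P).1]
    exact (hC n i).trans hR) with h | ⟨a, ha, h⟩
  · refine hTOPO F d _ (-c) fun y hy N => ?_
    obtain ⟨a, ha⟩ := h y hy N
    exact ⟨_, ⟨a, funext fun i => (hb P).2 a i⟩, ha⟩
  exfalso
  set Q := phiA (phi (Fintype.card F) θ E) a P with hQ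
  have hQ' : aeval (phiL F (th F) E') a (fun j => ι (P j)) = fun j => ι (Q j) :=
    funext fun i => ((hb P).2 a i).symm
  rw [hQ'] at h
  obtain ⟨κ, hκ, h4⟩ := hFIN F K ι θ
    (Set.range Q ∪ Set.range fun p : Fin (s + 1) × Fin d × Fin d => E p.1 p.2.1 p.2.2) hθ hK
    ((Set.finite_range _).union (Set.finite_range _))
  obtain ⟨p, hp, h5⟩ := hTFIN F κ d s E' e (-c) _ (fun l i j => h4 _ (Or.inr ⟨(l, i, j), rfl⟩))
    (fun i => h4 _ (Or.inl ⟨i, rfl⟩))
    (fun h0 => (map_ne_zero ι).2 hE ((AlgHom.map_det ι (E (Fin.last s))).trans h0)) hexp h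
  refine hNREL F K d s θ E Q hE hS (fun b hb' => ?_) (hDESC K (KI F) ι.toRingHom
    (Fin (s + 1) × Fin d) (fun (b : Fin (s + 1) × Fin d) n =>
      (phi (Fintype.card F) θ E)^[n] Q b.2 ^ Fintype.card F ^ (b.1.val + 1)) p hp
    fun n => ?_)
  · have := hP (b * a) (mul_ne_zero hb' ha)
    rw [hQ]
    rwa [← coe_phiL, phiA_eq, map_mul, Module.End.mul_apply, ← phiA_eq, ← phiA_eq] at this
  · simpa only [AlgHom.toRingHom_eq_coe, RingHom.coe_coe, map_pow, (hb Q).1] using h5 n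

end Pool.Agent.P.MP_e5b57f_nt.TM
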