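import Pool.Agent.P.MP_e5b57f_nt.TM.IfaceA

/-! Step MAT. -/

open Polynomial WithZero
open scoped Matrix Pointwise IntermediateField Topology

namespace Pool.Agent.P.MP_e5b57f_nt.TM

namespace ZMAT

theorem common (hDEN : Z_DEN) (F : Type) [Field F] {J : Type} [Fintype J] (r : J → T F)
    (hr : ∀ j, r j ∈ RR (K0 F).toSubfield) :
    ∃ (D : F[X]) (B : J → R0 F), D ≠ 0 ∧ ∀ j, io F (D.map C) * r j = io F (B j) := by
  classical
  choose D p hD hp using fun j => hDEN F (r j) (hr j)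
  refine ⟨∏ j, D j, fun j => p j * (∏ k ∈ Finset.univ.erase j, D k).map C,
    Finset.prod_ne_zero_iff.2 fun j _ => hD j, fun j => ?_⟩
  rw [← Finset.mul_prod_erase _ D (Finset.mem_univ j), Polynomial.map_mul, map_mul, map_mul,
    ← hp j, io_map_C (D j)]
  ring

end ZMAT

theorem z_MAT (hDEN : Z_DEN) :
    Z_MAT := by
  intro F _ l
  refine ⟨fun u v hu => ?_, fun x hx => ?_⟩
  · choose r hr using fun i => (Submodule.mem_span_range_iff_exists_fun _).1 (hu i)
    obtain ⟨D, B, hD, hB⟩ := ZMAT.common hDEN F (J := Fin l × Fin l)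
      (fun p => (r p.1 p.2 : T F)) fun p => (r p.1 p.2).2
    refine ⟨D, fun i j => B (i, j), hD, fun i => ?_⟩
    rw [← hr i, Finset.mul_sum]
    refine Finset.sum_congr rfl fun j _ => ?_
    rw [← hB (i, j), Subring.smul_def, smul_eq_mul, mul_assoc]
  · obtain ⟨D, B, hD, hB⟩ := ZMAT.common hDEN F (fun i => cT F (x i))
      fun i => cT_mem_RR (hx i)
    refine ⟨D, fun i => tc 0 (B i), hD, fun i => ?_⟩
    rw [← cf_io, ← hB i, io_map_C, cf_cT_mul, cf_cT, if_pos rfl]

end Pool.Agent.P.MP_e5b57f_nt.TM
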