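import Pool.Agent.P.MP_e5b57f_nt.TM.IfaceA

/-! Step MAX2. -/

open Polynomial WithZero
open scoped Matrix Pointwise IntermediateField Topology

namespace Pool.Agent.P.MP_e5b57f_nt.TM

theorem z_MAX2 :
    Z_MAX2 := by
  intro F _ Q c C hQ h n₀ h0
  by_contra hc
  push Not at hc
  have hv : ∀ n, c n ≠ 0 → ∃ x : ℤ, (Valued.v (c n ^ Q * th F ^ n) : ℤᵐ⁰) = exp (Q * x + n) :=
    fun n hn => (exists_v_eq hn).imp fun x hx => by
      rw [map_mul, map_pow, hx, v_th_pow, ← exp_nsmul, exp_add, nsmul_eq_mul]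
  have h1 : n₀ < Q := not_le.1 fun h1 => (hc n₀ h1).false
  obtain ⟨m, hm, h2⟩ := (Finset.range Q).exists_max_image
    (fun n => (Valued.v (c n ^ Q * th F ^ n) : ℤᵐ⁰)) ⟨n₀, Finset.mem_range.2 h1⟩
  simp only [Finset.mem_range] at hm h2
  have h3 : (0 : ℤᵐ⁰) < Valued.v (c m ^ Q * th F ^ m) := by
    obtain ⟨x, hx⟩ := hv n₀ h0
    exact (exp_pos.trans_eq hx.symm).trans_le (h2 n₀ h1)
  have h4 : ∀ n, n ≠ m →
      (Valued.v (c n ^ Q * th F ^ n) : ℤᵐ⁰) < Valued.v (c m ^ Q * th F ^ m) := fun n hn => by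
    rcases le_or_gt Q n with e | e
    · exact (hc n e).trans_le (h2 n₀ h1)
    refine (h2 n e).lt_of_ne fun h5 => hn ?_
    obtain ⟨x, hx⟩ := hv n fun h6 => by simp [← h5, h6, hQ.ne'] at h3
    obtain ⟨y, hy⟩ := hv m fun h6 => by simp [h6, hQ.ne'] at h3
    rw [hx, hy, exp_inj] at h5
    have h6 := congrArg (· % (Q : ℤ)) h5
    simp only [Int.mul_add_emod_self_left] at h6
    rw [Int.emod_eq_of_lt (by omega) (by omega), Int.emod_eq_of_lt (by omega) (by omega)] at h6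
    omega
  have h5 := eq_zero_of_bd (x := c m ^ Q * th F ^ m) (C := C) (N₀ := Q) fun N hN => by
    have h6 := h N hN
    rwa [Bd, ← Finset.add_sum_erase _ _ (Finset.mem_range.2 (hm.trans_le hN)),
      Valuation.map_add_eq_of_lt_left _ (Valuation.map_sum_lt _ h3.ne' fun n hn =>
        h4 n (Finset.ne_of_mem_erase hn))] at h6
  simp [h5] at h3

end Pool.Agent.P.MP_e5b57f_nt.TM
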