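import Pool.Agent.P.MP_e5b57f_nt.TM.IfaceB

/-! Step NREL. -/

open Polynomial WithZero
open scoped Matrix Pointwise IntermediateField Topology

namespace Pool.Agent.P.MP_e5b57f_nt.TM

theorem z_NREL (hPOLC : Z_POLC) (hTOP : Z_TOP) (hSIMP : Z_SIMP) :
    Z_NREL := by
  rintro F K _ _ _ _ _ d s θ E Q hE hS hQ ⟨p, hp, hr⟩
  have h1 : ∀ (l : ℕ), ∀ m ∈ Pol K (Fintype.card F) d,
      m ∘ (phi (Fintype.card F) θ E)^[l] ∈ Pol K (Fintype.card F) d := fun l => by
    induction l with
    | zero => exact fun m hm => hm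
    | succ l ih => exact fun m hm => (hPOLC F K d s θ E _ (ih m hm)).2
  have h2 : (fun x => ∑ b, (p b).sum fun l u =>
      u * (phi (Fintype.card F) θ E)^[l] x b.2 ^ Fintype.card F ^ (b.1.val + 1)) ∈
      Pol K (Fintype.card F) d := by
    have e : (fun x => ∑ b, (p b).sum fun l u =>
        u * (phi (Fintype.card F) θ E)^[l] x b.2 ^ Fintype.card F ^ (b.1.val + 1)) =
        ∑ b, ∑ l ∈ (p b).support, (p b).coeff l •
          ((fun x : Fin d → K => x b.2 ^ Fintype.card F ^ (b.1.val + 1)) ∘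
            (phi (Fintype.card F) θ E)^[l]) := by
      funext x
      simp only [Polynomial.sum, Finset.sum_apply, Pi.smul_apply, smul_eq_mul, Function.comp]
    rw [e]
    exact Submodule.sum_mem _ fun b _ => Submodule.sum_mem _ fun l _ => Submodule.smul_mem _ _
      (h1 l _ (Submodule.subset_span ⟨b.2, b.1.val + 1, rfl⟩))
  have h3 := hSIMP F K d s θ E Q hS hQ _ h2 fun n => by
    simpa only [← Function.iterate_add_apply, add_comm n] using hr n
  exact hp (hTOP F K d s θ E p hE fun x => congrFun h3 x)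

end Pool.Agent.P.MP_e5b57f_nt.TM
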