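import Pool.Agent.P.MP_e5b57f_nt.TM.IfaceA

/-! Step PIG. -/

open Polynomial WithZero
open scoped Matrix Pointwise IntermediateField Topology

namespace Pool.Agent.P.MP_e5b57f_nt.TM

theorem z_PIG :
    Z_PIG := by
  intro F _ _ d y R ρ hy
  let V : F[X] →ₗ[F] (Fin d → KI F) :=
    Polynomial.lsum (R := F) fun n => LinearMap.toSpanSingleton F _ (y n)
  have hV : ∀ a : F[X], V a = a.sum fun n c => c • y n := fun a => rfl
  have hb : ∀ a, BdV (V a) R := fun a => by
    rw [hV, Polynomial.sum_def]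
    exact BdV.sum fun n _ => (hy n).smul _
  obtain ⟨a, a', hne, he⟩ := Finite.exists_ne_map_eq_of_infinite
    fun (a : F[X]) (p : Fin d × Fin (R - ρ).toNat) => dg (ρ + 1 + (p.2 : ℕ)) (V a p.1)
  refine ⟨a - a', sub_ne_zero.2 hne, ?_⟩
  rw [← hV]
  refine fun i => bd_iff_dg.2 fun m hm => ?_
  by_cases h : R < m
  · exact bd_iff_dg.1 (hb _ i) m h
  · have := congrFun he (i, ⟨(m - ρ - 1).toNat, by omega⟩)
    simp only at this
    rw [show ρ + 1 + ((m - ρ - 1).toNat : ℕ) = m by omega] at this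
    rw [map_sub, Pi.sub_apply, map_sub, this, sub_self]

end Pool.Agent.P.MP_e5b57f_nt.TM
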