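import Pool.Agent.P.MP_e5b57f_nt.TM.IfaceB

/-! Step POLC. -/

open Polynomial WithZero
open scoped Matrix Pointwise IntermediateField Topology

namespace Pool.Agent.P.MP_e5b57f_nt.TM

namespace ZPOLC

theorem gen_mem {K : Type} [Field K] (q d : ℕ) (i : Fin d) (j : ℕ) :
    (fun x : Fin d → K => x i ^ q ^ j) ∈ Pol K q d := Submodule.subset_span ⟨i, j, rfl⟩

theorem pow_q {F K : Type} [Field F] [Fintype F] [Field K] [Algebra F K] (x : K) :
    x ^ Fintype.card F = frn F K 1 x := by rw [frn_apply, pow_one]

end ZPOLC

open ZPOLC in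
theorem z_POLC :
    Z_POLC := by
  intro F K _ _ _ _ d s θ E m hm
  induction hm using Submodule.span_induction with
  | mem m hm =>
    obtain ⟨i, j, rfl⟩ := hm
    constructor
    · have : (fun x : Fin d → K => x i ^ Fintype.card F ^ j) ^ Fintype.card F =
          fun x => x i ^ Fintype.card F ^ (j + 1) := by
        funext x; rw [Pi.pow_apply, ← pow_mul, ← pow_succ]
      rw [this]; exact gen_mem _ _ _ _
    · have : (fun x : Fin d → K => x i ^ Fintype.card F ^ j) ∘ phi (Fintype.card F) θ E =
          (θ ^ Fintype.card F ^ j) • (fun x : Fin d → K => x i ^ Fintype.card F ^ j) +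
            ∑ l : Fin (s + 1), ∑ k, (E l i k ^ Fintype.card F ^ j) •
              fun x : Fin d → K => x k ^ Fintype.card F ^ (l.val + 1 + j) := by
        funext x
        simp only [Function.comp_apply, Pi.add_apply, Pi.smul_apply, Finset.sum_apply, smul_eq_mul,
          phi, Matrix.mulVec, dotProduct]
        rw [← frn_apply (F := F) j, map_add, map_mul, map_sum, frn_apply, frn_apply]
        congr 1
        refine Finset.sum_congr rfl fun l _ => ?_
        rw [map_sum]
        refine Finset.sum_congr rfl fun k _ => ?_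
        rw [map_mul, frn_apply, frn_apply, ← pow_mul, ← pow_add]
      rw [this]
      exact add_mem (Submodule.smul_mem _ _ (gen_mem _ _ _ _))
        (Submodule.sum_mem _ fun l _ => Submodule.sum_mem _ fun k _ =>
          Submodule.smul_mem _ _ (gen_mem _ _ _ _))
  | zero =>
    refine ⟨?_, zero_mem _⟩
    rw [zero_pow Fintype.card_ne_zero]; exact zero_mem _
  | add m m' _ _ h h' =>
    refine ⟨?_, add_mem h.2 h'.2⟩
    have : (m + m') ^ Fintype.card F = m ^ Fintype.card F + m' ^ Fintype.card F := by
      funext x; simp only [Pi.pow_apply, Pi.add_apply, pow_q (F := F), map_add]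
    rw [this]; exact add_mem h.1 h'.1
  | smul c m _ h =>
    refine ⟨?_, Submodule.smul_mem _ c h.2⟩
    have : (c • m) ^ Fintype.card F = c ^ Fintype.card F • m ^ Fintype.card F := by
      funext x; simp only [Pi.pow_apply, Pi.smul_apply, smul_eq_mul, mul_pow]
    rw [this]; exact Submodule.smul_mem _ _ h.1

end Pool.Agent.P.MP_e5b57f_nt.TM
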