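import Pool.Agent.P.MP_e5b57f_nt.TM.IfaceA

/-! Step PP. -/

open Polynomial WithZero
open scoped Matrix Pointwise IntermediateField Topology

namespace Pool.Agent.P.MP_e5b57f_nt.TM

theorem z_PP :
    Z_PP := by
  intro F _ x
  obtain ⟨n, hn⟩ := exists_bd x
  refine ⟨∑ k ∈ Finset.range (n.toNat + 1), monomial k (dg k x), bd_iff_dg.2 fun m hm => ?_⟩
  obtain ⟨k, rfl⟩ := Int.eq_ofNat_of_zero_le (show 0 ≤ m by omega)
  rw [map_sub, dg_aeval, finsetSum_coeff, sub_eq_zero, Finset.sum_eq_single k]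
  · rw [coeff_monomial, if_pos rfl]
  · intro b _ hb
    rw [coeff_monomial, if_neg hb]
  · intro h
    rw [Finset.mem_range] at h
    rw [bd_iff_dg.1 hn k (by omega), coeff_monomial, if_pos rfl]

end Pool.Agent.P.MP_e5b57f_nt.TM
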