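import Pool.Agent.P.MP_e5b57f_nt.TM.IfaceB

/-! Step PURH. -/

open Polynomial WithZero
open scoped Matrix Pointwise IntermediateField Topology

namespace Pool.Agent.P.MP_e5b57f_nt.TM

theorem z_PURH (hPURM : Z_PURM) :
    Z_PURH := by
  intro k A _ _ i w rk r d s π E E' g hT hπ hE hE' hI hA
  have H : ∀ n, n ≤ 2 * s + 1 → ∀ a, Lv i w (Set.range (twA s r g)) 1 (r^[n] (g a)) := by
    intro n
    induction n using Nat.strong_induction_on with
    | _ n ih =>
      intro hn a'
      by_cases h : n ≤ s
      · exact Lv.mono (Lv.of_mem ⟨(⟨n, by omega⟩, a'), rfl⟩) zero_le_one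
      obtain ⟨m, rfl⟩ : ∃ m, n = m + (s + 1) := ⟨n - (s + 1), by omega⟩
      have hP := hT.pow m
      have hr : ∀ (l : ℕ) (x : A), (r ^ m) (r^[l] x) = r^[m + l] x := fun l x => by
        rw [RingAut.coe_pow, Function.iterate_add_apply]
      have h1 : ∀ a, Lv i w (Set.range (twA s r g)) 1
          (∑ b, i ((rk ^ m) (E (Fin.last s) a b)) * r^[m + (s + 1)] (g b)) := by
        intro a
        have h2 := congrArg (r ^ m) (hA a)
        simp only [Pi.zero_apply, map_zero, add_zero, map_add, map_sum, map_mul, hP.comm, hr,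
          Fin.sum_univ_castSucc, Fin.val_last, Fin.val_castSucc] at h2
        have h4 := sub_eq_iff_eq_add'.2 h2
        rw [← h4]
        refine Lv.sub (Lv.gen ⟨(⟨m, by omega⟩, a), ?_⟩ (by rw [hP.val, hπ]))
          (Lv.sum fun l _ => Lv.sum fun b _ => ?_)
        · rw [RingAut.coe_pow]; rfl
        · have h3 := (ih (m + (l.val + 1)) (by omega) (by omega) b).smul (m := 0)
            (c := (rk ^ m) (E l.castSucc a b)) (by rw [hP.val]; exact hE _ _ _)
          rwa [zero_add] at h3
      have h2 : r^[m + (s + 1)] (g a') = ∑ a, i ((rk ^ m) (E' a' a)) *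
          ∑ b, i ((rk ^ m) (E (Fin.last s) a b)) * r^[m + (s + 1)] (g b) := by
        simp only [Finset.mul_sum, ← mul_assoc, ← map_mul]
        rw [Finset.sum_comm]
        simp only [← Finset.sum_mul, ← map_sum, ← Matrix.mul_apply, hI]
        rw [Finset.sum_eq_single a']
        · simp
        · intro b _ hb
          simp [Matrix.one_apply_ne hb.symm]
        · simp
      rw [h2]
      refine Lv.sum fun a _ => ?_
      have h3 := (h1 a).smul (m := 0) (c := (rk ^ m) (E' a' a)) (by rw [hP.val]; exact hE' _ _)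
      rwa [zero_add] at h3
  rintro _ ⟨p, rfl⟩
  constructor
  · have h1 := H (s + 1 + p.1.val) (by omega) p.2
    rwa [Function.iterate_add_apply, ← RingAut.coe_pow] at h1
  · obtain ⟨b, hb, h1⟩ := hPURM k A i w rk r d s π E 0 g ⊥ hT hπ hE
      (fun x hx => by rw [Ideal.mem_bot.1 hx, map_zero]; exact zero_mem _)
      (fun _ => zero_mem _) hA p
    rwa [Ideal.mem_bot.1 hb, map_zero, sub_zero] at h1

end Pool.Agent.P.MP_e5b57f_nt.TM
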