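import Pool.Agent.P.MP_e5b57f_nt.TM.IfaceB

/-! Step PURM. -/

open Polynomial WithZero
open scoped Matrix Pointwise IntermediateField Topology

namespace Pool.Agent.P.MP_e5b57f_nt.TM

namespace ZPURM

variable {A : Type} [CommRing A] (r : A ≃+* A)

theorem coe_pw (n : ℕ) (x : A) : (r ^ n) x = r^[n] x := by
  induction n generalizing x with
  | zero => rfl
  | succ n ih => rw [pow_succ, RingAut.mul_apply, ih, Function.iterate_succ_apply]

theorem canc (n : ℕ) (x : A) : r.symm^[n] (r^[n] x) = x :=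
  Function.LeftInverse.iterate r.symm_apply_apply n x

theorem canc' (n : ℕ) (x : A) : r^[n] (r.symm^[n] x) = x :=
  Function.LeftInverse.iterate r.apply_symm_apply n x

theorem le_case {m n : ℕ} (h : m ≤ n) (x : A) : r.symm^[m] (r^[n] x) = r^[n - m] x := by
  obtain ⟨c, rfl⟩ := Nat.exists_eq_add_of_le h
  rw [Function.iterate_add_apply, canc, Nat.add_sub_cancel_left]

theorem ge_case {m n : ℕ} (h : n ≤ m) (x : A) : r.symm^[m] (r^[n] x) = r.symm^[m - n] x := by
  obtain ⟨c, rfl⟩ := Nat.exists_eq_add_of_le' h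
  rw [Function.iterate_add_apply, canc, Nat.add_sub_cancel]

end ZPURM

open ZPURM in
theorem z_PURM :
    Z_PURM := by
  intro k A _ _ i w rk r d s π E Q g I hT hπ hE hI hQ hg
  have hIm : ∀ m : ℕ, ∀ x ∈ I, (rk.symm ^ m) x ∈ I := fun m => by
    induction m with
    | zero => exact fun x hx => hx
    | succ m ih => exact fun x hx => by rw [pow_succ, RingAut.mul_apply]; exact ih _ (hI x hx)
  have key : ∀ m : ℕ, 1 ≤ m → ∀ a, ∃ b ∈ I,
      Lv i w (Set.range (twA s r g)) (-1) (r.symm^[m] (g a) - i b) := by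
    intro m
    induction m using Nat.strong_induction_on with
    | _ m ih =>
      intro hm a
      have H : ∀ (l : Fin (s + 1)) (b : Fin d), ∃ c ∈ I,
          Lv i w (Set.range (twA s r g)) 0 (r.symm^[m] (r^[l.val + 1] (g b)) - i c) := by
        intro l b
        by_cases h : m ≤ l.val + 1
        · refine ⟨0, I.zero_mem, ?_⟩
          rw [le_case r h, map_zero, sub_zero]
          exact Lv.of_mem ⟨(⟨l.val + 1 - m, by omega⟩, b), rfl⟩
        · rw [ge_case r (by omega)]
          obtain ⟨c, hc, h'⟩ := ih (m - (l.val + 1)) (by omega) (by omega) b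
          exact ⟨c, hc, h'.mono (by norm_num)⟩
      choose c hc hL using H
      have T := hT.symm.pow m
      have e := congrArg (r.symm ^ m) (hg a)
      simp only [map_add, map_mul, map_sum, T.comm] at e
      simp only [coe_pw r.symm] at e
      have hv : w ((rk.symm ^ m) π) = exp 1 := by rw [T.val, hπ]
      have h0 : (rk.symm ^ m) π ≠ 0 := fun h => by
        rw [h, map_zero] at hv; exact exp_ne_zero hv.symm
      have hu : w ((rk.symm ^ m) π)⁻¹ ≤ exp (-1) := by rw [map_inv₀, hv, exp_neg]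
      refine ⟨((rk.symm ^ m) π)⁻¹ *
        (∑ l, ∑ b, (rk.symm ^ m) (E l a b) * c l b - (rk.symm ^ m) (Q a)),
        I.mul_mem_left _ (I.sub_mem (I.sum_mem fun l _ => I.sum_mem fun b _ =>
          I.mul_mem_left _ (hc l b)) (hIm m _ (hQ a))), ?_⟩
      have L : Lv i w (Set.range (twA s r g)) (-1 + (0 + 0)) (i ((rk.symm ^ m) π)⁻¹ *
          ∑ l, ∑ b, i ((rk.symm ^ m) (E l a b)) *
            (r.symm^[m] (r^[l.val + 1] (g b)) - i (c l b))) :=
        Lv.smul hu (Lv.sum fun l _ => Lv.sum fun b _ =>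
          Lv.smul (by rw [T.val, exp_zero]; exact hE l a b) (hL l b))
      have u1 : i ((rk.symm ^ m) π)⁻¹ * i ((rk.symm ^ m) π) = 1 := by
        rw [← map_mul, inv_mul_cancel₀ h0, map_one]
      convert L.mono (n := -1) (by norm_num) using 1
      simp only [mul_sub, Finset.sum_sub_distrib, map_mul, map_sub, map_sum, ← e]
      linear_combination (-(r.symm^[m] (g a))) * u1
  rintro ⟨l, a⟩
  obtain ⟨b, hb, h⟩ := key (s + 1 - l.val) (by omega) a
  refine ⟨b, hb, ?_⟩
  have : (r ^ (s + 1)).symm (twA s r g (l, a)) = r.symm^[s + 1 - l.val] (g a) := by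
    rw [RingEquiv.symm_apply_eq, coe_pw, ← ge_case r (by omega : l.val ≤ s + 1), canc']
    rfl
  rwa [this]

end Pool.Agent.P.MP_e5b57f_nt.TM
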