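import Pool.Agent.P.MP_e5b57f_nt.TM.IfaceA

/-! Step RED1. -/

open Polynomial WithZero
open scoped Matrix Pointwise IntermediateField Topology

namespace Pool.Agent.P.MP_e5b57f_nt.TM

theorem z_RED1 (hPIG : Z_PIG) :
    Z_RED1 := by
  classical
  intro F _ _ d φ e ρ R u H hb
  by_contra hu
  obtain ⟨f, hf, hk⟩ := Submodule.exists_dual_map_eq_bot_of_notMem hu inferInstance
  have hk' : ∀ l, e l = 0 → f l = 0 := fun l hl => by
    have : f l ∈ Submodule.map f (Submodule.span (KI F) {l : Fin d → KI F | e l = 0}) :=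
      Submodule.mem_map_of_mem (Submodule.subset_span hl)
    rwa [hk, Submodule.mem_bot] at this
  obtain ⟨C, hC⟩ := exists_bd_fin fun i : Fin d => f fun j => if i = j then 1 else 0
  have hfb : ∀ b, BdV b ρ → Bd (f b) (ρ + C) := fun b h => by
    rw [LinearMap.pi_apply_eq_sum_univ]
    exact Bd.sum fun i _ => (h i).mul (hC i)
  refine hf (eq_zero_of_bd (C := ρ + C) (N₀ := 0) fun m _ => ?_)
  obtain ⟨a, ha, h1⟩ := hPIG F d (fun n => (φ ^ (n + m)) (e u)) R ρ fun n => hb _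
  have e1 : (a.sum fun n c => c • (φ ^ (n + m)) (e u)) = aeval φ (a * X ^ m) (e u) := by
    rw [map_mul, map_pow, aeval_X, Module.End.mul_apply, aeval_end_apply]
    simp only [pow_add, Module.End.mul_apply]
  rw [e1] at h1
  obtain ⟨b, h2, h3⟩ := H.onto _ h1
  have h4 := hk' (aeval (th F) (a * X ^ m) • u - b) (by rw [map_sub, H.aeval_smul, h3, sub_self])
  rw [map_sub, map_smul, sub_eq_zero, smul_eq_mul] at h4
  have h5 := hfb b h2
  rw [← h4] at h5
  have h6 : a * X ^ m ≠ 0 := mul_ne_zero ha (pow_ne_zero _ X_ne_zero)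
  obtain ⟨n, hn⟩ := exists_v_eq hf
  have h7 : (Valued.v (aeval (th F) (a * X ^ m) * f u) : ℤᵐ⁰) =
      exp (((a * X ^ m).natDegree : ℤ) + n) := by
    rw [map_mul, v_aeval h6, hn, exp_add]
  rw [bd_iff_of_v_eq h7, natDegree_mul_X_pow m ha] at h5
  rw [bd_iff_of_v_eq hn]
  push_cast at h5
  omega

end Pool.Agent.P.MP_e5b57f_nt.TM
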