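import Pool.Agent.P.MP_e5b57f_nt.TM.IfaceA

/-! Step RED2. -/

open Polynomial WithZero
open scoped Matrix Pointwise IntermediateField Topology

namespace Pool.Agent.P.MP_e5b57f_nt.TM

theorem z_RED2 (hKRO : Z_KRO) :
    Z_RED2 := by
  classical
  intro F _ d φ e ρ lam u hE hl
  have h0 : ∀ (p : F[X]) i, e (aeval (th F) p • lam i) = 0 := fun p i => by
    rw [hE.aeval_smul, hl, map_zero]
  rcases hKRO F d (fun i => lam.repr u i) with ⟨a, ha, a₀, h⟩ | h
  · right
    obtain ⟨j, hj⟩ := Function.ne_iff.1 ha
    refine ⟨a j, hj, aeval (th F) (a j) • u - aeval (th F) a₀ • lam j,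
      Finset.univ.image fun i => aeval (th F) (a j) • lam i - aeval (th F) (a i) • lam j,
      ?_, ?_, ?_, ?_⟩
    · intro l hl'
      obtain ⟨i, -, rfl⟩ := Finset.mem_image.1 hl'
      rw [map_sub, h0, h0, sub_zero]
    · intro htop
      have hle : Submodule.span (KI F) ((Finset.univ.image fun i =>
          aeval (th F) (a j) • lam i - aeval (th F) (a i) • lam j : Finset (Fin d → KI F)) :
          Set (Fin d → KI F)) ≤
          LinearMap.ker (lam.constr (KI F) fun i => aeval (th F) (a i)) := by
        refine Submodule.span_le.2 fun l hl' => ?_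
        obtain ⟨i, -, rfl⟩ := Finset.mem_image.1 (Finset.mem_coe.1 hl')
        rw [SetLike.mem_coe, LinearMap.mem_ker, map_sub, map_smul, map_smul,
          Module.Basis.constr_basis, Module.Basis.constr_basis, smul_eq_mul, smul_eq_mul,
          mul_comm, sub_self]
      have := hle (htop ▸ Submodule.mem_top (x := lam j))
      rw [LinearMap.mem_ker, Module.Basis.constr_basis] at this
      exact hj (aeval_th_injective (this.trans (map_zero _).symm))
    · have e1 : aeval (th F) (a j) • u - aeval (th F) a₀ • lam j =
          ∑ i, lam.repr u i • (aeval (th F) (a j) • lam i - aeval (th F) (a i) • lam j) := by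
        rw [← h]
        conv_lhs => rw [← lam.sum_repr u]
        simp only [lam.sum_repr, smul_sub, Finset.sum_sub_distrib, Finset.sum_smul, smul_smul]
        congr 1
        · conv_lhs => rw [← lam.sum_repr u]
          rw [Finset.smul_sum]
          exact Finset.sum_congr rfl fun i _ => by rw [smul_smul, mul_comm]
        · exact Finset.sum_congr rfl fun i _ => by rw [mul_comm]
      rw [e1]
      exact Submodule.sum_mem _ fun i _ => Submodule.smul_mem _ _
        (Submodule.subset_span (Finset.mem_coe.2 (Finset.mem_image_of_mem _ (Finset.mem_univ i))))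
    · rw [map_sub, h0, sub_zero, hE.aeval_smul]
  · left
    intro y hy N
    obtain ⟨z, -, rfl⟩ := hE.onto y hy
    obtain ⟨C, hC⟩ := exists_bd_fin fun p : Fin d × Fin d => lam p.1 p.2
    obtain ⟨a, b, hab⟩ := h (fun i => lam.repr z i) (N + ρ.natAbs + C.natAbs)
    refine ⟨a, ?_⟩
    have hv : BdV (∑ i, (aeval (th F) a * lam.repr u i - aeval (th F) (b i) - lam.repr z i) • lam i)
        (min ρ (-N)) :=
      BdV.sum fun i _ => (BdV.smul' (hab i) fun j => hC (i, j)).mono (by omega)
    have e1 : ∑ i, (aeval (th F) a * lam.repr u i - aeval (th F) (b i) - lam.repr z i) • lam i =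
        aeval (th F) a • u - ∑ i, aeval (th F) (b i) • lam i - z := by
      simp only [sub_smul, Finset.sum_sub_distrib, mul_smul, ← Finset.smul_sum, lam.sum_repr]
    have := hE.bd (min_le_left _ _) hv
    rw [e1, map_sub, map_sub, map_sum, Finset.sum_eq_zero fun i _ => h0 _ i, sub_zero,
      hE.aeval_smul] at this
    exact this.mono (min_le_right _ _)

end Pool.Agent.P.MP_e5b57f_nt.TM
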