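import Pool.Agent.P.MP_e5b57f_nt.TM.IfaceB
import Pool.Agent.P.MP_e5b57f_nt.TM.IfaceA

/-! Step REL. -/

open Polynomial WithZero
open scoped Matrix Pointwise IntermediateField Topology

namespace Pool.Agent.P.MP_e5b57f_nt.TM

namespace ZREL

variable {F : Type} [Field F]

theorem decomp {J : Type} [Fintype J] (κ : Subfield (KI F)) (y : Set (T F)) (f : J → T F)
    {m : T F} (hm : m ∈ Sp κ (y * insert 1 (Set.range f))) :
    ∃ (D : J → T F) (D₀ : T F), (∀ p, D p ∈ Sp κ y) ∧ D₀ ∈ Sp κ y ∧ m = ∑ p, D p * f p + D₀ := by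
  classical
  induction hm using Submodule.span_induction with
  | mem x hx =>
    obtain ⟨a, ha, b, hb, rfl⟩ := hx
    rcases hb with rfl | ⟨p, rfl⟩
    · exact ⟨0, a, fun _ => zero_mem _, Submodule.subset_span ha, by simp⟩
    · refine ⟨Pi.single p a, 0, fun p' => ?_, zero_mem _, ?_⟩
      · by_cases e : p' = p
        · rw [e, Pi.single_eq_same]; exact Submodule.subset_span ha
        · rw [Pi.single_eq_of_ne e]; exact zero_mem _
      · rw [Finset.sum_eq_single p (fun l _ e => by simp [e]) (by simp), Pi.single_eq_same,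
          add_zero]
  | zero => exact ⟨0, 0, fun _ => zero_mem _, zero_mem _, by simp⟩
  | add a b _ _ ha hb =>
    obtain ⟨D, D₀, h1, h2, rfl⟩ := ha
    obtain ⟨D', D₀', h1', h2', rfl⟩ := hb
    refine ⟨D + D', D₀ + D₀', fun p => add_mem (h1 p) (h1' p), add_mem h2 h2', ?_⟩
    simp only [Pi.add_apply, add_mul, Finset.sum_add_distrib]; ring
  | smul r a _ ha =>
    obtain ⟨D, D₀, h1, h2, rfl⟩ := ha
    refine ⟨fun p => r * D p, r * D₀, fun p => Sp.mul_mem r.2 (h1 p), Sp.mul_mem r.2 h2, ?_⟩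
    change (r : T F) * _ = _
    simp only [mul_add, Finset.mul_sum, mul_assoc]

theorem alg {R I L : Type} [CommRing R] [Fintype I] [Fintype L] (C q : I → R) (e : L → I → I → R)
    (t : L × I → R) (π : R) (D : L × I → R) (D₀ : R)
    (h : ∑ i, C i * (q i - ∑ l, ∑ j, e l i j * t (l, j)) = π * (∑ p, D p * t p + D₀)) :
    ∑ p : L × I, (-∑ i, e p.1 i p.2 * C i - π * D p) * t p + (∑ i, q i * C i - π * D₀) = 0 := by
  have e1 : ∑ i, C i * (q i - ∑ l, ∑ j, e l i j * t (l, j)) = ∑ i, q i * C i -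
      ∑ p : L × I, (∑ i, e p.1 i p.2 * C i) * t p := by
    simp only [mul_sub, Finset.sum_sub_distrib, Finset.sum_mul]
    congr 1
    · exact Finset.sum_congr rfl fun i _ => mul_comm _ _
    · rw [Finset.sum_comm (s := (Finset.univ : Finset (L × I)))]
      refine Finset.sum_congr rfl fun i _ => ?_
      rw [Fintype.sum_prod_type]
      simp only [Finset.mul_sum]
      exact Finset.sum_congr rfl fun l _ => Finset.sum_congr rfl fun j _ => by ring
  rw [e1, mul_add, Finset.mul_sum] at h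
  simp only [sub_mul, neg_mul, Finset.sum_sub_distrib, Finset.sum_neg_distrib, mul_assoc] at h ⊢
  linear_combination h

end ZREL

theorem z_REL (hABP1 : Z_ABP1) (hGOODM : Z_GOODM) (hGOODT : Z_GOODT) :
    Z_REL := by
  intro F _ _ κ _ ev d s E Q g C y hev hE hQ hdet hT hy hC hC0 hs
  have hth : th F ∈ κ.toSubfield := κ.algebraMap_mem ⟨th F, th_mem_K0⟩
  have hπ : tt F - cT F (th F) ∈ RR κ.toSubfield := sub_mem (tt_mem_RR _) (cT_mem_RR hth)
  have hz := (hGOODT F d s κ.toSubfield E Q g hth hE hQ hdet hT).1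
  have hyz := (hGOODM F κ.toSubfield).2 _ _ hy hz
  have hU : ∀ i, towU E Q g i ∈ Sp κ.toSubfield (insert 1 (Set.range (tw s g))) := fun i => by
    refine sub_mem ?_ (sum_mem fun l _ => sum_mem fun j _ => Sp.mul_mem (cT_mem_RR (hE l i j))
      (Submodule.subset_span (Or.inr ⟨(l, j), rfl⟩)))
    rw [← mul_one (cT F (Q i))]
    exact Sp.mul_mem (cT_mem_RR (hQ i)) (Submodule.subset_span (Or.inl rfl))
  obtain ⟨m, hm, em⟩ := hABP1 F κ ev _ hev hyz (∑ i, C i * towU E Q g i)
    (sum_mem fun i _ => Sp.mul (hC i) (hU i)) (by simpa only [map_sum, map_mul] using hs)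
  obtain ⟨D, D₀, hD, hD₀, rfl⟩ := ZREL.decomp _ _ _ hm
  refine ⟨fun p => -∑ i, cT F (E p.1 i p.2) * C i - (tt F - cT F (th F)) * D p,
    ∑ i, cT F (Q i) * C i - (tt F - cT F (th F)) * D₀, fun p => sub_mem (neg_mem
      (sum_mem fun i _ => Sp.mul_mem (cT_mem_RR (hE _ _ _)) (hC i))) (Sp.mul_mem hπ (hD p)),
    sub_mem (sum_mem fun i _ => Sp.mul_mem (cT_mem_RR (hQ i)) (hC i)) (Sp.mul_mem hπ hD₀),
    fun h0 => hC0 ?_, ?_⟩
  · refine Matrix.eq_zero_of_vecMul_eq_zero hdet (funext fun j => ?_)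
    have h1 := congrArg ev (congrFun h0 (Fin.last s, j))
    simp only [map_sub, map_neg, map_sum, map_mul, AlgHom.commutes, hev.1, Pi.zero_apply,
      map_zero, Algebra.algebraMap_self, RingHom.id_apply, sub_self, zero_mul, sub_zero,
      neg_eq_zero] at h1
    simpa only [Matrix.vecMul, dotProduct, mul_comm, Pi.zero_apply] using h1
  · exact ZREL.alg C (fun i => cT F (Q i)) (fun l i j => cT F (E l i j)) (tw s g) _ D D₀ em

end Pool.Agent.P.MP_e5b57f_nt.TM
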