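import Pool.Agent.P.MP_e5b57f_nt.TM.IfaceA

/-! Step RN. -/

open Polynomial WithZero
open scoped Matrix Pointwise IntermediateField Topology

namespace Pool.Agent.P.MP_e5b57f_nt.TM

namespace ZRN

variable {F : Type} [Field F]

theorem deg (p : R0 F) : ∃ δ : ℕ, ∀ Q, 1 ≤ Q → ((expand F[X] Q p).eval X).natDegree ≤ δ * Q := by
  induction p using Polynomial.induction_on' with
  | add p q hp hq =>
    obtain ⟨a, ha⟩ := hp
    obtain ⟨b, hb⟩ := hq
    refine ⟨a + b, fun Q hQ => ?_⟩
    rw [map_add, eval_add, add_mul]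
    exact natDegree_add_le_of_degree_le ((ha Q hQ).trans (Nat.le_add_right _ _))
      ((hb Q hQ).trans (Nat.le_add_left _ _))
  | monomial m a =>
    refine ⟨a.natDegree + m, fun Q hQ => ?_⟩
    rw [expand_monomial, eval_monomial, add_mul]
    exact natDegree_mul_le.trans (add_le_add (Nat.le_mul_of_pos_right _ hQ) (natDegree_X_pow_le _))

theorem bound {ι : Type} [Finite ι] (f : ι → ℕ) : ∃ n, ∀ i, f i ≤ n := by
  obtain ⟨n, hn⟩ := (Set.finite_range f).bddAbove
  exact ⟨n, fun i => hn ⟨i, rfl⟩⟩

end ZRN

theorem z_RN :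
    Z_RN := by
  intro F _ _ ev l ψ D D' B B' r hev hind h2 h3 hne hr hrel
  have hBB : ∀ i k, ∑ j, B' i j * B j k = if k = i then D * D' else 0 := fun i k => by
    have := hind (fun k => ∑ j, B' i j * B j k - if k = i then D * D' else 0) (by
      simp only [map_sub, sub_mul, Finset.sum_sub_distrib, map_sum, map_mul, Finset.sum_mul,
        apply_ite (io F), map_zero, ite_mul, zero_mul, Finset.sum_ite_eq', Finset.mem_univ, if_true]
      rw [Finset.sum_comm, sub_eq_zero, mul_assoc, h3 i, Finset.mul_sum]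
      refine Finset.sum_congr rfl fun j _ => ?_
      rw [mul_left_comm, h2 j, Finset.mul_sum]
      exact Finset.sum_congr rfl fun k _ => mul_assoc _ _ _)
    exact sub_eq_zero.1 (congrFun this k)
  choose δ hδ using fun p : Fin l × Fin l => ZRN.deg (B' p.1 p.2)
  obtain ⟨a, ha⟩ := ZRN.bound δ
  obtain ⟨b, hb⟩ := ZRN.bound fun i => (r i).natDegree
  refine ⟨a + b, fun N => ?_⟩
  induction N with
  | zero => exact ⟨r, hr, fun i => by have := hb i; rw [pow_zero]; omega, hrel⟩
  | succ N ih =>
    obtain ⟨R, hR, hd, hs⟩ := ih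
    let f : R0 F →+* F[X] :=
      (evalRingHom X).comp (expand F[X] (Fintype.card F ^ N)).toRingHom
    have hf : ∀ p, f p = (expand F[X] (Fintype.card F ^ N) p).eval X := fun _ => rfl
    let G : T F →+* KI F := ev.toRingHom.comp (sT F ^ N)
    have hG : ∀ x, G x = ev ((sT F)^[N] x) := fun x => by
      rw [← RingHom.coe_pow]; rfl
    have hGi : ∀ p, G (io F p) = aeval (th F) (f p) := fun p => by
      rw [hG, sT_iter_io, hev.io, hf]
    have hq := two_le_card (F := F)
    have hQ : 1 ≤ Fintype.card F ^ N := Nat.one_le_pow _ _ (by omega)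
    refine ⟨fun j => ∑ i, R i * f (B' i j), fun h0 => hR (funext fun k => ?_), fun j => ?_, ?_⟩
    · have e : ∑ j, (∑ i, R i * f (B' i j)) * f (B j k) = R k * f (D * D') := by
        simp only [Finset.sum_mul]
        rw [Finset.sum_comm]
        simp only [mul_assoc, ← Finset.mul_sum, ← map_mul, ← map_sum, hBB, apply_ite f, map_zero,
          mul_ite, mul_zero, Finset.sum_ite_eq, Finset.mem_univ, if_true]
      have e0 : ∀ j, ∑ i, R i * f (B' i j) = 0 := fun j => congrFun h0 j
      simp only [e0, zero_mul, Finset.sum_const_zero] at e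
      exact (mul_eq_zero.1 e.symm).resolve_right (hne N)
    · refine natDegree_sum_le_of_forall_le _ _ fun i _ => natDegree_mul_le.trans ?_
      have t1 := hd i
      have t2 := (hδ (i, j) _ hQ).trans (Nat.mul_le_mul_right _ (ha (i, j)))
      rw [← hf] at t2
      calc _ ≤ (a + b) * Fintype.card F ^ N + a * Fintype.card F ^ N := add_le_add t1 t2
        _ ≤ (a + b) * (Fintype.card F ^ N * 2) := by nlinarith
        _ ≤ _ := by rw [pow_succ]; gcongr
    · have e : ∀ i, aeval (th F) (f D') * ev ((sT F)^[N] (ψ i)) =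
          ∑ j, aeval (th F) (f (B' i j)) * ev ((sT F)^[N + 1] (ψ j)) := fun i => by
        have := congrArg G (h3 i)
        simp only [map_mul, map_sum, hGi] at this
        simpa only [hG, Function.iterate_succ_apply] using this
      simp only [map_sum, map_mul, Finset.sum_mul]
      rw [Finset.sum_comm]
      simp only [mul_assoc, ← Finset.mul_sum, ← e]
      simp only [mul_left_comm _ (aeval (th F) (f D')), ← Finset.mul_sum, hs, mul_zero]

end Pool.Agent.P.MP_e5b57f_nt.TM
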