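import Pool.Agent.P.MP_e5b57f_nt.TM.IfaceA

/-! Step RRA. -/

open Polynomial WithZero
open scoped Matrix Pointwise IntermediateField Topology

namespace Pool.Agent.P.MP_e5b57f_nt.TM

theorem z_RRA :
    Z_RRA := by
  intro F _ κ
  refine ⟨?_, fun ev hev hth r hr => ?_⟩
  · let g : κ[X] →+* T F := eval₂RingHom ((cT F).comp κ.subtype) (tt F)
    have gX : g X = tt F := by simp [g]
    have gC : ∀ c : κ, g (C c) = cT F c := fun c => by simp [g]
    have hg : ∀ p, g p ∈ RR κ := by
      intro p
      induction p using Polynomial.induction_on' with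
      | add p q hp hq => rw [map_add]; exact add_mem hp hq
      | monomial n c =>
        rw [← C_mul_X_pow_eq_monomial, map_mul, map_pow, gX, gC]
        exact mul_mem (cT_mem_RR c.2) (pow_mem (tt_mem_RR κ) n)
    have hle : RR κ ≤ g.range := by
      refine Subring.closure_le.2 ?_
      rintro x (rfl | ⟨c, hc, rfl⟩)
      · exact ⟨X, gX⟩
      · exact ⟨C ⟨c, hc⟩, gC _⟩
    refine IsPrincipalIdealRing.of_surjective (g.codRestrict (RR κ) hg) fun y => ?_
    obtain ⟨p, hp⟩ := hle y.2
    exact ⟨p, Subtype.ext hp⟩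
  · have evc : ∀ c, ev (cT F c) = c := fun c => ev.commutes c
    induction hr using Subring.closure_induction with
    | mem x hx =>
      rcases hx with rfl | ⟨c, hc, rfl⟩
      · rw [hev.1]
        exact ⟨hth, 1, one_mem _, by ring⟩
      · rw [evc]
        exact ⟨hc, 0, zero_mem _, by ring⟩
    | zero => exact ⟨by rw [map_zero]; exact zero_mem _, 0, zero_mem _, by simp⟩
    | one => exact ⟨by rw [map_one]; exact one_mem _, 0, zero_mem _, by simp⟩
    | add x y _ _ hx hy =>
      obtain ⟨h1, x', h2, h3⟩ := hx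
      obtain ⟨h4, y', h5, h6⟩ := hy
      rw [map_add]
      refine ⟨add_mem h1 h4, x' + y', add_mem h2 h5, ?_⟩
      rw [map_add]
      linear_combination h3 + h6
    | neg x _ hx =>
      obtain ⟨h1, x', h2, h3⟩ := hx
      rw [map_neg]
      refine ⟨neg_mem h1, -x', neg_mem h2, ?_⟩
      rw [map_neg]
      linear_combination -h3
    | mul x y hx0 _ hx hy =>
      obtain ⟨h1, x', h2, h3⟩ := hx
      obtain ⟨h4, y', h5, h6⟩ := hy
      rw [map_mul]
      refine ⟨mul_mem h1 h4, x' * cT F (ev y) + x * y',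
        add_mem (mul_mem h2 (cT_mem_RR h4)) (mul_mem hx0 h5), ?_⟩
      rw [map_mul]
      linear_combination x * h6 + cT F (ev y) * h3

end Pool.Agent.P.MP_e5b57f_nt.TM
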