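import Pool.Agent.P.MP_e5b57f_nt.TM.IfaceA

/-! Step SEP. -/

open Polynomial WithZero
open scoped Matrix Pointwise IntermediateField Topology

namespace Pool.Agent.P.MP_e5b57f_nt.TM

namespace ZSEP

variable {F : Type} [Field F]

theorem spans {n : ℕ} {κ : IntermediateField (K0 F) (KI F)} (v : Fin n → κ)
    (h : Submodule.span (K0 F) (Set.range v) = ⊤) :
    Spans (K0 F).toSubfield κ.toSubfield fun i => (v i : KI F) := by
  refine ⟨fun i => (v i).2, fun x hx => ?_⟩
  have h1 : (⟨x, hx⟩ : κ) ∈ Submodule.span (K0 F) (Set.range v) := h ▸ Submodule.mem_top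
  obtain ⟨r, hr⟩ := (Submodule.mem_span_range_iff_exists_fun _).1 h1
  refine ⟨fun i => r i, fun i => (r i).2, ?_⟩
  have h2 := congrArg κ.val hr
  rw [map_sum] at h2
  exact h2.symm

theorem coe_sum {n : ℕ} {κ : IntermediateField (K0 F) (KI F)} (v : Fin n → κ)
    (g : Fin n → K0 F) : ∑ i, g i • v i = 0 ↔ ∑ i, (g i : KI F) * (v i : KI F) = 0 := by
  have h : κ.val (∑ i, g i • v i) = ∑ i, (g i : KI F) * (v i : KI F) := by
    rw [map_sum]; rfl
  rw [← h]
  exact ⟨fun e => by rw [e, map_zero], fun e => Subtype.ext e⟩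

end ZSEP

theorem z_SEP (hDIG : Z_DIG) (hMAX2 : Z_MAX2) (hMAT : Z_MAT) :
    Z_SEP := by
  intro F _ _ κ _
  have : Module.Free (K0 F) κ := Module.Free.of_divisionRing _ _
  let b := Module.finBasis (K0 F) κ
  have hq : 0 < Fintype.card F := Fintype.card_pos
  refine ⟨_, fun i => b i, ZSEP.spans b b.span_eq, ?_⟩
  have key : LinearIndependent (K0 F) fun i => b i ^ Fintype.card F := by
    rw [Fintype.linearIndependent_iff]
    intro g hg
    rw [ZSEP.coe_sum] at hg
    obtain ⟨D, r, hD, hr⟩ := (hMAT F _).2 (fun i => (g i : KI F)) fun i => (g i).2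
    choose h h1 h2 h3 using fun i => hDIG F _ (r i) hq
    let c : ℕ → KI F := fun m =>
      if m < Fintype.card F then ∑ i, aeval (th F) (tc m (h i)) * (b i : KI F) else 0
    have hc : ∀ m, Fintype.card F ≤ m → c m ^ Fintype.card F * th F ^ m = 0 := fun m hm => by
      simp only [c, if_neg (not_lt.2 hm), zero_pow hq.ne', zero_mul]
    have hfr : ∀ x : KI F, x ^ Fintype.card F = frn F (KI F) 1 x := fun x => by
      rw [frn_apply, pow_one]
    have h0 : ∑ m ∈ Finset.range (Fintype.card F), c m ^ Fintype.card F * th F ^ m = 0 := by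
      have e : ∀ m ∈ Finset.range (Fintype.card F), c m ^ Fintype.card F * th F ^ m =
          ∑ i, aeval (th F) (X ^ m * expand F (Fintype.card F) (tc m (h i))) *
            (b i : KI F) ^ Fintype.card F := fun m hm => by
        simp only [c, if_pos (Finset.mem_range.1 hm)]
        rw [hfr, map_sum, Finset.sum_mul]
        refine Finset.sum_congr rfl fun i _ => ?_
        have e1 := aeval_pow_card (th F) (tc m (h i)) 1
        rw [pow_one] at e1
        rw [← hfr, mul_pow, e1, map_mul, map_pow, aeval_X]
        ring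
      rw [Finset.sum_congr rfl e, Finset.sum_comm]
      simp only [← Finset.sum_mul, ← map_sum, h3, ← hr, mul_assoc]
      rw [← Finset.mul_sum]
      exact mul_eq_zero_of_right _ hg
    have h4 : ∀ m, c m = 0 := fun m => by
      by_contra hm
      obtain ⟨n, hn, hv⟩ := hMAX2 F _ c 0 hq (fun N hN => by
        rw [← Finset.sum_subset (Finset.range_mono hN)
          (fun x _ hx => hc x (by simpa using hx)), h0]
        exact Bd.zero _) m hm
      rw [hc n hn, map_zero, le_zero_iff, Valuation.zero_iff] at hv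
      exact mul_ne_zero (pow_ne_zero _ hm) (pow_ne_zero _ th_ne_zero) hv
    have h5 : ∀ m, m < Fintype.card F → ∀ i, tc m (h i) = 0 := fun m hm i => by
      have e := h4 m
      simp only [c, if_pos hm] at e
      have e1 := Fintype.linearIndependent_iff.1 b.linearIndependent
        (fun i => ⟨_, aeval_mem_K0 (tc m (h i))⟩) ((ZSEP.coe_sum _ _).2 e) i
      exact aeval_th_injective ((congrArg Subtype.val e1).trans (map_zero _).symm)
    intro i
    have h6 : r i = 0 := by
      rw [← h3 i]
      exact Finset.sum_eq_zero fun m hm => by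
        rw [h5 m (Finset.mem_range.1 hm), map_zero, mul_zero]
    have h7 := hr i
    rw [h6, map_zero, mul_eq_zero] at h7
    refine Subtype.ext (h7.resolve_left fun e => hD ?_)
    exact aeval_th_injective (e.trans (map_zero _).symm)
  exact ZSEP.spans _ (key.span_eq_top_of_card_eq_finrank' (Fintype.card_fin _))

end Pool.Agent.P.MP_e5b57f_nt.TM
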