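import Pool.Agent.P.MP_e5b57f_nt.TM.IfaceA

/-! Step SIE1. -/

open Polynomial WithZero
open scoped Matrix Pointwise IntermediateField Topology

namespace Pool.Agent.P.MP_e5b57f_nt.TM

namespace ZSIE1

lemma ex (F : Type) [Field F] (l C Q g : ℕ) (R : Fin l → F[X]) (h : l * g * (C + 1) < Q) :
    ∃ a : F[X], a ≠ 0 ∧ a.natDegree < Q ∧
      ∀ i k m, k < g → m ≤ C → (a * R i).coeff (Q - 1 - k + Q * m) = 0 := by
  let Ψ : degreeLT F Q →ₗ[F] (Fin l × Fin g × Fin (C + 1) → F) :=
    LinearMap.pi fun p => lcoeff F (Q - 1 - p.2.1 + Q * p.2.2) ∘ₗ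
      LinearMap.mulRight F (R p.1) ∘ₗ (degreeLT F Q).subtype
  have : Module.Finite F (degreeLT F Q) := Module.Finite.equiv (degreeLTEquiv F Q).symm
  have h1 : Module.finrank F (Fin l × Fin g × Fin (C + 1) → F) <
      Module.finrank F (degreeLT F Q) := by
    rw [(degreeLTEquiv F Q).finrank_eq]
    simp only [Module.finrank_fintype_fun_eq_card, Fintype.card_prod, Fintype.card_fin]
    rwa [← mul_assoc]
  obtain ⟨a, ha, h0⟩ := Submodule.exists_mem_ne_zero_of_ne_bot
    (LinearMap.ker_ne_bot_of_finrank_lt (f := Ψ) h1)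
  have h2 : (a : F[X]) ≠ 0 := fun e => h0 (Subtype.ext e)
  refine ⟨a, h2, (natDegree_lt_iff_degree_lt h2).2 (mem_degreeLT.1 a.2), fun i k m hk hm => ?_⟩
  exact congrFun (LinearMap.mem_ker.1 ha) (i, ⟨k, hk⟩, ⟨m, by omega⟩)

end ZSIE1

theorem z_SIE1 (hDIG : Z_DIG) :
    Z_SIE1 := by
  intro F _ l C Q g R hR hd hQ
  obtain ⟨a, ha, had, hk⟩ := ZSIE1.ex F l C Q g R hQ
  choose h h1 h2 _ using fun i => hDIG F Q (a * R i) (by omega)
  have big : ∀ i m n, C < m → ((h i).coeff m).coeff n = 0 := by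
    intro i m n hm
    rw [h1]
    split_ifs with hn
    · apply coeff_eq_zero_of_natDegree_lt
      have h3 := natDegree_mul_le (p := a) (q := R i)
      have h4 := hd i
      have h5 : Q * (C + 1) ≤ Q * m := Nat.mul_le_mul_left _ hm
      nlinarith
    · rfl
  refine ⟨a, h, fun e => hR (funext fun i => ?_), fun i => ?_, fun i m n hn => ?_, h2⟩
  · have h3 := h2 i
    rw [e] at h3
    simp only [Pi.zero_apply, map_zero, eval_zero] at h3
    exact (mul_eq_zero.1 h3.symm).resolve_left ha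
  · rw [natDegree_le_iff_coeff_eq_zero]
    intro m hm
    ext n
    exact big i m n hm
  · rcases lt_or_ge C m with hm | hm
    · exact big i m n hm
    · rw [h1]
      split_ifs with h3
      · have := hk i (Q - 1 - n) m (by omega) hm
        rwa [show Q - 1 - (Q - 1 - n) = n by omega] at this
      · rfl

end Pool.Agent.P.MP_e5b57f_nt.TM
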