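import Pool.Agent.P.MP_e5b57f_nt.TM.IfaceA

/-! Step SIE2. -/

open Polynomial WithZero
open scoped Matrix Pointwise IntermediateField Topology

namespace Pool.Agent.P.MP_e5b57f_nt.TM

theorem z_SIE2 :
    Z_SIE2 := by
  intro S _ _ l M w hw
  classical
  set u : Fin (l + 1) × Fin (l * M + 1) → (Fin l × Fin (l * M + M + 1) → S) :=
    fun a b => (X ^ a.2.val * w a.1 b.1).coeff b.2.val with hu
  have hnl : ¬ LinearIndependent S u := by
    intro h
    have h1 := h.fintype_card_le_finrank
    rw [Module.finrank_fintype_fun_eq_card] at h1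
    simp only [Fintype.card_prod, Fintype.card_fin] at h1
    nlinarith
  obtain ⟨g, hg, a, ha⟩ := Fintype.not_linearIndependent_iff.1 hnl
  set α : Fin (l + 1) → S[X] := fun j => ∑ k : Fin (l * M + 1), monomial k.val (g (j, k)) with hα
  have hdeg : ∀ j, (α j).natDegree ≤ l * M := by
    intro j
    refine natDegree_sum_le_of_forall_le _ _ fun k _ => ?_
    exact (natDegree_monomial_le _).trans (Nat.lt_succ_iff.1 k.isLt)
  refine ⟨α, ?_, hdeg, ?_⟩
  · intro h0
    have h1 : (α a.1).coeff a.2.val = g a := by
      simp only [hα, finsetSum_coeff, coeff_monomial]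
      rw [Finset.sum_eq_single a.2]
      · simp
      · intro b _ hb
        rw [if_neg (fun e => hb (Fin.ext e))]
      · simp
    rw [h0] at h1
    exact ha (by simpa using h1.symm)
  · intro i
    have hd : (∑ j, α j * w j i).natDegree ≤ l * M + M := by
      refine natDegree_sum_le_of_forall_le _ _ fun j _ => ?_
      exact natDegree_mul_le.trans (Nat.add_le_add (hdeg j) (hw j i))
    ext c
    rw [coeff_zero]
    by_cases hc : c ≤ l * M + M
    · have h1 := congrFun hg (i, ⟨c, Nat.lt_succ_of_le hc⟩)
      rw [Finset.sum_apply, Fintype.sum_prod_type] at h1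
      simp only [hu, Pi.smul_apply, smul_eq_mul, Pi.zero_apply] at h1
      rw [← h1, finsetSum_coeff]
      refine Finset.sum_congr rfl fun j _ => ?_
      simp only [hα, Finset.sum_mul, finsetSum_coeff]
      refine Finset.sum_congr rfl fun k _ => ?_
      rw [← C_mul_X_pow_eq_monomial, mul_assoc, coeff_C_mul]
    · exact coeff_eq_zero_of_natDegree_lt (by omega)

end Pool.Agent.P.MP_e5b57f_nt.TM
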