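import Pool.Agent.P.MP_e5b57f_nt.TM.IfaceB

/-! Step SIMP. -/

open Polynomial WithZero
open scoped Matrix Pointwise IntermediateField Topology

namespace Pool.Agent.P.MP_e5b57f_nt.TM

namespace ZSIMP

theorem roots {K : Type} [Field K] {q d : ℕ} (hq : 2 ≤ q) (N : Submodule K ((Fin d → K) → K))
    [FiniteDimensional K (Pol K q d ⧸ N.submoduleOf (Pol K q d))] (i : Fin d) :
    {t : K | ∃ x : Fin d → K, x i = t ∧ ∀ m ∈ N, m x = 0}.Finite := by
  let v : ℕ → Pol K q d := fun j => ⟨fun x => x i ^ q ^ j, Submodule.subset_span ⟨i, j, rfl⟩⟩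
  obtain ⟨S, c, h, j, hj, hc⟩ := not_linearIndependent_iff.1
    (Module.Finite.not_linearIndependent_of_infinite (R := K)
      fun j => (N.submoduleOf (Pol K q d)).mkQ (v j))
  simp only [← map_smul] at h
  rw [← map_sum, Submodule.mkQ_apply, Submodule.Quotient.mk_eq_zero] at h
  have hf : (∑ l ∈ S, monomial (q ^ l) (c l) : K[X]) ≠ 0 := fun e => by
    have := congrArg (coeff · (q ^ j)) e
    simp only [finsetSum_coeff, coeff_monomial, coeff_zero,
      (Nat.pow_right_injective hq).eq_iff] at this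
    rw [Finset.sum_eq_single j (fun l _ e => if_neg e) (fun e => (e hj).elim), if_pos rfl] at this
    exact hc this
  refine (finite_setOfPred_isRoot hf).subset ?_
  rintro _ ⟨x, rfl, hx⟩
  have := hx _ h
  simpa [v, eval_finsetSum] using this

end ZSIMP

theorem z_SIMP (hPOLC : Z_POLC) :
    Z_SIMP := by
  intro F K _ _ _ _ _ d s θ E Q hS hQ m hm h0
  let N : Submodule K ((Fin d → K) → K) := Pol K (Fintype.card F) d ⊓
    { carrier := {m | ∀ n, m ((phi (Fintype.card F) θ E)^[n] Q) = 0}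
      add_mem' := fun a b n => by rw [Pi.add_apply, a n, b n, add_zero]
      zero_mem' := fun _ => rfl
      smul_mem' := fun c _ a n => by rw [Pi.smul_apply, a n, smul_zero] }
  rcases hS N inf_le_left
    (fun m a => ⟨(hPOLC F K d s θ E m a.1).1, fun n => by
      rw [Pi.pow_apply, a.2 n, zero_pow Fintype.card_ne_zero]⟩)
    (fun m a => ⟨(hPOLC F K d s θ E m a.1).2, fun n => by
      rw [Function.comp_apply, ← Function.iterate_succ_apply' (phi _ θ E)]; exact a.2 _⟩)
    with e | e
  · exact (Submodule.eq_bot_iff N).1 e m ⟨hm, h0⟩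
  · obtain ⟨n, -, n', -, ne, k⟩ := Set.infinite_univ.exists_ne_map_eq_of_mapsTo
      (f := fun n => (phi (Fintype.card F) θ E)^[n] Q)
      (t := {x | ∀ i, x i ∈ {t : K | ∃ x : Fin d → K, x i = t ∧ ∀ m ∈ N, m x = 0}})
      (fun n _ i => ⟨(phi (Fintype.card F) θ E)^[n] Q, rfl, fun m a => a.2 n⟩)
      (Set.Finite.pi' fun i => ZSIMP.roots (two_le_card (F := F)) N i)
    refine (hQ (X ^ n - X ^ n') (sub_ne_zero.2 fun a => ne ?_) ?_).elim
    · simpa using congrArg natDegree a
    · rw [← coe_phiL, phiA_eq, map_sub, map_pow, map_pow, aeval_X, LinearMap.sub_apply,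
        Module.End.pow_apply, Module.End.pow_apply, coe_phiL, k, sub_self]

end Pool.Agent.P.MP_e5b57f_nt.TM
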