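import Pool.Agent.P.MP_e5b57f_nt.TM.IfaceB

/-! Step SL. -/

open Polynomial WithZero
open scoped Matrix Pointwise IntermediateField Topology

namespace Pool.Agent.P.MP_e5b57f_nt.TM

namespace ZSL

variable {k L : Type} [Field k] [Field L]

theorem bd_lam {i : k →+* L} {w : Valuation k ℤᵐ⁰} {y : Set L} {lam : L →+ k} {e n : ℤ} {z : L}
    (hl : ∀ o x, lam (i o * x) = o * lam x) (hy : ∀ x ∈ y, w (lam x) ≤ exp e)
    (hz : Lv i w y n z) : w (lam z) ≤ exp (n + e) := by
  induction hz with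
  | zero => rw [map_zero, map_zero]; exact zero_le
  | add _ _ h h' => rw [map_add]; exact w.map_add_le h h'
  | gen hx ho => rw [hl, map_mul, exp_add]; exact mul_le_mul' ho (hy _ hx)

theorem exists_lam (i : k →+* L) {z : L} (hz : z ≠ 0) :
    ∃ lam : L →+ k, (∀ o x, lam (i o * x) = o * lam x) ∧ lam z ≠ 0 := by
  let := i.toAlgebra
  obtain ⟨f, hf⟩ := not_forall.1 (mt (Module.forall_dual_apply_eq_zero_iff k z).1 hz)
  exact ⟨f.toAddMonoidHom, fun o x => f.map_smul o x, hf⟩

theorem bd_fin {ι : Type} {s : Set ι} (hs : s.Finite) (f : ι → ℤᵐ⁰) :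
    ∃ e : ℤ, ∀ x ∈ s, f x ≤ exp e := by
  obtain ⟨u, hu⟩ := (hs.image f).bddAbove
  obtain ⟨e, he⟩ := exists_le_exp u
  exact ⟨e, fun x hx => (hu ⟨x, hx, rfl⟩).trans he⟩

theorem eq_zero_of_le {x : ℤᵐ⁰} {K : ℤ} (h : ∀ N : ℕ, x ≤ exp (K - N)) : x = 0 := by
  by_contra hx
  have h1 := h (K - log x + 1).toNat
  rw [← exp_log hx, exp_le_exp, log_exp] at h1
  omega

end ZSL

open ZSL in
theorem z_SL (hSLB : Z_SLB) :
    Z_SL := by
  intro k L M _ _ _ iL iM v rk rL rM y a J _ g g' A b C C₀ n hL hM hv hy hP hA hg hg' hC hC₀ hne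
    hrel
  obtain ⟨p₀, hp₀⟩ := Function.ne_iff.1 hne
  obtain ⟨lam₀, hl₀, hn₀⟩ := exists_lam iL (z := C p₀) hp₀
  refine ⟨fun p => lam₀ (C p), lam₀ C₀, fun h => hn₀ (congrFun h p₀), ?_⟩
  obtain ⟨e, he⟩ := bd_fin hy fun x => v.comap iM (lam₀ x)
  obtain ⟨β, hβ⟩ := bd_fin (Set.finite_univ (α := J)) fun p => v.comap iM (b p)
  obtain ⟨G, hG⟩ := bd_fin (Set.finite_univ (α := J)) fun p => v (g' p)
  obtain ⟨c, hc⟩ := hSLB k L iL (v.comap iM) y J g hy
  have hv' : ∀ x, v (rM.symm x) = v x := fun x => by rw [← hv, rM.apply_symm_apply]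
  have key : ∀ N : ℕ, ∃ (lam : L →+ k) (C' : J → L) (C₀' : L) (m : ℤ),
      (∀ o x, lam (iL o * x) = o * lam x) ∧ (∀ x ∈ y, v.comap iM (lam x) ≤ exp (e + a * N)) ∧
      (∀ p, Lv iL (v.comap iM) y (n - (a + 1) * N) (C' p)) ∧ Lv iL (v.comap iM) y m C₀' ∧
      ∑ p, C' p * g p + C₀' = 0 ∧ v (∑ p, iM (lam (C' p)) * g' p + iM (lam C₀')) =
        v (∑ p, iM (lam₀ (C p)) * g' p + iM (lam₀ C₀)) := by
    intro N
    induction N with
    | zero => exact ⟨lam₀, C, C₀, n, hl₀, by simpa using he, by simpa using hC, hC₀, hrel, rfl⟩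
    | succ N ih =>
      obtain ⟨lam, C', C₀', m, h1, h2, h3, h4, h5, h6⟩ := ih
      let lam' : L →+ k :=
        rk.symm.toRingHom.toAddMonoidHom.comp (lam.comp rL.toRingHom.toAddMonoidHom)
      have hl' : ∀ x, lam' x = rk.symm (lam (rL x)) := fun x => rfl
      have h1' : ∀ o x, lam' (iL o * x) = o * lam' x := fun o x => by
        rw [hl', hl', map_mul, hL.comm, h1, map_mul, rk.symm_apply_apply]
      have hs : ∀ o z, lam' (iL o * rL.symm z) = o * rk.symm (lam z) := fun o z => by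
        rw [h1', hl', rL.apply_symm_apply]
      have h3' : ∀ p, Lv iL (v.comap iM) y (n - (a + 1) * N + -a) (rL.symm (C' p)) := fun p =>
        hL.symm.lv (fun x hx => (hP x hx).2) (h3 p)
      have h4' : Lv iL (v.comap iM) y (m + -a) (rL.symm C₀') :=
        hL.symm.lv (fun x hx => (hP x hx).2) h4
      refine ⟨lam', fun p' => ∑ p, iL (A p p') * rL.symm (C' p),
        rL.symm C₀' + ∑ p, iL (b p) * rL.symm (C' p),
        max (m + -a) (β + (n - (a + 1) * N + -a)), h1', fun x hx => ?_, fun p' => ?_, ?_, ?_, ?_⟩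
      · rw [hl', hL.symm.val]
        refine (bd_lam h1 h2 (hP x hx).1).trans (exp_le_exp.2 (le_of_eq ?_))
        push_cast; ring
      · refine Lv.sum fun p _ => ((h3' p).smul (m := -1) (c := A p p') (hA p p')).mono (le_of_eq ?_)
        push_cast; ring
      · exact (h4'.mono (le_max_left _ _)).add
          (Lv.sum fun p _ => ((h3' p).smul (hβ p trivial)).mono (le_max_right _ _))
      · have h7 := congrArg rL.symm h5
        rw [map_add, map_sum, map_zero] at h7
        rw [← h7]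
        simp only [map_mul, hg, mul_add, Finset.sum_add_distrib, Finset.sum_mul, Finset.mul_sum]
        rw [Finset.sum_comm, add_comm (rL.symm C₀'), ← add_assoc]
        congr 2
        · exact Finset.sum_congr rfl fun p _ => Finset.sum_congr rfl fun p' _ => by ring
        · exact Finset.sum_congr rfl fun p _ => by ring
      · rw [← h6, ← hv' (∑ p, iM (lam (C' p)) * g' p + iM (lam C₀'))]
        congr 1
        have h8 : lam' (rL.symm C₀') = rk.symm (lam C₀') := by rw [hl', rL.apply_symm_apply]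
        simp only [map_add, map_sum, map_mul, hs, h8, hg', hM.symm.comm, mul_add,
          Finset.sum_add_distrib, Finset.sum_mul, Finset.mul_sum]
        rw [Finset.sum_comm, add_comm (iM (rk.symm (lam C₀'))), ← add_assoc]
        congr 2
        · exact Finset.sum_congr rfl fun p _ => Finset.sum_congr rfl fun p' _ => by ring
        · exact Finset.sum_congr rfl fun p _ => by ring
  rw [← v.zero_iff]
  refine eq_zero_of_le (K := max (n + e + G) (n + c + e)) fun N => ?_
  obtain ⟨lam, C', C₀', m, h1, h2, h3, h4, h5, h6⟩ := key N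
  have h7 : C₀' = -∑ p, C' p * g p := eq_neg_of_add_eq_zero_right h5
  have h8 : Lv iL (v.comap iM) y (n - (a + 1) * N + c) C₀' := by
    rw [h7]
    refine (hc C' _ m h3 ?_).neg
    rw [← neg_neg (∑ p, C' p * g p), ← h7]
    exact h4.neg
  rw [← h6]
  refine v.map_add_le (v.map_sum_le fun p _ => ?_) ?_
  · rw [map_mul]
    refine (mul_le_mul' (bd_lam h1 h2 (h3 p)) (hG p trivial)).trans ?_
    rw [← exp_add, exp_le_exp]
    have := le_max_left (n + e + G) (n + c + e)
    linarith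
  · refine (bd_lam h1 h2 h8).trans (exp_le_exp.2 ?_)
    have := le_max_right (n + e + G) (n + c + e)
    linarith

end Pool.Agent.P.MP_e5b57f_nt.TM
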