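import Pool.Agent.P.MP_e5b57f_nt.TM.IfaceB

/-! Step SLA. -/

open Polynomial WithZero
open scoped Matrix Pointwise IntermediateField Topology

namespace Pool.Agent.P.MP_e5b57f_nt.TM

namespace ZSLA

variable {M : Type} [Field M]

theorem iter (f : M ≃+* M) (n : ℕ) (x y : M) :
    (RingEquiv.prodCongr f f)^[n] (x, y) = (f^[n] x, f^[n] y) := by
  induction n with
  | zero => rfl
  | succ n ih => simp only [Function.iterate_succ_apply', ih]; rfl

theorem pow_apply {A : Type} [CommRing A] (f : A ≃+* A) (n : ℕ) (x : A) :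
    (f ^ n) x = f^[n] x := by
  induction n generalizing x with
  | zero => rfl
  | succ n ih => rw [pow_succ, RingAut.mul_apply, ih, Function.iterate_succ_apply]

theorem symm_pow (f : M ≃+* M) (n : ℕ) (x y : M) :
    (RingEquiv.prodCongr f f ^ n).symm (x, y) = ((f ^ n).symm x, (f ^ n).symm y) := by
  rw [RingEquiv.symm_apply_eq, pow_apply, iter, ← pow_apply, ← pow_apply,
    RingEquiv.apply_symm_apply, RingEquiv.apply_symm_apply]

theorem v_pow (v : Valuation M ℤᵐ⁰) (f : M ≃+* M) (h : ∀ x, v (f x) = v x) (n : ℕ) (x : M) :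
    v ((f ^ n) x) = v x := by
  induction n generalizing x with
  | zero => rfl
  | succ n ih => rw [pow_succ, RingAut.mul_apply, ih, h]

end ZSLA

theorem z_SLA (hTWL : Z_TWL) (hTWM : Z_TWM) (hPURM : Z_PURM) (hSL : Z_SL) :
    Z_SLA := by
  intro F k M _ _ _ _ X d s κ E Q g y C' C₀ hT hA hC hC₀ hne hrel
  obtain ⟨g', hg', hg't⟩ := hTWM F k M X d s E Q
  obtain ⟨hgL, hgLt⟩ := (hTWL F k M X).1 d s E Q g hT
  have htw : Tw (X.iL.prod X.iM) X.w X.sk (RingEquiv.prodCongr X.sM X.sM) :=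
    ⟨fun x => Prod.ext (X.sM_iL x) (X.sM_iM x), X.twL.val⟩
  have hTow : TowA (X.iL.prod X.iM) (RingEquiv.prodCongr X.sM X.sM) X.pi (X.eK E) (X.qK Q)
      fun a => (X.j (g a), g' a) := fun a => by
    simp only [ZSLA.iter]
    refine Prod.ext ?_ ?_
    · simp only [Prod.fst_sum]
      exact hgL a
    · simp only [Prod.snd_sum]
      exact hg' a
  have hG : ∀ p, twA s (RingEquiv.prodCongr X.sM X.sM) (fun a => (X.j (g a), g' a)) p =
      (X.j (tw s g p), twA s X.sM g' p) := fun p => by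
    rw [← hgLt]; exact ZSLA.iter _ _ _ _
  choose b _ hb using hPURM k (M × M) _ X.w X.sk _ d s X.pi (X.eK E) (X.qK Q) _ ⊤ htw (X.v_t _)
    (fun _ _ _ => X.v_c _) (fun _ _ => trivial) (fun _ => trivial) hTow
  choose A hAv hAe using fun p => Lv.range_iff.1 (hb p)
  simp only [hG, ZSLA.symm_pow, sub_eq_iff_eq_add] at hAe
  obtain ⟨⟨hfin, -⟩, a, ha⟩ := hA
  choose m hm using fun p => (hTWL F k M X).2 κ y _ (hC p)
  obtain ⟨m₀, hm₀⟩ := (hTWL F k M X).2 κ y _ hC₀
  obtain ⟨n, hn⟩ := (Set.finite_range m).bddAbove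
  obtain ⟨c, γ, hc, hcr⟩ := hSL k M M X.iL X.iM X.v (X.sk ^ (s + 1)) (X.sM ^ (s + 1))
    (X.sM ^ (s + 1)) (X.j '' y) a _ (fun p => X.j (tw s g p)) (twA s X.sM g') A b
    (fun p => X.j (C' p)) (X.j C₀) (max n m₀) (X.twL.pow _) (X.twM.pow _)
    (ZSLA.v_pow X.v X.sM X.v_sM _) (hfin.image _) ha hAv
    (fun p => by
      have := congrArg Prod.fst (hAe p)
      simp only [Prod.fst_add, Prod.fst_sum] at this
      exact this)
    (fun p => by
      have := congrArg Prod.snd (hAe p)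
      simp only [Prod.snd_add, Prod.snd_sum] at this
      exact this)
    (fun p => (hm p).mono ((hn ⟨p, rfl⟩).trans (le_max_left _ _))) (hm₀.mono (le_max_right _ _))
    (fun e => hne (funext fun p => X.j_inj ((congrFun e p).trans (map_zero _).symm)))
    (by simpa only [map_add, map_sum, map_mul, map_zero] using congrArg X.j hrel)
  simp only [hg't, mul_neg, Finset.sum_neg_distrib] at hcr
  have h := X.ext _ (fun b n => (phi (Fintype.card F) (th F) E)^[n] Q b.2 ^
    Fintype.card F ^ (b.1.val + 1)) c (-γ) hc (by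
      rw [map_neg, ← sub_eq_add_neg, sub_eq_zero]
      exact (neg_add_eq_zero.1 hcr))
  unfold Rel
  exact h

end Pool.Agent.P.MP_e5b57f_nt.TM
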