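import Pool.Agent.P.MP_e5b57f_nt.TM.IfaceB

/-! Step SLB. -/

open Polynomial WithZero
open scoped Matrix Pointwise IntermediateField Topology

namespace Pool.Agent.P.MP_e5b57f_nt.TM

namespace ZSLB

variable {k L : Type} [Field k] [Field L] [Algebra k L] {w : Valuation k ℤᵐ⁰} {y : Set L}

theorem lv_of_mem {z : L} (h : z ∈ Submodule.span k y) : ∃ n, Lv (algebraMap k L) w y n z := by
  induction h using Submodule.span_induction with
  | mem x hx => exact ⟨0, Lv.of_mem hx⟩
  | zero => exact ⟨0, Lv.zero⟩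
  | add a b _ _ ha hb =>
    obtain ⟨n, ha⟩ := ha
    obtain ⟨m, hb⟩ := hb
    exact ⟨max n m, (ha.mono (le_max_left _ _)).add (hb.mono (le_max_right _ _))⟩
  | smul c a _ ha =>
    obtain ⟨n, ha⟩ := ha
    obtain ⟨m, hm⟩ := exists_le_exp (w c)
    exact ⟨m + n, by rw [Algebra.smul_def]; exact ha.smul hm⟩

theorem mem_of_lv {z : L} {n : ℤ} (h : Lv (algebraMap k L) w y n z) : z ∈ Submodule.span k y := by
  induction h with
  | zero => exact zero_mem _
  | add _ _ h h' => exact add_mem h h'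
  | gen hx _ =>
    rw [← Algebra.smul_def]
    exact Submodule.smul_mem _ _ (Submodule.subset_span hx)

theorem main {J : Type} [Fintype J] (g : J → L) (hy : y.Finite) : ∃ c : ℤ, ∀ (C : J → L) (n m : ℤ),
    (∀ b, Lv (algebraMap k L) w y n (C b)) → Lv (algebraMap k L) w y m (∑ b, C b * g b) →
      Lv (algebraMap k L) w y (n + c) (∑ b, C b * g b) := by
  obtain ⟨π, hπ⟩ := LinearMap.exists_extend
    (LinearMap.id : Submodule.span k y →ₗ[k] Submodule.span k y)
  have := hy.to_subtype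
  choose c hc using fun p : J × y => lv_of_mem (w := w) (π (p.2.1 * g p.1)).2
  obtain ⟨c₀, h₀⟩ := (Set.finite_range c).bddAbove
  refine ⟨c₀, fun C n m hC hm => ?_⟩
  have h1 : (π (∑ b, C b * g b) : L) = ∑ b, C b * g b :=
    congrArg Subtype.val (LinearMap.congr_fun hπ ⟨_, mem_of_lv hm⟩)
  rw [← h1, map_sum, Submodule.coe_sum]
  refine Lv.sum fun b _ => ?_
  exact (hC b).map (((Submodule.span k y).subtype ∘ₗ π ∘ₗ LinearMap.mulRight k (g b)).toAddMonoidHom)
    id (fun o x => by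
      rw [← Algebra.smul_def, id, ← Algebra.smul_def]
      exact map_smul ((Submodule.span k y).subtype ∘ₗ π ∘ₗ LinearMap.mulRight k (g b)) o x)
    (fun _ => rfl) fun x hx => (hc (b, ⟨x, hx⟩)).mono (h₀ ⟨_, rfl⟩)

end ZSLB

theorem z_SLB :
    Z_SLB := by
  intro k L _ _ i w y J _ g hy
  let := i.toAlgebra
  exact ZSLB.main g hy

end Pool.Agent.P.MP_e5b57f_nt.TM
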