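import Pool.Agent.P.MP_e5b57f_nt.TM.IfaceA

/-! Step SPK. -/

open Polynomial WithZero
open scoped Matrix Pointwise IntermediateField Topology

namespace Pool.Agent.P.MP_e5b57f_nt.TM

theorem z_SPK :
    Z_SPK := by
  intro F _ κ₀ κ n b y hle hb x
  have h0 : ∀ c ∈ κ, ∀ w ∈ y, cT F c * w ∈ Sp κ₀ (Set.range (fun i => cT F (b i)) * y) := by
    intro c hc w hw
    obtain ⟨r, h1, rfl⟩ := hb.2 c hc
    rw [map_sum, Finset.sum_mul]
    refine Submodule.sum_mem _ fun i _ => ?_
    rw [map_mul, mul_assoc]
    exact Sp.mul_mem (cT_mem_RR (h1 i)) (Submodule.subset_span (Set.mul_mem_mul ⟨i, rfl⟩ hw))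
  have h1 : ∀ c ∈ κ, ∀ z ∈ Sp κ₀ (Set.range (fun i => cT F (b i)) * y),
      cT F c * z ∈ Sp κ₀ (Set.range (fun i => cT F (b i)) * y) := by
    intro c hc z hz
    induction hz using Submodule.span_induction with
    | mem z hz =>
      obtain ⟨_, ⟨i, rfl⟩, w, hw, rfl⟩ := hz
      beta_reduce
      rw [← mul_assoc, ← map_mul]
      exact h0 _ (κ.mul_mem hc (hb.1 i)) w hw
    | zero => simp
    | add u v _ _ hu hv => rw [mul_add]; exact add_mem hu hv
    | smul r u _ hu =>
      have : cT F c * (r • u) = r * (cT F c * u) := mul_left_comm _ (r : T F) u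
      rw [this]; exact Sp.mul_mem r.2 hu
  have h2 : ∀ r ∈ RR κ, ∀ z ∈ Sp κ₀ (Set.range (fun i => cT F (b i)) * y),
      r * z ∈ Sp κ₀ (Set.range (fun i => cT F (b i)) * y) := by
    intro r hr
    induction hr using Subring.closure_induction with
    | mem r hr =>
      rcases hr with rfl | ⟨c, hc, rfl⟩
      · exact fun z hz => Sp.mul_mem (tt_mem_RR _) hz
      · exact h1 c hc
    | zero => simp
    | one => simp
    | add u v _ _ hu hv => exact fun z hz => by rw [add_mul]; exact add_mem (hu z hz) (hv z hz)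
    | neg u _ hu =>
      intro z hz
      have : -u * z = -(u * z) := by ring
      rw [this]; exact neg_mem (hu z hz)
    | mul u v _ _ hu hv => exact fun z hz => by rw [mul_assoc]; exact hu _ (hv z hz)
  constructor
  · intro hx
    induction hx using Submodule.span_induction with
    | mem w hw => simpa using h0 1 κ.one_mem w hw
    | zero => simp
    | add u v _ _ hu hv => exact add_mem hu hv
    | smul r u _ hu => exact h2 r r.2 u hu
  · intro hx
    induction hx using Submodule.span_induction with
    | mem z hz =>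
      obtain ⟨_, ⟨i, rfl⟩, w, hw, rfl⟩ := hz
      exact Sp.mul_mem (cT_mem_RR (hb.1 i)) (Submodule.subset_span hw)
    | zero => simp
    | add u v _ _ hu hv => exact add_mem hu hv
    | smul r u _ hu => exact Sp.mul_mem (RR_mono hle r.2) hu

end Pool.Agent.P.MP_e5b57f_nt.TM
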