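import Pool.Agent.P.MP_e5b57f_nt.TM.IfaceB
import Pool.Agent.P.MP_e5b57f_nt.TM.IfaceA

/-! Step TFIN. -/

open Polynomial WithZero
open scoped Matrix Pointwise IntermediateField Topology

namespace Pool.Agent.P.MP_e5b57f_nt.TM

theorem z_TFIN (hCTX : Z_CTX) (hEV : Z_EV) (hAGF : Z_AGF) (hGOODM : Z_GOODM) (hADM : Z_ADM)
    (hGAUSS : Z_GAUSS) (hREL : Z_REL) (hSLA : Z_SLA) :
    Z_TFIN := by
  intro F _ _ κ _ d s E e ρ Q hE hQ hdet hexp hdeg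
  obtain ⟨k, M, _, _, ⟨X⟩⟩ := hCTX F
  obtain ⟨ev, hev⟩ := hEV F
  obtain ⟨u, Λ, hΛ, hne, hu, heu⟩ := hdeg
  have hth : th F ∈ κ.toSubfield := κ.algebraMap_mem ⟨th F, th_mem_K0⟩
  have h1 : X.Adm κ.toSubfield s {1} := by
    refine ⟨(hGOODM F _).1, 0, ?_⟩
    rw [Set.image_singleton, map_one]
    exact Pure.one _ _ _
  have h2 : ∀ y z, X.Adm κ.toSubfield s y → X.Adm κ.toSubfield s z →
      X.Adm κ.toSubfield s (y * z) := by
    rintro y z ⟨hy, a, ha⟩ ⟨hz, b, hb⟩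
    refine ⟨(hGOODM F _).2 y z hy hz, a + b, ?_⟩
    rw [Set.image_mul]
    exact ha.mul hb
  obtain ⟨y, C, hy, hC, hC0, hCu⟩ := hGAUSS (RR κ.toSubfield) (T F) (KI F) ev.toRingHom
    (X.Adm κ.toSubfield s) d Λ u h1 h2
    (fun l hl => hADM F k M X d s κ.toSubfield E e ρ ev l hth hE hdet hexp hev (hΛ l hl)) hne hu
  obtain ⟨g, hg, hgu⟩ := hAGF F d s E e ρ ev hexp hev u
  rw [heu] at hg hgu
  obtain ⟨C', C₀, hC', hC₀, hne', hrel⟩ := hREL F κ ev d s E Q g C y hev hE hQ hdet hg hy.1 hC hC0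
    (by simpa [hgu] using hCu)
  exact hSLA F k M X d s κ.toSubfield E Q g y C' C₀ hg hy hC' hC₀ hne' hrel

end Pool.Agent.P.MP_e5b57f_nt.TM
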