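import Pool.Agent.P.MP_e5b57f_nt.TM.IfaceB

/-! Step TOPA. -/

open Polynomial WithZero
open scoped Matrix Pointwise IntermediateField Topology

namespace Pool.Agent.P.MP_e5b57f_nt.TM

namespace ZTOPA

variable {F K : Type} [Field F] [Fintype F] [Field K] [Algebra F K] {d s : ℕ}

theorem mon_mem (q : ℕ) (i : Fin d) {j D : ℕ} (h : j < D) :
    (fun x : Fin d → K => x i ^ q ^ j) ∈ PolLT K q d D :=
  Submodule.subset_span ⟨i, j, h, rfl⟩

theorem fm (θ : K) (E : Fin (s + 1) → Matrix (Fin d) (Fin d) K) (i : Fin d) (D : ℕ) :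
    (fun x => phi (Fintype.card F) θ E x i ^ Fintype.card F ^ D) =
      θ ^ Fintype.card F ^ D • (fun x : Fin d → K => x i ^ Fintype.card F ^ D) +
        ∑ l, ∑ k, E l i k ^ Fintype.card F ^ D •
          fun x : Fin d → K => x k ^ Fintype.card F ^ (D + (l.val + 1)) := by
  funext x
  simp only [Pi.add_apply, Pi.smul_apply, Finset.sum_apply, smul_eq_mul]
  rw [← frn_apply (F := F)]
  simp only [phi, Pi.add_apply, Pi.smul_apply, Finset.sum_apply, smul_eq_mul, Matrix.mulVec,
    dotProduct, map_add, map_sum, map_mul, frn_apply]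
  refine congrArg _ (Finset.sum_congr rfl fun l _ => Finset.sum_congr rfl fun k _ => ?_)
  rw [← pow_mul, ← pow_add, add_comm (l.val + 1) D]

theorem comp_mem (θ : K) (E : Fin (s + 1) → Matrix (Fin d) (Fin d) K) {D : ℕ}
    {m : (Fin d → K) → K} (hm : m ∈ PolLT K (Fintype.card F) d D) :
    (fun x => m (phi (Fintype.card F) θ E x)) ∈ PolLT K (Fintype.card F) d (D + (s + 1)) := by
  induction hm using Submodule.span_induction with
  | mem m hm =>
    obtain ⟨i, j, hj, rfl⟩ := hm
    rw [fm]
    exact add_mem (Submodule.smul_mem _ _ (mon_mem _ _ (by omega)))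
      (sum_mem fun l _ => sum_mem fun k _ => Submodule.smul_mem _ _ (mon_mem _ _ (by omega)))
  | zero => exact zero_mem _
  | add a b _ _ ha hb => exact add_mem ha hb
  | smul c a _ ha => exact Submodule.smul_mem _ c ha

theorem top_mem (θ : K) (E : Fin (s + 1) → Matrix (Fin d) (Fin d) K) (i : Fin d) (D : ℕ) :
    ((fun x => phi (Fintype.card F) θ E x i ^ Fintype.card F ^ D) -
      ∑ k, E (Fin.last s) i k ^ Fintype.card F ^ D •
        fun x : Fin d → K => x k ^ Fintype.card F ^ (D + (s + 1))) ∈
      PolLT K (Fintype.card F) d (D + (s + 1)) := by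
  rw [fm, Fin.sum_univ_castSucc, Fin.val_last, add_sub_assoc, add_sub_cancel_right]
  refine add_mem (Submodule.smul_mem _ _ (mon_mem _ _ (by omega)))
    (sum_mem fun l _ => sum_mem fun k _ => Submodule.smul_mem _ _ (mon_mem _ _ ?_))
  have := l.2
  rw [Fin.val_castSucc]
  omega

end ZTOPA

theorem z_TOPA :
    Z_TOPA := by
  intro F K _ _ _ _ d s θ E hE n l
  induction n with
  | zero =>
    refine ⟨1, by simp, fun i => ?_⟩
    convert Submodule.zero_mem _ using 1
    funext x
    simp [Matrix.one_apply]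
  | succ n ih =>
    obtain ⟨G, hG, h⟩ := ih
    refine ⟨G * (E (Fin.last s)).map (frn F K (l + n * (s + 1))), ?_, fun i => ?_⟩
    · rw [Matrix.det_mul]
      refine mul_ne_zero hG ?_
      have := (frn F K (l + n * (s + 1))).map_det (E (Fin.last s))
      rw [AlgHom.mapMatrix_apply] at this
      rw [← this, frn_apply]
      exact pow_ne_zero _ hE
    · have e : l + (n + 1) * (s + 1) = l + n * (s + 1) + (s + 1) := by ring
      rw [e]
      have h1 := ZTOPA.comp_mem θ E (h i)
      have h2 := sum_mem (t := Finset.univ) fun j _ =>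
        Submodule.smul_mem _ (G i j) (ZTOPA.top_mem (F := F) θ E j (l + n * (s + 1)))
      convert add_mem h1 h2 using 1
      funext x
      simp only [Pi.sub_apply, Pi.add_apply, Finset.sum_apply, Pi.smul_apply, smul_eq_mul,
        Function.iterate_succ_apply, Matrix.mul_apply, Matrix.map_apply, frn_apply, mul_sub,
        Finset.sum_sub_distrib, Finset.mul_sum, Finset.sum_mul, mul_assoc]
      rw [Finset.sum_comm]
      ring

end Pool.Agent.P.MP_e5b57f_nt.TM
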