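import Pool.Agent.P.MP_e5b57f_nt.TM.IfaceB

/-! Step TOPB. -/

open Polynomial WithZero
open scoped Matrix Pointwise IntermediateField Topology

namespace Pool.Agent.P.MP_e5b57f_nt.TM

theorem z_TOPB :
    Z_TOPB := by
  intro K _ _ q d D r hq h
  funext j₀
  have key : ∀ m ∈ PolLT K q d D, ∃ p : K[X], p.coeff (q ^ D) = 0 ∧
      ∀ ξ, m (Pi.single j₀ ξ) = p.eval ξ := by
    intro m hm
    induction hm using Submodule.span_induction with
    | mem m hm =>
      obtain ⟨i, j, hj, rfl⟩ := hm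
      by_cases hi : i = j₀
      · subst hi
        refine ⟨X ^ q ^ j, ?_, fun ξ => by simp⟩
        rw [coeff_X_pow, if_neg (Nat.pow_lt_pow_right hq hj).ne']
      · refine ⟨0, coeff_zero _, fun ξ => ?_⟩
        simp only [Pi.single_eq_of_ne hi, eval_zero]
        exact zero_pow (pow_ne_zero _ (by omega))
    | zero => exact ⟨0, coeff_zero _, fun ξ => by simp⟩
    | add m m' _ _ h1 h2 =>
      obtain ⟨p, p1, p2⟩ := h1
      obtain ⟨p', p1', p2'⟩ := h2
      exact ⟨p + p', by rw [coeff_add, p1, p1', add_zero], fun ξ => by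
        rw [Pi.add_apply, p2, p2', eval_add]⟩
    | smul c m _ h1 =>
      obtain ⟨p, p1, p2⟩ := h1
      exact ⟨c • p, by rw [coeff_smul, p1, smul_zero], fun ξ => by
        rw [Pi.smul_apply, p2, eval_smul]⟩
  obtain ⟨p, p1, p2⟩ := key _ h
  have e : C (r j₀) * X ^ q ^ D = p := Polynomial.funext fun ξ => by
    rw [← p2, Finset.sum_eq_single j₀]
    · simp
    · intro b _ hb
      rw [Pi.single_eq_of_ne hb, zero_pow (pow_ne_zero _ (by omega)), mul_zero]
    · intro hc
      exact absurd (Finset.mem_univ _) hc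
  rw [← e, coeff_C_mul, coeff_X_pow, if_pos rfl, mul_one] at p1
  exact p1

end Pool.Agent.P.MP_e5b57f_nt.TM
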