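import Pool.Agent.P.MP_e5b57f_nt.TM.IfaceA

/-! Step TOPO. -/

open Polynomial WithZero
open scoped Matrix Pointwise IntermediateField Topology

namespace Pool.Agent.P.MP_e5b57f_nt.TM

namespace ZTOPO

variable {F : Type} [Field F]

theorem ball_mem (n : ℤ) : {x : KI F | Bd x n} ∈ 𝓝 (0 : KI F) := by
  rw [Valued.mem_nhds_zero]
  have h : (Valued.v : Valuation (KI F) ℤᵐ⁰).restrict (th F ^ n) ≠ 0 := by
    simp [th_ne_zero, zpow_ne_zero]
  refine ⟨Units.mk0 _ h, fun x hx => ?_⟩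
  have h1 := (Valuation.restrict_lt_iff _).1 hx
  rw [v_th_zpow] at h1
  exact h1.le

theorem ball_sub {U : Set (KI F)} (hU : U ∈ 𝓝 (0 : KI F)) :
    ∃ N : ℕ, ∀ x : KI F, Bd x (-N) → x ∈ U := by
  obtain ⟨γ, hγ⟩ := Valued.mem_nhds_zero.1 hU
  have h0 : (MonoidWithZeroHom.ValueGroup₀.embedding γ.1 : ℤᵐ⁰) ≠ 0 := by simp
  obtain ⟨k, hk⟩ : ∃ k : ℤ, (MonoidWithZeroHom.ValueGroup₀.embedding γ.1 : ℤᵐ⁰) = exp k :=
    ⟨_, (exp_log h0).symm⟩
  refine ⟨(1 - k).toNat, fun x hx => hγ ?_⟩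
  rw [Set.mem_setOf_eq, Valuation.restrict_lt_iff_lt_embedding, hk]
  exact lt_of_le_of_lt hx (exp_lt_exp.2 (by omega))

end ZTOPO

theorem z_TOPO :
    Z_TOPO := by
  intro F _ d S ρ h
  have h1 : {y : Fin d → KI F | BdV y ρ} ∈ 𝓝 (0 : Fin d → KI F) := by
    have := set_pi_mem_nhds (x := (0 : Fin d → KI F)) (s := fun _ => {x : KI F | Bd x ρ})
      Set.finite_univ fun _ _ => ZTOPO.ball_mem ρ
    exact Filter.mem_of_superset this fun y hy i => hy i trivial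
  refine Filter.mem_of_superset h1 fun y hy => ?_
  choose x hx hxy using h y hy
  refine mem_closure_of_tendsto (b := Filter.atTop) (f := x) ?_ (Filter.Eventually.of_forall hx)
  refine tendsto_pi_nhds.2 fun i => tendsto_sub_nhds_zero_iff.1 fun U hU => ?_
  obtain ⟨N, hN⟩ := ZTOPO.ball_sub hU
  refine Filter.mem_map.2 (Filter.eventually_atTop.2 ⟨N, fun n hn => hN _ ?_⟩)
  exact (hxy n i).mono (by omega)

end Pool.Agent.P.MP_e5b57f_nt.TM
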