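import Pool.Agent.P.MP_e5b57f_nt.TM.IfaceA

/-! Step TWD. -/

open Polynomial WithZero
open scoped Matrix Pointwise IntermediateField Topology

namespace Pool.Agent.P.MP_e5b57f_nt.TM

namespace ZTWD

theorem iter {F : Type} [Field F] [Fintype F] {l : ℕ} {ψ : Fin l → T F} {D : R0 F}
    {B : Matrix (Fin l) (Fin l) (R0 F)} (hD : D ≠ 0)
    (h : ∀ i, io F D * sT F (ψ i) = ∑ j, io F (B i j) * ψ j) (j : ℕ) :
    ∃ (Dj : R0 F) (Bj : Fin l → Fin l → R0 F), Dj ≠ 0 ∧
      ∀ i, io F Dj * (sT F)^[j] (ψ i) = ∑ k, io F (Bj i k) * ψ k := by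
  induction j with
  | zero =>
    refine ⟨1, fun i k => if i = k then 1 else 0, one_ne_zero, fun i => ?_⟩
    simp [apply_ite (io F)]
  | succ j ih =>
    obtain ⟨Dj, Bj, h0, h1⟩ := ih
    refine ⟨D * expand F[X] (Fintype.card F) Dj,
      fun i m => ∑ k, expand F[X] (Fintype.card F) (Bj i k) * B k m,
      mul_ne_zero hD fun e => h0 ((expand_eq_zero Fintype.card_pos).1 e), fun i => ?_⟩
    have h2 := congrArg (sT F) (h1 i)
    rw [map_mul, map_sum, sT_io] at h2
    rw [Function.iterate_succ_apply', map_mul, mul_assoc, h2, Finset.mul_sum]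
    simp only [map_sum, Finset.sum_mul]
    rw [Finset.sum_comm]
    refine Finset.sum_congr rfl fun k _ => ?_
    rw [map_mul, sT_io, mul_left_comm, h, Finset.mul_sum]
    exact Finset.sum_congr rfl fun m _ => by rw [map_mul, mul_assoc]

end ZTWD

theorem z_TWD (hSIE2 : Z_SIE2) :
    Z_TWD := by
  intro F _ _ l ψ D B hD h C
  choose Dj Bj h0 h1 using ZTWD.iter hD h
  obtain ⟨δ₁, d1⟩ := (Set.finite_range fun j : Fin (l + 1) => (Dj j).natDegree).bddAbove
  obtain ⟨δ₂, d2⟩ := (Set.finite_range fun p : Fin (l + 1) × Fin l × Fin l =>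
    (Bj p.1 p.2.1 p.2.2).natDegree).bddAbove
  refine ⟨l * (C * Fintype.card F ^ l + δ₂) + δ₁, fun g hg => ?_⟩
  obtain ⟨α, a0, a1, a2⟩ := hSIE2 F[X] l (C * Fintype.card F ^ l + δ₂)
    (fun j k => ∑ i, expand F[X] (Fintype.card F ^ j.val) (g i) * Bj j i k) fun j k => by
      refine natDegree_sum_le_of_forall_le _ _ fun i _ => natDegree_mul_le.trans ?_
      rw [natDegree_expand]
      exact Nat.add_le_add (Nat.mul_le_mul (hg i)
        (Nat.pow_le_pow_right Fintype.card_pos (Nat.lt_succ_iff.1 j.2))) (d2 ⟨(j, i, k), rfl⟩)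
  refine ⟨fun j => α j * Dj j, fun e => a0 (funext fun j => ?_), fun j =>
    natDegree_mul_le.trans (Nat.add_le_add (a1 j) (d1 ⟨j, rfl⟩)), ?_⟩
  · exact (mul_eq_zero.1 (congrFun e j)).resolve_right (h0 j)
  · have key : ∀ j : Fin (l + 1), io F (α j * Dj j) * (sT F)^[j.val] (∑ i, io F (g i) * ψ i) =
        ∑ k, io F (α j * ∑ i, expand F[X] (Fintype.card F ^ j.val) (g i) * Bj j i k) * ψ k := by
      intro j
      have e : (sT F)^[j.val] (∑ i, io F (g i) * ψ i) =
          ∑ i, io F (expand F[X] (Fintype.card F ^ j.val) (g i)) * (sT F)^[j.val] (ψ i) := by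
        simp only [← sT_iter_io, ← RingHom.coe_pow, map_sum, map_mul]
      rw [e, map_mul, mul_assoc, Finset.mul_sum]
      simp only [map_mul, map_sum, mul_assoc, Finset.sum_mul, ← Finset.mul_sum]
      congr 1
      rw [Finset.sum_comm, Finset.mul_sum]
      refine Finset.sum_congr rfl fun i _ => ?_
      rw [mul_left_comm, h1, Finset.mul_sum]
    simp only [key]
    rw [Finset.sum_comm]
    refine Finset.sum_eq_zero fun k _ => ?_
    rw [← Finset.sum_mul, ← map_sum, a2, map_zero, zero_mul]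

end Pool.Agent.P.MP_e5b57f_nt.TM
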