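import Pool.Agent.P.MP_e5b57f_nt.TM.IfaceB

/-! Step TWL. -/

open Polynomial WithZero
open scoped Matrix Pointwise IntermediateField Topology

namespace Pool.Agent.P.MP_e5b57f_nt.TM

theorem z_TWL :
    Z_TWL := by
  intro F k M _ _ _ _ X
  have it : ∀ (l : ℕ) (x : T F), X.j ((sT F)^[l] x) = (X.sM)^[l] (X.j x) := fun l x =>
    (Function.Semiconj.iterate_right (f := X.j) (ga := sT F) (gb := X.sM) X.j_sT l) x
  refine ⟨fun d s E Q g h => ⟨fun a => ?_, fun p => (it _ _).symm⟩, fun κ y x hx => ?_⟩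
  · have := congrArg X.j (h a)
    simp only [map_add, map_mul, map_sub, map_sum, X.j_cT, X.j_tt, it] at this
    simp only [Ctx.pi, Ctx.qK, Ctx.eK, Matrix.map_apply, map_sub]
    exact this
  · have rg : ∀ r ∈ RR κ, X.j r ∈ X.iL.range := by
      intro r hr
      refine (Subring.closure_le (t := X.iL.range.comap X.j)).2 ?_ hr
      rintro z (rfl | ⟨c, -, rfl⟩)
      · exact ⟨X.t, X.j_tt.symm⟩
      · exact ⟨X.c c, (X.j_cT c).symm⟩
    induction hx using Submodule.span_induction with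
    | mem x hx => exact ⟨0, Lv.of_mem ⟨x, hx, rfl⟩⟩
    | zero => exact ⟨0, by rw [map_zero]; exact Lv.zero⟩
    | add x y _ _ hx hy =>
      obtain ⟨a, ha⟩ := hx
      obtain ⟨b, hb⟩ := hy
      exact ⟨max a b, by
        rw [map_add]; exact (ha.mono (le_max_left _ _)).add (hb.mono (le_max_right _ _))⟩
    | smul r x _ hx =>
      obtain ⟨a, ha⟩ := hx
      obtain ⟨o, ho⟩ := rg r r.2
      obtain ⟨m, hm⟩ := exists_le_exp (X.w o)
      have : X.j (r • x) = X.iL o * X.j x := by
        rw [ho]; exact map_mul X.j (r : T F) x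
      exact ⟨m + a, by rw [this]; exact ha.smul hm⟩

end Pool.Agent.P.MP_e5b57f_nt.TM
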