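import Pool.Agent.P.MP_e5b57f_nt.TM.IfaceB

/-! Step TWM. -/

open Polynomial WithZero
open scoped Matrix Pointwise IntermediateField Topology

namespace Pool.Agent.P.MP_e5b57f_nt.TM

theorem z_TWM :
    Z_TWM := by
  intro F k M _ _ _ _ X d s E Q
  obtain ⟨y, hy⟩ : ∃ y : ℕ → Fin d → KI F, ∀ n, y n = (phi (Fintype.card F) (th F) E)^[n] Q :=
    ⟨_, fun _ => rfl⟩
  simp only [← hy]
  have h1 : ∀ (l : ℕ) (a : Fin d), X.sM^[l] (-X.ge fun n => y n a ^ Fintype.card F) =
      -X.ge fun n => y n a ^ Fintype.card F ^ (l + 1) := by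
    intro l a
    induction l with
    | zero => simp
    | succ l ih =>
      rw [Function.iterate_succ_apply', ih, map_neg, X.sM_ge]
      congr 2
      funext n
      rw [Pi.pow_apply, ← pow_mul, ← pow_succ]
  refine ⟨fun a => -X.ge fun n => y n a ^ Fintype.card F, fun a => ?_, fun p => h1 _ _⟩
  have h2 : (fun n => y (n + 1) a ^ Fintype.card F) =
      (th F ^ Fintype.card F • fun n => y n a ^ Fintype.card F) + ∑ l : Fin (s + 1), ∑ b,
        E l a b ^ Fintype.card F • fun n => y n b ^ Fintype.card F ^ (l.val + 1 + 1) := by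
    funext n
    have e : ∀ z : KI F, z ^ Fintype.card F = frn F (KI F) 1 z := fun z => by
      rw [frn_apply, pow_one]
    rw [hy, Function.iterate_succ_apply', ← hy, e]
    simp only [phi, Pi.add_apply, Pi.smul_apply, Finset.sum_apply, smul_eq_mul, Matrix.mulVec,
      dotProduct, map_add, map_mul, map_sum]
    simp only [← e, ← pow_mul, ← pow_succ]
  have h3 := X.t_ge fun n => y n a ^ Fintype.card F
  rw [h2, map_add, X.ge_smul, hy 0, Function.iterate_zero_apply] at h3
  simp only [map_sum, X.ge_smul] at h3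
  simp only [h1, Ctx.pi, Ctx.eK, Ctx.qK, Matrix.map_apply, map_sub, mul_neg,
    Finset.sum_neg_distrib]
  linear_combination (-1 : M) * h3

end Pool.Agent.P.MP_e5b57f_nt.TM
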