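import Pool.Agent.P.MP_e5b57f_nt.TM.IfaceA

/-! Step UP. -/

open Polynomial WithZero
open scoped Matrix Pointwise IntermediateField Topology

namespace Pool.Agent.P.MP_e5b57f_nt.TM

theorem z_UP (hMAX2 : Z_MAX2) :
    Z_UP := by
  intro F _ _ ev x N C hev hb h0 n
  by_cases hn : cf n x = 0
  · rw [hn]; exact Bd.zero _
  obtain ⟨C₀, hC₀⟩ := cf_bd ((sT F)^[N] x)
  have hQ : 0 < Fintype.card F ^ N := pow_pos Fintype.card_pos _
  obtain ⟨n', h1, h2⟩ := hMAX2 F (Fintype.card F ^ N) (fun n => cf n x) C₀ hQ (fun M _ => by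
    have := (hev.2 _ C₀ hC₀ M).neg
    simpa only [h0, zero_sub, neg_neg, cf_sT_iter] using this) n hn
  obtain ⟨m, hm⟩ := exists_v_eq hn
  rw [bd_iff_of_v_eq hm]
  have h3 := h2.trans (((hb n' h1).pow _).mul (Bd.th_pow n'))
  rw [map_mul, map_pow, hm, v_th_pow, ← exp_nsmul, ← exp_add, exp_le_exp, nsmul_eq_mul] at h3
  generalize Fintype.card F ^ N = Q at *
  obtain ⟨k, rfl⟩ := Nat.exists_eq_add_of_le h1
  push_cast at h3
  have a1 : (1 : ℤ) ≤ Q := by exact_mod_cast hQ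
  have a2 : (0 : ℤ) ≤ k := Nat.cast_nonneg _
  have a3 : (0 : ℤ) ≤ n := Nat.cast_nonneg _
  by_contra hc
  have a4 : C + 2 ≤ m := by omega
  nlinarith [mul_le_mul_of_nonneg_left a4 (by omega : (0 : ℤ) ≤ Q), mul_le_mul_of_nonneg_right a1 a2]

end Pool.Agent.P.MP_e5b57f_nt.TM
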