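import Pool.Agent.P.MP_e5b57f_nt.TM.TPHB
import Pool.Agent.P.MP_e5b57f_nt.TM.TEXP1
import Pool.Agent.P.MP_e5b57f_nt.TM.TEXP2
import Pool.Agent.P.MP_e5b57f_nt.TM.TTOPO
import Pool.Agent.P.MP_e5b57f_nt.TM.TPIG
import Pool.Agent.P.MP_e5b57f_nt.TM.TRED1
import Pool.Agent.P.MP_e5b57f_nt.TM.TPP
import Pool.Agent.P.MP_e5b57f_nt.TM.TKRO
import Pool.Agent.P.MP_e5b57f_nt.TM.TRED2
import Pool.Agent.P.MP_e5b57f_nt.TM.TRED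
import Pool.Agent.P.MP_e5b57f_nt.TM.TDESC
import Pool.Agent.P.MP_e5b57f_nt.TM.TCTX
import Pool.Agent.P.MP_e5b57f_nt.TM.TEV
import Pool.Agent.P.MP_e5b57f_nt.TM.TAGF
import Pool.Agent.P.MP_e5b57f_nt.TM.TGOODM
import Pool.Agent.P.MP_e5b57f_nt.TM.TGOODT
import Pool.Agent.P.MP_e5b57f_nt.TM.TTWL
import Pool.Agent.P.MP_e5b57f_nt.TM.TPURM
import Pool.Agent.P.MP_e5b57f_nt.TM.TPURH
import Pool.Agent.P.MP_e5b57f_nt.TM.TADM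
import Pool.Agent.P.MP_e5b57f_nt.TM.TGAUSS
import Pool.Agent.P.MP_e5b57f_nt.TM.TRN
import Pool.Agent.P.MP_e5b57f_nt.TM.TDIG
import Pool.Agent.P.MP_e5b57f_nt.TM.TSIE1
import Pool.Agent.P.MP_e5b57f_nt.TM.TCB
import Pool.Agent.P.MP_e5b57f_nt.TM.TMAX2
import Pool.Agent.P.MP_e5b57f_nt.TM.TUP
import Pool.Agent.P.MP_e5b57f_nt.TM.TSIE2
import Pool.Agent.P.MP_e5b57f_nt.TM.TTWD
import Pool.Agent.P.MP_e5b57f_nt.TM.TLOWA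
import Pool.Agent.P.MP_e5b57f_nt.TM.TLOW
import Pool.Agent.P.MP_e5b57f_nt.TM.TABP0
import Pool.Agent.P.MP_e5b57f_nt.TM.TRRA
import Pool.Agent.P.MP_e5b57f_nt.TM.TDEN
import Pool.Agent.P.MP_e5b57f_nt.TM.TMAT
import Pool.Agent.P.MP_e5b57f_nt.TM.TBAS
import Pool.Agent.P.MP_e5b57f_nt.TM.TABPK
import Pool.Agent.P.MP_e5b57f_nt.TM.TSEP
import Pool.Agent.P.MP_e5b57f_nt.TM.TSPK
import Pool.Agent.P.MP_e5b57f_nt.TM.TABP1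
import Pool.Agent.P.MP_e5b57f_nt.TM.TREL
import Pool.Agent.P.MP_e5b57f_nt.TM.TTWM
import Pool.Agent.P.MP_e5b57f_nt.TM.TSLB
import Pool.Agent.P.MP_e5b57f_nt.TM.TSL
import Pool.Agent.P.MP_e5b57f_nt.TM.TSLA
import Pool.Agent.P.MP_e5b57f_nt.TM.TTFIN
import Pool.Agent.P.MP_e5b57f_nt.TM.TPOLC
import Pool.Agent.P.MP_e5b57f_nt.TM.TTOPA
import Pool.Agent.P.MP_e5b57f_nt.TM.TTOPB
import Pool.Agent.P.MP_e5b57f_nt.TM.TTOP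
import Pool.Agent.P.MP_e5b57f_nt.TM.TSIMP
import Pool.Agent.P.MP_e5b57f_nt.TM.TNREL
import Pool.Agent.P.MP_e5b57f_nt.TM.TFIN
import Pool.Agent.P.MP_e5b57f_nt.TM.TBR
import Pool.Agent.P.MP_e5b57f_nt.TM.TMAIN

/-! Assembly. -/

namespace Pool.Agent.P.MP_e5b57f_nt.TM

theorem a_PHB : Z_PHB :=
  z_PHB
theorem a_EXP1 : Z_EXP1 :=
  z_EXP1
theorem a_EXP2 : Z_EXP2 :=
  z_EXP2
theorem a_TOPO : Z_TOPO :=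
  z_TOPO
theorem a_PIG : Z_PIG :=
  z_PIG
theorem a_RED1 : Z_RED1 :=
  z_RED1 a_PIG
theorem a_PP : Z_PP :=
  z_PP
theorem a_KRO : Z_KRO :=
  z_KRO a_PP
theorem a_RED2 : Z_RED2 :=
  z_RED2 a_KRO
theorem a_RED : Z_RED :=
  z_RED a_PIG a_RED1 a_RED2
theorem a_DESC : Z_DESC :=
  z_DESC
theorem a_CTX : Z_CTX :=
  z_CTX a_DESC
theorem a_EV : Z_EV :=
  z_EV
theorem a_AGF : Z_AGF :=
  z_AGF
theorem a_GOODM : Z_GOODM :=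
  z_GOODM
theorem a_GOODT : Z_GOODT :=
  z_GOODT
theorem a_TWL : Z_TWL :=
  z_TWL
theorem a_PURM : Z_PURM :=
  z_PURM
theorem a_PURH : Z_PURH :=
  z_PURH a_PURM
theorem a_ADM : Z_ADM :=
  z_ADM a_AGF a_GOODT a_TWL a_PURH
theorem a_GAUSS : Z_GAUSS :=
  z_GAUSS
theorem a_RN : Z_RN :=
  z_RN
theorem a_DIG : Z_DIG :=
  z_DIG
theorem a_SIE1 : Z_SIE1 :=
  z_SIE1 a_DIG
theorem a_CB : Z_CB :=
  z_CB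
theorem a_MAX2 : Z_MAX2 :=
  z_MAX2
theorem a_UP : Z_UP :=
  z_UP a_MAX2
theorem a_SIE2 : Z_SIE2 :=
  z_SIE2
theorem a_TWD : Z_TWD :=
  z_TWD a_SIE2
theorem a_LOWA : Z_LOWA :=
  z_LOWA
theorem a_LOW : Z_LOW :=
  z_LOW a_LOWA
theorem a_ABP0 : Z_ABP0 :=
  z_ABP0 a_RN a_SIE1 a_CB a_UP a_TWD a_LOW
theorem a_RRA : Z_RRA :=
  z_RRA
theorem a_DEN : Z_DEN :=
  z_DEN
theorem a_MAT : Z_MAT :=
  z_MAT a_DEN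
theorem a_BAS : Z_BAS :=
  z_BAS a_RRA
theorem a_ABPK : Z_ABPK :=
  z_ABPK a_ABP0 a_RRA a_MAT a_BAS
theorem a_SEP : Z_SEP :=
  z_SEP a_DIG a_MAX2 a_MAT
theorem a_SPK : Z_SPK :=
  z_SPK
theorem a_ABP1 : Z_ABP1 :=
  z_ABP1 a_ABPK a_SEP a_SPK
theorem a_REL : Z_REL :=
  z_REL a_ABP1 a_GOODM a_GOODT
theorem a_TWM : Z_TWM :=
  z_TWM
theorem a_SLB : Z_SLB :=
  z_SLB
theorem a_SL : Z_SL :=
  z_SL a_SLB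
theorem a_SLA : Z_SLA :=
  z_SLA a_TWL a_TWM a_PURM a_SL
theorem a_TFIN : Z_TFIN :=
  z_TFIN a_CTX a_EV a_AGF a_GOODM a_ADM a_GAUSS a_REL a_SLA
theorem a_POLC : Z_POLC :=
  z_POLC
theorem a_TOPA : Z_TOPA :=
  z_TOPA
theorem a_TOPB : Z_TOPB :=
  z_TOPB
theorem a_TOP : Z_TOP :=
  z_TOP a_TOPA a_TOPB
theorem a_SIMP : Z_SIMP :=
  z_SIMP a_POLC
theorem a_NREL : Z_NREL :=
  z_NREL a_POLC a_TOP a_SIMP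
theorem a_FIN : Z_FIN :=
  z_FIN
theorem a_BR : Z_BR :=
  z_BR
theorem a_MAIN : Z_MAIN :=
  z_MAIN a_PHB a_EXP1 a_EXP2 a_TOPO a_RED a_TFIN a_DESC a_NREL a_FIN a_BR

end Pool.Agent.P.MP_e5b57f_nt.TM
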