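import Pool.Agent.P.MP_e5b57f_nt.TM.Defs

/-! The field `F((1/θ))`, sizes, digits. -/

namespace Pool.Agent.P.MP_e5b57f_nt.TM

open Polynomial WithZero
open scoped Matrix

/-- `F((1/θ))` as a type of its own (one algebra structure over `F`). -/
def KI (F : Type) [Field F] : Type := LaurentSeries F

section ki
variable {F : Type} [Field F]

noncomputable instance : Field (KI F) := inferInstanceAs (Field (LaurentSeries F))
noncomputable instance : Valued (KI F) ℤᵐ⁰ := inferInstanceAs (Valued (LaurentSeries F) ℤᵐ⁰)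
instance : CompleteSpace (KI F) := inferInstanceAs (CompleteSpace (LaurentSeries F))
noncomputable instance : Algebra F (KI F) :=
  RingHom.toAlgebra (S := KI F) (HahnSeries.C : F →+* HahnSeries ℤ F)

noncomputable def th (F : Type) [Field F] : KI F := (HahnSeries.single (-1) 1 : HahnSeries ℤ F)

/-- `log |x| ≤ n`. -/
def Bd (x : KI F) (n : ℤ) : Prop := Valued.v x ≤ (exp n : ℤᵐ⁰)

def BdV {d : ℕ} (x : Fin d → KI F) (n : ℤ) : Prop := ∀ i, Bd (x i) n

/-- The digit at `θ ^ n`. -/
noncomputable def dg (n : ℤ) : KI F →ₗ[F] F where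
  toFun x := HahnSeries.coeff (Γ := ℤ) (R := F) x (-n)
  map_add' x y := HahnSeries.coeff_add
  map_smul' c x := by
    exact congrArg (fun z : HahnSeries ℤ F => z.coeff (-n))
      (HahnSeries.C_mul_eq_smul (r := c) (x := x))

theorem v_th : (Valued.v (th F) : ℤᵐ⁰) = exp 1 := by
  have := LaurentSeries.valuation_single_zpow F (-1)
  rw [neg_neg] at this
  exact this

theorem th_ne_zero : th F ≠ 0 := by
  intro h
  have := v_th (F := F)
  rw [h, map_zero] at this
  exact exp_ne_zero this.symm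

theorem v_th_pow (n : ℕ) : (Valued.v (th F ^ n) : ℤᵐ⁰) = exp (n : ℤ) := by
  rw [map_pow, v_th, ← exp_nsmul]; simp

theorem v_th_zpow (n : ℤ) : (Valued.v (th F ^ n) : ℤᵐ⁰) = exp n := by
  rw [map_zpow₀, v_th, ← exp_zsmul]; simp

theorem bd_iff_dg {x : KI F} {n : ℤ} : Bd x n ↔ ∀ m, n < m → dg m x = 0 := by
  have := LaurentSeries.valuation_le_iff_coeff_lt_eq_zero F (D := -n) (f := x)
  rw [neg_neg] at this
  refine this.trans ⟨fun h m hm => h (-m) (by omega), fun h m hm => ?_⟩
  have := h (-m) (by omega)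
  simpa [dg] using this

theorem dg_ext {x y : KI F} (h : ∀ n, dg n x = dg n y) : x = y := by
  refine HahnSeries.ext (funext fun n => ?_)
  simpa [dg] using h (-n)

theorem dg_th_mul (n : ℤ) (x : KI F) : dg (n + 1) (th F * x) = dg n x := by
  have := HahnSeries.coeff_single_mul_add (r := (1 : F)) (x := x) (a := -n) (b := (-1 : ℤ))
  rw [one_mul] at this
  have e : -(n + 1) = -n + -1 := by ring
  exact (congrArg (HahnSeries.coeff (Γ := ℤ) (R := F) (th F * x)) e).trans this

theorem dg_th_pow_mul (k : ℕ) (n : ℤ) (x : KI F) : dg (n + k) (th F ^ k * x) = dg n x := by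
  induction k with
  | zero => simp
  | succ k ih => rw [pow_succ', mul_assoc, Nat.cast_succ, ← add_assoc, dg_th_mul, ih]

theorem dg_one (n : ℤ) : dg n (1 : KI F) = if n = 0 then 1 else 0 := by
  show HahnSeries.coeff (1 : HahnSeries ℤ F) (-n) = _
  rw [HahnSeries.coeff_one]; simp

theorem dg_th_pow (k : ℕ) (n : ℤ) : dg n (th F ^ k) = if n = k then 1 else 0 := by
  have := dg_th_pow_mul k (n - k) (1 : KI F)
  rw [sub_add_cancel, mul_one] at this
  rw [this, dg_one]; simp [sub_eq_zero]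

theorem dg_aeval (p : F[X]) (n : ℕ) : dg n (aeval (th F) p) = p.coeff n := by
  induction p using Polynomial.induction_on' with
  | add p q hp hq => rw [map_add, map_add, hp, hq, coeff_add]
  | monomial k c =>
    rw [aeval_monomial, ← Algebra.smul_def, map_smul, dg_th_pow, coeff_monomial]
    by_cases h : k = n
    · simp [h]
    · simp [h, Ne.symm h]

theorem dg_aeval_neg (p : F[X]) {n : ℤ} (hn : n < 0) : dg n (aeval (th F) p) = 0 := by
  induction p using Polynomial.induction_on' with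
  | add p q hp hq => rw [map_add, map_add, hp, hq, add_zero]
  | monomial k c =>
    rw [aeval_monomial, ← Algebra.smul_def, map_smul, dg_th_pow, if_neg (by omega), smul_zero]

theorem aeval_th_injective : Function.Injective (aeval (th F) : F[X] → KI F) := by
  intro p q h
  ext n
  rw [← dg_aeval, ← dg_aeval, h]

namespace Bd
variable {x y : KI F} {m n : ℤ}

theorem zero (n : ℤ) : Bd (0 : KI F) n := by simp [Bd]
theorem mono (h : Bd x m) (hm : m ≤ n) : Bd x n := le_trans h (exp_le_exp.2 hm)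
theorem add (h : Bd x n) (k : Bd y n) : Bd (x + y) n := Valuation.map_add_le _ h k
theorem neg (h : Bd x n) : Bd (-x) n := by simpa [Bd] using h
theorem sub (h : Bd x n) (k : Bd y n) : Bd (x - y) n := Valuation.map_sub_le _ h k
theorem sub_comm (h : Bd (x - y) n) : Bd (y - x) n := by simpa using h.neg
theorem mul (h : Bd x m) (k : Bd y n) : Bd (x * y) (m + n) := by
  unfold Bd; rw [map_mul, exp_add]; exact mul_le_mul' h k
theorem pow (h : Bd x n) (k : ℕ) : Bd (x ^ k) (k * n) := by
  unfold Bd; rw [map_pow, ← nsmul_eq_mul, exp_nsmul]; exact pow_le_pow_left' h k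
theorem sum {ι : Type*} {S : Finset ι} {f : ι → KI F} (h : ∀ i ∈ S, Bd (f i) n) :
    Bd (∑ i ∈ S, f i) n := Valuation.map_sum_le _ h
theorem one : Bd (1 : KI F) 0 := by simp [Bd]
theorem smul (c : F) (h : Bd x n) : Bd (c • x) n :=
  bd_iff_dg.2 fun m hm => by rw [map_smul, bd_iff_dg.1 h m hm, smul_zero]
theorem const (c : F) : Bd (algebraMap F (KI F) c) 0 := by
  rw [Algebra.algebraMap_eq_smul_one]; exact one.smul c
theorem th_zpow (n : ℤ) : Bd (th F ^ n) n := (v_th_zpow n).le
theorem th_pow (n : ℕ) : Bd (th F ^ n) n := (v_th_pow n).le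
theorem th : Bd (th F) 1 := v_th.le
theorem th_inv : Bd (TM.th F)⁻¹ (-1) := by simpa using th_zpow (F := F) (-1)
theorem th_inv_pow (n : ℕ) : Bd ((TM.th F)⁻¹ ^ n) (-n) := by simpa using (th_inv (F := F)).pow n
theorem aeval (p : F[X]) : Bd (aeval (TM.th F) p) p.natDegree :=
  bd_iff_dg.2 fun m hm => by
    obtain ⟨k, rfl⟩ := Int.eq_ofNat_of_zero_le (show 0 ≤ m by omega)
    rw [dg_aeval]; exact coeff_eq_zero_of_natDegree_lt (by omega)
end Bd

/-- A nonzero element has an exact size. -/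
theorem exists_v_eq {x : KI F} (hx : x ≠ 0) : ∃ n : ℤ, (Valued.v x : ℤᵐ⁰) = exp n :=
  ⟨_, (exp_log ((Valuation.ne_zero_iff _).2 hx)).symm⟩

theorem bd_iff_of_v_eq {x : KI F} {m n : ℤ} (h : (Valued.v x : ℤᵐ⁰) = exp m) : Bd x n ↔ m ≤ n := by
  unfold Bd; rw [h, exp_le_exp]

theorem exists_bd (x : KI F) : ∃ n, Bd x n := by
  by_cases hx : x = 0
  · exact ⟨0, hx ▸ Bd.zero 0⟩
  · obtain ⟨n, h⟩ := exists_v_eq hx
    exact ⟨n, h.le⟩

theorem exists_bd_fin {ι : Type*} [Finite ι] (x : ι → KI F) : ∃ n, ∀ i, Bd (x i) n := by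
  choose f hf using fun i => exists_bd (x i)
  obtain ⟨n, hn⟩ := (Set.finite_range f).bddAbove
  exact ⟨n, fun i => (hf i).mono (hn ⟨i, rfl⟩)⟩

theorem eq_zero_of_bd {x : KI F} {C : ℤ} {N₀ : ℕ} (h : ∀ n : ℕ, N₀ ≤ n → Bd x (C - n)) : x = 0 :=
  dg_ext fun m => by
    rw [map_zero]
    exact bd_iff_dg.1 (h (N₀ + (C - m + 1).toNat) (by omega)) m (by omega)

theorem v_aeval {p : F[X]} (hp : p ≠ 0) :
    (Valued.v (aeval (th F) p) : ℤᵐ⁰) = exp (p.natDegree : ℤ) := by
  obtain ⟨n, h⟩ := exists_v_eq (x := aeval (th F) p)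
    (fun e => hp (aeval_th_injective (e.trans (map_zero _).symm)))
  have h1 := (bd_iff_of_v_eq h).1 (Bd.aeval p)
  rw [h]; congr 1
  by_contra h2
  have := bd_iff_dg.1 ((bd_iff_of_v_eq h).2 le_rfl) p.natDegree (by omega)
  rw [dg_aeval] at this
  exact hp (leadingCoeff_eq_zero.1 this)

/-- Limits of sequences with small increments. -/
theorem exists_lim (x : ℕ → KI F) (C : ℤ) (N₀ : ℕ)
    (h : ∀ n, N₀ ≤ n → Bd (x (n + 1) - x n) (C - n)) :
    ∃ y, ∀ n, N₀ ≤ n → Bd (y - x n) (C - n) := by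
  have h1 : ∀ n k, N₀ ≤ n → Bd (x (n + k) - x n) (C - n) := fun n k hn => by
    induction k with
    | zero => simpa using Bd.zero _
    | succ k ih =>
      have := ((h (n + k) (by omega)).mono (n := C - n) (by push_cast; omega)).add ih
      rwa [sub_add_sub_cancel] at this
  have h2 : ∀ (n n' : ℕ) (m : ℤ), N₀ ≤ n → N₀ ≤ n' → C - n < m → C - n' < m →
      dg m (x n) = dg m (x n') := fun n n' m a a' b b' => by
    have e := bd_iff_dg.1 (h1 n n' a) m b
    have e' := bd_iff_dg.1 (h1 n' n a') m b'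
    rw [map_sub, sub_eq_zero] at e e'
    rw [← e, ← e', add_comm]
  obtain ⟨B, hB⟩ := exists_bd (x N₀)
  let c : ℤ → F := fun j => dg (-j) (x (N₀ + (C + j + 1).toNat))
  have hc : BddBelow (Function.support c) := ⟨-max B (C - N₀), fun j hj => by
    by_contra hlt
    apply hj
    have hm : max B (C - N₀) < -j := by omega
    show dg (-j) (x _) = 0
    rw [h2 _ N₀ (-j) (by omega) le_rfl (by push_cast; omega) (by omega)]
    exact bd_iff_dg.1 hB _ (by omega)⟩
  obtain ⟨y, hy⟩ : ∃ y : KI F, ∀ m, dg m y = c (-m) :=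
    ⟨(HahnSeries.ofSuppBddBelow c hc : HahnSeries ℤ F), fun _ => rfl⟩
  refine ⟨y, fun n hn => bd_iff_dg.2 fun m hm => ?_⟩
  rw [map_sub, sub_eq_zero, hy]
  simp only [c, neg_neg]
  exact h2 _ _ _ (by omega) hn (by push_cast; omega) hm

namespace BdV
variable {d : ℕ} {x y : Fin d → KI F} {m n : ℤ}
theorem zero (n : ℤ) : BdV (0 : Fin d → KI F) n := fun _ => Bd.zero n
theorem mono (h : BdV x m) (hm : m ≤ n) : BdV x n := fun i => (h i).mono hm
theorem add (h : BdV x n) (k : BdV y n) : BdV (x + y) n := fun i => (h i).add (k i)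
theorem neg (h : BdV x n) : BdV (-x) n := fun i => (h i).neg
theorem sub (h : BdV x n) (k : BdV y n) : BdV (x - y) n := fun i => (h i).sub (k i)
theorem smul (c : F) (h : BdV x n) : BdV (c • x) n := fun i => (h i).smul c
theorem smul' {c : KI F} (hc : Bd c m) (h : BdV x n) : BdV (c • x) (m + n) := fun i => hc.mul (h i)
theorem sum {ι : Type*} {S : Finset ι} {f : ι → Fin d → KI F} (h : ∀ i ∈ S, BdV (f i) n) :
    BdV (∑ i ∈ S, f i) n := fun j => by
  rw [Finset.sum_apply]; exact Bd.sum fun i hi => h i hi j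
theorem mulVec {A : Matrix (Fin d) (Fin d) (KI F)} (hA : ∀ i j, Bd (A i j) m) (h : BdV x n) :
    BdV (A *ᵥ x) (m + n) := fun i => Bd.sum fun j _ => (hA i j).mul (h j)
end BdV

theorem exists_bdV {d : ℕ} (x : Fin d → KI F) : ∃ n, BdV x n := exists_bd_fin x

theorem eq_zero_of_bdV {d : ℕ} {x : Fin d → KI F} {C : ℤ} {N₀ : ℕ}
    (h : ∀ n : ℕ, N₀ ≤ n → BdV x (C - n)) : x = 0 :=
  funext fun i => eq_zero_of_bd fun n hn => h n hn i

theorem exists_limV {d : ℕ} (x : ℕ → Fin d → KI F) (C : ℤ) (N₀ : ℕ)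
    (h : ∀ n, N₀ ≤ n → BdV (x (n + 1) - x n) (C - n)) :
    ∃ y, ∀ n, N₀ ≤ n → BdV (y - x n) (C - n) := by
  choose y hy using fun i => exists_lim (fun n => x n i) C N₀ fun n hn => h n hn i
  exact ⟨y, fun n hn i => hy i n hn⟩

end ki

section ph
variable {F K : Type} [Field F] [Fintype F] [Field K] [Algebra F K] {d s : ℕ}

theorem two_le_card : 2 ≤ Fintype.card F := Fintype.one_lt_card

/-- `x ↦ x ^ q ^ n` as an algebra map. -/
noncomputable def frn (F R : Type) [Field F] [Fintype F] [CommRing R] [Algebra F R] (n : ℕ) :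
    R →ₐ[F] R := FiniteField.frobeniusAlgHom F R ^ n

theorem frn_apply {R : Type} [CommRing R] [Algebra F R] (n : ℕ) (x : R) :
    frn F R n x = x ^ Fintype.card F ^ n := by
  rw [frn, AlgHom.coe_pow, FiniteField.coe_frobeniusAlgHom, pow_iterate]

theorem aeval_pow_card (θ : K) (p : F[X]) (n : ℕ) :
    aeval θ p ^ Fintype.card F ^ n = aeval θ (expand F (Fintype.card F ^ n) p) := by
  rw [← frn_apply, ← aeval_algHom_apply, frn_apply, expand_aeval]

/-- `phi` as an `F`-linear map. -/
noncomputable def phiL (F : Type) [Field F] [Fintype F] [Algebra F K] (θ : K)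
    (E : Fin (s + 1) → Matrix (Fin d) (Fin d) K) : Module.End F (Fin d → K) where
  toFun := phi (Fintype.card F) θ E
  map_add' x y := by
    simp only [phi, ← frn_apply (F := F), Pi.add_apply, map_add, smul_add]
    have : ∀ l : Fin (s + 1), (E l *ᵥ fun i => frn F K (l.val + 1) (x i) + frn F K (l.val + 1) (y i))
        = (E l *ᵥ fun i => frn F K (l.val + 1) (x i)) + E l *ᵥ fun i => frn F K (l.val + 1) (y i) :=
      fun l => Matrix.mulVec_add _ _ _
    simp only [this, Finset.sum_add_distrib]; abel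
  map_smul' c x := by
    simp only [phi, ← frn_apply (F := F), Pi.smul_apply, map_smul, smul_add, RingHom.id_apply,
      Finset.smul_sum]
    rw [smul_comm]; congr 1
    exact Finset.sum_congr rfl fun l _ =>
      Matrix.mulVec_smul (E l) c fun i => frn F K (l.val + 1) (x i)

theorem coe_phiL (θ : K) (E : Fin (s + 1) → Matrix (Fin d) (Fin d) K) :
    ⇑(phiL F θ E) = phi (Fintype.card F) θ E := rfl

omit [Fintype F] in
theorem aeval_end_apply {V : Type} [AddCommGroup V] [Module F V] (φ : Module.End F V) (a : F[X])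
    (x : V) : aeval φ a x = a.sum fun n c => c • (φ ^ n) x := by
  rw [aeval_eq_sum_range, sum_over_range _ (by simp), LinearMap.sum_apply]
  simp only [LinearMap.smul_apply]

omit [Fintype F] in
theorem phiA_eq (φ : Module.End F (Fin d → K)) (a : F[X]) (x : Fin d → K) :
    phiA φ a x = aeval φ a x := by
  simp only [phiA, aeval_end_apply, Module.End.pow_apply]

end ph

end Pool.Agent.P.MP_e5b57f_nt.TM
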