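import Pool.Agent.P.MP_e5b57f_nt.TM.BaseT

/-! Levels at `t = ∞`, pure families, and the ambient fields. -/

namespace Pool.Agent.P.MP_e5b57f_nt.TM

open Polynomial WithZero
open scoped Matrix Pointwise IntermediateField

section lv
variable {k A : Type} [Field k] [CommRing A]

/-- Sums of `i o * x` with `x ∈ y` and `log |o| ≤ n`. -/
inductive Lv (i : k →+* A) (w : Valuation k ℤᵐ⁰) (y : Set A) (n : ℤ) : A → Prop
  | zero : Lv i w y n 0
  | add {a b : A} : Lv i w y n a → Lv i w y n b → Lv i w y n (a + b)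
  | gen {o : k} {x : A} : x ∈ y → w o ≤ exp n → Lv i w y n (i o * x)

namespace Lv
variable {i : k →+* A} {w : Valuation k ℤᵐ⁰} {y z : Set A} {m n : ℤ} {a b : A}

theorem of_mem (h : a ∈ y) : Lv i w y 0 a := by
  simpa using Lv.gen (i := i) (w := w) (n := 0) (o := 1) h (by simp)

theorem mono (h : Lv i w y m a) (hm : m ≤ n) : Lv i w y n a := by
  induction h with
  | zero => exact zero
  | add _ _ h h' => exact add h h'
  | gen hx ho => exact gen hx (ho.trans (exp_le_exp.2 hm))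

theorem smul {c : k} (hc : w c ≤ exp m) (h : Lv i w y n a) : Lv i w y (m + n) (i c * a) := by
  induction h with
  | zero => rw [mul_zero]; exact zero
  | add _ _ h h' => rw [mul_add]; exact add h h'
  | gen hx ho =>
    rw [← mul_assoc, ← map_mul]
    exact gen hx (by rw [map_mul, exp_add]; exact mul_le_mul' hc ho)

theorem neg (h : Lv i w y n a) : Lv i w y n (-a) := by
  simpa using h.smul (c := -1) (m := 0) (by simp)

theorem sub (h : Lv i w y n a) (h' : Lv i w y n b) : Lv i w y n (a - b) := by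
  rw [sub_eq_add_neg]; exact h.add h'.neg

theorem sum {ι : Type*} {S : Finset ι} {f : ι → A} (h : ∀ j ∈ S, Lv i w y n (f j)) :
    Lv i w y n (∑ j ∈ S, f j) :=
  Finset.sum_induction f _ (fun _ _ => add) zero h

/-- Image under a semilinear map. -/
theorem map {A' : Type} [CommRing A'] {i' : k →+* A'} {z : Set A'} (f : A →+ A') (r : k → k)
    (hf : ∀ o x, f (i o * x) = i' (r o) * f x) (hr : ∀ o, w (r o) = w o)
    (hy : ∀ x ∈ y, Lv i' w z m (f x)) (h : Lv i w y n a) : Lv i' w z (n + m) (f a) := by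
  induction h with
  | zero => rw [map_zero]; exact zero
  | add _ _ h h' => rw [map_add]; exact add h h'
  | gen hx ho => rw [hf]; exact (hy _ hx).smul (by rw [hr]; exact ho)

theorem bind (hy : ∀ x ∈ y, Lv i w z m x) (h : Lv i w y n a) : Lv i w z (n + m) a :=
  h.map (AddMonoidHom.id A) id (fun _ _ => rfl) (fun _ => rfl) hy

theorem subset (hy : y ⊆ z) (h : Lv i w y n a) : Lv i w z n a := by
  simpa using h.bind (m := 0) fun x hx => of_mem (hy hx)

theorem mul (h : Lv i w y m a) (h' : Lv i w z n b) : Lv i w (y * z) (m + n) (a * b) := by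
  induction h with
  | zero => rw [zero_mul]; exact zero
  | add _ _ h h' => rw [add_mul]; exact add h h'
  | gen hx ho =>
    rw [mul_assoc]
    refine smul ho ?_
    simpa using h'.map (i' := i) (m := 0) (AddMonoidHom.mulLeft _) id
      (fun o x => mul_left_comm _ _ _) (fun _ => rfl) fun x' hx' => of_mem (Set.mul_mem_mul hx hx')

theorem range_iff {J : Type} [Fintype J] {g : J → A} :
    Lv i w (Set.range g) n a ↔ ∃ o : J → k, (∀ j, w (o j) ≤ exp n) ∧ a = ∑ j, i (o j) * g j := by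
  classical
  refine ⟨fun h => ?_, ?_⟩
  · induction h with
    | zero => exact ⟨0, by simp, by simp⟩
    | add _ _ h h' =>
      obtain ⟨o, ho, rfl⟩ := h
      obtain ⟨o', ho', rfl⟩ := h'
      exact ⟨o + o', fun j => w.map_add_le (ho j) (ho' j), by
        simp [add_mul, Finset.sum_add_distrib]⟩
    | @gen o x hx ho =>
      obtain ⟨j, rfl⟩ := hx
      refine ⟨Pi.single j o, fun l => ?_, ?_⟩
      · by_cases e : l = j
        · rw [e, Pi.single_eq_same]; exact ho
        · rw [Pi.single_eq_of_ne e, map_zero]; exact zero_le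
      · rw [Finset.sum_eq_single j (fun l _ e => by simp [e]) (by simp), Pi.single_eq_same]
  · rintro ⟨o, ho, rfl⟩
    exact sum fun j _ => gen ⟨j, rfl⟩ (ho j)

end Lv

theorem exists_le_exp (x : ℤᵐ⁰) : ∃ n : ℤ, x ≤ exp n := by
  by_cases h : x = 0
  · exact ⟨0, h ▸ zero_le⟩
  · exact ⟨_, (exp_log h).ge⟩

/-- `r` multiplies the lattice spanned by `y` by `t ^ a`. -/
def Pure (i : k →+* A) (w : Valuation k ℤᵐ⁰) (r : A ≃+* A) (a : ℤ) (y : Set A) : Prop :=
  ∀ x ∈ y, Lv i w y a (r x) ∧ Lv i w y (-a) (r.symm x)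

theorem Pure.one (i : k →+* A) (w : Valuation k ℤᵐ⁰) (r : A ≃+* A) : Pure i w r 0 {1} := by
  rintro x rfl
  rw [map_one, map_one, neg_zero]
  exact ⟨Lv.of_mem rfl, Lv.of_mem rfl⟩

theorem Pure.mul {i : k →+* A} {w : Valuation k ℤᵐ⁰} {r : A ≃+* A} {a b : ℤ} {y z : Set A}
    (h : Pure i w r a y) (h' : Pure i w r b z) : Pure i w r (a + b) (y * z) := by
  rintro _ ⟨x, hx, x', hx', rfl⟩
  rw [map_mul, map_mul, neg_add]
  exact ⟨(h x hx).1.mul (h' x' hx').1, (h x hx).2.mul (h' x' hx').2⟩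

/-- A twist on `k` and on a `k`-algebra. -/
structure Tw (i : k →+* A) (w : Valuation k ℤᵐ⁰) (rk : k ≃+* k) (r : A ≃+* A) : Prop where
  comm : ∀ x, r (i x) = i (rk x)
  val : ∀ x, w (rk x) = w x

theorem Tw.symm {i : k →+* A} {w : Valuation k ℤᵐ⁰} {rk : k ≃+* k} {r : A ≃+* A}
    (h : Tw i w rk r) : Tw i w rk.symm r.symm :=
  ⟨fun x => by rw [r.symm_apply_eq, h.comm, rk.apply_symm_apply],
    fun x => by rw [← h.val, rk.apply_symm_apply]⟩

theorem Tw.pow {i : k →+* A} {w : Valuation k ℤᵐ⁰} {rk : k ≃+* k} {r : A ≃+* A}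
    (h : Tw i w rk r) (n : ℕ) : Tw i w (rk ^ n) (r ^ n) := by
  induction n with
  | zero => exact ⟨fun _ => rfl, fun _ => rfl⟩
  | succ n ih =>
    rw [pow_succ, pow_succ]
    exact ⟨fun x => by rw [RingAut.mul_apply, RingAut.mul_apply, h.comm, ih.comm],
      fun x => by rw [RingAut.mul_apply, ih.val, h.val]⟩

theorem Tw.lv {i : k →+* A} {w : Valuation k ℤᵐ⁰} {rk : k ≃+* k} {r : A ≃+* A}
    (h : Tw i w rk r) {y z : Set A} {m n : ℤ} {a : A} (hy : ∀ x ∈ y, Lv i w z m (r x))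
    (ha : Lv i w y n a) : Lv i w z (n + m) (r a) :=
  ha.map r.toRingHom.toAddMonoidHom rk
    (fun o x => (map_mul r _ _).trans (by rw [h.comm]; rfl)) h.val hy

variable {d s : ℕ}

/-- The equation of a tower in a `k`-algebra with a twist. -/
def TowA (i : k →+* A) (r : A ≃+* A) (π : k) (E : Fin (s + 1) → Matrix (Fin d) (Fin d) k)
    (Q : Fin d → k) (g : Fin d → A) : Prop :=
  ∀ a, i π * g a + i (Q a) = ∑ l, ∑ b, i (E l a b) * r^[l.val + 1] (g b)

def twA (s : ℕ) (r : A ≃+* A) (g : Fin d → A) (p : Fin (s + 1) × Fin d) : A :=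
  r^[p.1.val] (g p.2)

end lv

/-- `k = Ω(t)`, with its expansions `iL` at `t = 0` and `iM` at `t = ∞`. -/
structure Ctx (F : Type) [Field F] [Fintype F] (k M : Type) [Field k] [Field M] where
  iL : k →+* M
  iM : k →+* M
  v : Valuation M ℤᵐ⁰
  sk : k ≃+* k
  sM : M ≃+* M
  t : k
  c : KI F →+* k
  j : T F →+* M
  ge : (ℕ → KI F) →+ M
  sM_iL : ∀ x, sM (iL x) = iL (sk x)
  sM_iM : ∀ x, sM (iM x) = iM (sk x)
  v_sM : ∀ x, v (sM x) = v x
  v_c : ∀ x, v (iM (c x)) ≤ 1
  v_t : ∀ x, v (iM (t - c x)) = exp 1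
  j_inj : Function.Injective j
  j_sT : ∀ x, j (sT F x) = sM (j x)
  j_cT : ∀ x, j (cT F x) = iL (c x)
  j_tt : j (tt F) = iL t
  ge_smul : ∀ (a : KI F) x, ge (a • x) = iM (c a) * ge x
  sM_ge : ∀ x, sM (ge x) = ge (x ^ Fintype.card F)
  t_ge : ∀ x, iM t * ge x = iM (c (x 0)) + ge fun n => x (n + 1)
  ext : ∀ (J : Type) [Fintype J] (x : J → ℕ → KI F) (a : J → k) (γ : k), a ≠ 0 →
    ∑ b, iM (a b) * ge (x b) + iM γ = 0 →
    ∃ p : J → (KI F)[X], p ≠ 0 ∧ ∀ n, ∑ b, (p b).sum (fun l u => u * x b (n + l)) = 0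

namespace Ctx
variable {F k M : Type} [Field F] [Fintype F] [Field k] [Field M] (X : Ctx F k M) {d s : ℕ}

/-- The size at `t = ∞`. -/
noncomputable def w : Valuation k ℤᵐ⁰ := X.v.comap X.iM

theorem w_apply (x : k) : X.w x = X.v (X.iM x) := rfl

theorem twL : Tw X.iL X.w X.sk X.sM :=
  ⟨X.sM_iL, fun x => by rw [w_apply, ← X.sM_iM, X.v_sM, w_apply]⟩

theorem twM : Tw X.iM X.w X.sk X.sM := ⟨X.sM_iM, X.twL.val⟩

noncomputable def pi : k := X.t - X.c (th F ^ Fintype.card F)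

noncomputable def eK (E : Fin (s + 1) → Matrix (Fin d) (Fin d) (KI F)) (l : Fin (s + 1)) :
    Matrix (Fin d) (Fin d) k := (E l).map fun x => X.c (x ^ Fintype.card F)

noncomputable def qK (Q : Fin d → KI F) (a : Fin d) : k := X.c (Q a ^ Fintype.card F)

/-- Families that are good over `κ[t]` and pure at `t = ∞`. -/
def Adm (κ : Subfield (KI F)) (s : ℕ) (y : Set (T F)) : Prop :=
  Good κ y ∧ ∃ a, Pure X.iL X.w (X.sM ^ (s + 1)) a (X.j '' y)

end Ctx

end Pool.Agent.P.MP_e5b57f_nt.TM
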