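import Pool.Agent.P.MP_e5b57f_nt.TM.Base

/-! Series in `t` that converge at `t = θ`, the twist, good families, levels. -/

namespace Pool.Agent.P.MP_e5b57f_nt.TM

open Polynomial WithZero
open scoped Matrix Pointwise IntermediateField

section ta
variable {F : Type} [Field F]

/-- Power series with `log |c_n| ≤ C - 2 n`. -/
def TA (F : Type) [Field F] : Subalgebra (KI F) (PowerSeries (KI F)) where
  carrier := {x | ∃ C : ℤ, ∀ n : ℕ, Bd (PowerSeries.coeff n x) (C - 2 * n)}
  mul_mem' := by
    rintro x y ⟨C, hC⟩ ⟨D, hD⟩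
    refine ⟨C + D, fun n => ?_⟩
    rw [PowerSeries.coeff_mul]
    refine Bd.sum fun p hp => ((hC p.1).mul (hD p.2)).mono ?_
    rw [← Finset.HasAntidiagonal.mem_antidiagonal.1 hp]; push_cast; omega
  add_mem' := by
    rintro x y ⟨C, hC⟩ ⟨D, hD⟩
    refine ⟨max C D, fun n => ?_⟩
    rw [map_add]
    exact ((hC n).mono (by omega)).add ((hD n).mono (by omega))
  algebraMap_mem' c := by
    obtain ⟨C, hC⟩ := exists_bd c
    refine ⟨C, fun n => ?_⟩
    rw [PowerSeries.algebraMap_apply, PowerSeries.coeff_C]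
    split_ifs with h
    · simpa [h] using hC
    · exact Bd.zero _

abbrev T (F : Type) [Field F] : Type := TA F

/-- Constants. -/
noncomputable abbrev cT (F : Type) [Field F] : KI F →+* T F := algebraMap (KI F) (T F)

/-- The coefficient of `t ^ n`. -/
noncomputable def cf (n : ℕ) : T F →ₗ[KI F] KI F :=
  (PowerSeries.coeff n).comp (TA F).val.toLinearMap

theorem cf_def (n : ℕ) (x : T F) : cf n x = PowerSeries.coeff n (x : PowerSeries (KI F)) := rfl

theorem cf_ext {x y : T F} (h : ∀ n, cf n x = cf n y) : x = y :=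
  Subtype.ext (PowerSeries.ext h)

theorem cf_bd (x : T F) : ∃ C : ℤ, ∀ n : ℕ, Bd (cf n x) (C - 2 * n) := x.2

theorem exists_T (c : ℕ → KI F) (C : ℤ) (h : ∀ n : ℕ, Bd (c n) (C - 2 * n)) :
    ∃ x : T F, ∀ n, cf n x = c n :=
  ⟨⟨PowerSeries.mk c, C, fun n => by rw [PowerSeries.coeff_mk]; exact h n⟩,
    fun n => PowerSeries.coeff_mk n c⟩

theorem cf_mul (n : ℕ) (x y : T F) :
    cf n (x * y) = ∑ p ∈ Finset.HasAntidiagonal.antidiagonal n, cf p.1 x * cf p.2 y :=
  PowerSeries.coeff_mul n x.1 y.1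

theorem cf_cT (n : ℕ) (c : KI F) : cf n (cT F c) = if n = 0 then c else 0 :=
  PowerSeries.coeff_C n c

theorem cf_cT_mul (n : ℕ) (c : KI F) (x : T F) : cf n (cT F c * x) = c * cf n x := by
  rw [← Algebra.smul_def, map_smul, smul_eq_mul]

noncomputable def tt (F : Type) [Field F] : T F :=
  ⟨PowerSeries.X, 2, fun n => by
    rw [PowerSeries.coeff_X]
    split_ifs with h
    · simpa [h] using Bd.one
    · exact Bd.zero _⟩

theorem cf_succ_tt_mul (n : ℕ) (x : T F) : cf (n + 1) (tt F * x) = cf n x :=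
  PowerSeries.coeff_succ_X_mul n x.1

theorem cf_zero_tt_mul (x : T F) : cf 0 (tt F * x) = 0 := PowerSeries.coeff_zero_X_mul x.1

theorem cf_tt_pow (n k : ℕ) : cf n (tt F ^ k) = if n = k then 1 else 0 :=
  PowerSeries.coeff_X_pow n k

/-- Evaluation at `t = θ`. -/
def IsEv (ev : T F →ₐ[KI F] KI F) : Prop :=
  ev (tt F) = th F ∧ ∀ (x : T F) (C : ℤ), (∀ n : ℕ, Bd (cf n x) (C - 2 * n)) →
    ∀ N : ℕ, Bd (ev x - ∑ n ∈ Finset.range N, cf n x * th F ^ n) (C - N)

/-- `F[t][θ]`: the outer variable is `θ`, the inner one is `t`. -/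
abbrev R0 (F : Type) [Field F] : Type := Polynomial (Polynomial F)

noncomputable def io (F : Type) [Field F] : R0 F →+* T F :=
  eval₂RingHom (eval₂RingHom ((cT F).comp (algebraMap F (KI F))) (tt F)) (cT F (th F))

theorem io_X : io F X = cT F (th F) := by simp [io]
theorem io_C_X : io F (C X) = tt F := by simp [io]
theorem io_C_C (c : F) : io F (C (C c)) = cT F (algebraMap F (KI F) c) := by simp [io]

theorem io_map_C (p : F[X]) : io F (p.map C) = cT F (aeval (th F) p) := by
  have : (io F).comp (mapRingHom C) = (cT F).comp (aeval (th F)).toRingHom := by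
    ext <;> simp [io]
  exact DFunLike.congr_fun this p

theorem IsEv.io {ev : T F →ₐ[KI F] KI F} (h : IsEv ev) (p : R0 F) :
    ev (io F p) = aeval (th F) (p.eval X) := by
  have : ev.toRingHom.comp (TM.io F) = (aeval (th F)).toRingHom.comp (evalRingHom X) := by
    ext <;> simp [TM.io, h.1]
  exact DFunLike.congr_fun this p

/-- The coefficient of `t ^ n` as a polynomial in `θ`. -/
noncomputable def tc (n : ℕ) (p : R0 F) : F[X] := p.sum fun m a => monomial m (a.coeff n)

theorem coeff_tc (n m : ℕ) (p : R0 F) : (tc n p).coeff m = (p.coeff m).coeff n := by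
  rw [tc, Polynomial.sum, finsetSum_coeff, Finset.sum_eq_single m]
  · simp
  · intro b _ hb; simp [coeff_monomial, hb]
  · intro h; simp [notMem_support_iff.1 h]

theorem natDegree_tc (n : ℕ) (p : R0 F) : (tc n p).natDegree ≤ p.natDegree :=
  natDegree_le_iff_coeff_eq_zero.2 fun m hm => by
    rw [coeff_tc, coeff_eq_zero_of_natDegree_lt hm, coeff_zero]

theorem cf_io (n : ℕ) (p : R0 F) : cf n (io F p) = aeval (th F) (tc n p) := by
  induction p using Polynomial.induction_on' with
  | add p q hp hq =>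
    have : tc n (p + q) = tc n p + tc n q := by ext; simp [coeff_tc]
    rw [map_add, map_add, hp, hq, this, map_add]
  | monomial k a =>
    have : tc n (monomial k a) = monomial k (a.coeff n) := by
      ext m; rw [coeff_tc, coeff_monomial, coeff_monomial]; split_ifs <;> simp
    rw [this, aeval_monomial, ← C_mul_X_pow_eq_monomial, map_mul, map_pow, io_X, ← map_pow,
      mul_comm, cf_cT_mul, mul_comm]
    congr 1
    clear this
    induction a using Polynomial.induction_on' with
    | add p q hp hq => rw [map_add, map_add, map_add, hp, hq, coeff_add, map_add]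
    | monomial j c =>
      rw [← C_mul_X_pow_eq_monomial, map_mul, map_mul, map_pow, map_pow, io_C_C, io_C_X, cf_cT_mul,
        cf_tt_pow, coeff_C_mul, coeff_X_pow]
      split_ifs <;> simp

theorem io_injective : Function.Injective (io F) := by
  intro p q h
  ext m n
  rw [← coeff_tc, ← coeff_tc, aeval_th_injective ((cf_io n p).symm.trans (h ▸ cf_io n q))]

/-- `κ[t]`. -/
noncomputable def RR (κ : Subfield (KI F)) : Subring (T F) :=
  Subring.closure (insert (tt F) (cT F '' κ))

theorem tt_mem_RR (κ : Subfield (KI F)) : tt F ∈ RR κ := Subring.subset_closure (Or.inl rfl)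

theorem cT_mem_RR {κ : Subfield (KI F)} {c : KI F} (h : c ∈ κ) : cT F c ∈ RR κ :=
  Subring.subset_closure (Or.inr ⟨c, h, rfl⟩)

theorem RR_mono {κ κ' : Subfield (KI F)} (h : κ ≤ κ') : RR κ ≤ RR κ' :=
  Subring.closure_mono (Set.insert_subset_insert (Set.image_mono h))

/-- The `κ[t]`-span. -/
noncomputable abbrev Sp (κ : Subfield (KI F)) (y : Set (T F)) : Submodule (RR κ) (T F) :=
  Submodule.span (RR κ) y

theorem Sp.mul_mem {κ : Subfield (KI F)} {y : Set (T F)} {r x : T F} (hr : r ∈ RR κ)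
    (hx : x ∈ Sp κ y) : r * x ∈ Sp κ y := (Sp κ y).smul_mem ⟨r, hr⟩ hx

/-- `F(θ)`. -/
noncomputable abbrev K0 (F : Type) [Field F] : IntermediateField F (KI F) := F⟮th F⟯

theorem aeval_mem_K0 (p : F[X]) : aeval (th F) p ∈ K0 F :=
  IntermediateField.algebra_adjoin_le_adjoin F _ (aeval_mem_adjoin_singleton F _)

theorem th_mem_K0 : th F ∈ K0 F := IntermediateField.mem_adjoin_simple_self F _

theorem io_mem_RR (p : R0 F) : io F p ∈ RR (K0 F).toSubfield := by
  induction p using Polynomial.induction_on with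
  | C a =>
    induction a using Polynomial.induction_on with
    | C c => rw [io_C_C]; exact cT_mem_RR ((K0 F).algebraMap_mem c)
    | add p q hp hq => rw [map_add, map_add]; exact add_mem hp hq
    | monomial n c ih =>
      rw [pow_succ, ← mul_assoc, map_mul, map_mul, io_C_X]; exact mul_mem ih (tt_mem_RR _)
  | add p q hp hq => rw [map_add]; exact add_mem hp hq
  | monomial n c ih =>
    rw [pow_succ, ← mul_assoc, map_mul, io_X]; exact mul_mem ih (cT_mem_RR th_mem_K0)

theorem Sp.mul {κ : Subfield (KI F)} {y z : Set (T F)} {a b : T F} (ha : a ∈ Sp κ y)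
    (hb : b ∈ Sp κ z) : a * b ∈ Sp κ (y * z) := by
  rw [Sp, ← Submodule.span_mul_span]; exact Submodule.mul_mem_mul ha hb

variable [Fintype F]

/-- The twist: `q`-th power of the coefficients. -/
noncomputable def sT (F : Type) [Field F] [Fintype F] : T F →+* T F :=
  ((PowerSeries.map (frn F (KI F) 1).toRingHom).comp (TA F).val.toRingHom).codRestrict (TA F)
    fun x => by
      obtain ⟨C, hC⟩ := x.2
      refine ⟨(Fintype.card F ^ 1 : ℕ) * C, fun n => ?_⟩
      have h := (hC n).pow (Fintype.card F ^ 1)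
      rw [← frn_apply] at h
      refine h.mono ?_
      have := two_le_card (F := F)
      push_cast; nlinarith

theorem cf_sT (n : ℕ) (x : T F) : cf n (sT F x) = cf n x ^ Fintype.card F :=
  (frn_apply 1 (cf n x)).trans (by rw [pow_one])

theorem cf_sT_iter (n k : ℕ) (x : T F) : cf n ((sT F)^[k] x) = cf n x ^ Fintype.card F ^ k := by
  induction k with
  | zero => simp
  | succ k ih => rw [Function.iterate_succ_apply', cf_sT, ih, ← pow_mul, pow_succ]

theorem sT_cT (c : KI F) : sT F (cT F c) = cT F (c ^ Fintype.card F) :=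
  cf_ext fun n => by
    rw [cf_sT, cf_cT, cf_cT]; split_ifs
    · rfl
    · exact zero_pow Fintype.card_ne_zero

theorem sT_tt : sT F (tt F) = tt F :=
  cf_ext fun n => by
    rw [cf_sT, ← pow_one (tt F), cf_tt_pow]; split_ifs
    · exact one_pow _
    · exact zero_pow Fintype.card_ne_zero

theorem sT_io (p : R0 F) : sT F (io F p) = io F (expand F[X] (Fintype.card F) p) := by
  have : (sT F).comp (io F) = (io F).comp (expand F[X] (Fintype.card F)).toRingHom := by
    ext
    · simp [io_C_C, sT_cT, ← map_pow, FiniteField.pow_card]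
    · simp [io_C_X, sT_tt]
    · simp [io_X, sT_cT]
  exact DFunLike.congr_fun this p

theorem sT_iter_io (k : ℕ) (p : R0 F) :
    (sT F)^[k] (io F p) = io F (expand F[X] (Fintype.card F ^ k) p) := by
  induction k with
  | zero => simp
  | succ k ih => rw [Function.iterate_succ_apply', ih, sT_io, expand_expand, pow_succ']

theorem sT_mem_RR {κ : Subfield (KI F)} {r : T F} (h : r ∈ RR κ) : sT F r ∈ RR κ := by
  refine (Subring.closure_le (t := (RR κ).comap (sT F))).2 ?_ h
  rintro x (rfl | ⟨c, hc, rfl⟩)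
  · show sT F _ ∈ RR κ
    rw [sT_tt]; exact tt_mem_RR κ
  · show sT F _ ∈ RR κ
    rw [sT_cT]; exact cT_mem_RR (κ.pow_mem hc _)

theorem Sp.sT_mem {κ : Subfield (KI F)} {y z : Set (T F)} (h : ∀ x ∈ y, sT F x ∈ Sp κ z) {x : T F}
    (hx : x ∈ Sp κ y) : sT F x ∈ Sp κ z := by
  induction hx using Submodule.span_induction with
  | mem x hx => exact h x hx
  | zero => simp
  | add x y _ _ hx hy => rw [map_add]; exact add_mem hx hy
  | smul r x _ hx =>
    have : sT F (r • x) = sT F r * sT F x := map_mul (sT F) (r : T F) x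
    rw [this]; exact Sp.mul_mem (sT_mem_RR r.2) hx

/-- Finite families whose span is stable under the twist and, up to a power of `t - θ^q`, under
its inverse. -/
def Good (κ : Subfield (KI F)) (y : Set (T F)) : Prop :=
  y.Finite ∧ (∀ x ∈ y, sT F x ∈ Sp κ y) ∧
    ∃ e : ℕ, ∀ x ∈ y, (tt F - cT F (th F ^ Fintype.card F)) ^ e * x ∈ Sp κ (sT F '' y)

variable {d s : ℕ}

/-- The exponential map. -/
structure IsExp (φ e : Module.End F (Fin d → KI F)) (ρ : ℤ) : Prop where
  fe : ∀ z, e (th F • z) = φ (e z)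
  near : ∀ z n, n ≤ ρ → BdV z n → BdV (e z - z) (2 * n - ρ - 1)
  onto : ∀ y, BdV y ρ → ∃ z, BdV z ρ ∧ e z = y

omit [Fintype F] in
theorem IsExp.aeval_smul {φ e : Module.End F (Fin d → KI F)} {ρ : ℤ} (h : IsExp φ e ρ) (a : F[X])
    (z : Fin d → KI F) : e (aeval (th F) a • z) = aeval φ a (e z) := by
  induction a using Polynomial.induction_on with
  | C c => rw [aeval_C, aeval_C, algebraMap_smul, map_smul, Module.algebraMap_end_apply]
  | add p q hp hq => rw [map_add, map_add, add_smul, map_add, hp, hq, LinearMap.add_apply]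
  | monomial n c ih =>
    rw [pow_succ, ← mul_assoc, mul_comm _ X, map_mul, map_mul (aeval φ), aeval_X, aeval_X, mul_smul,
      h.fe, ih, Module.End.mul_apply]

omit [Fintype F] in
theorem IsExp.bd {φ e : Module.End F (Fin d → KI F)} {ρ : ℤ} (h : IsExp φ e ρ) {z : Fin d → KI F}
    {n : ℤ} (hn : n ≤ ρ) (hz : BdV z n) : BdV (e z) n := by
  simpa using ((h.near z n hn hz).mono (n := n) (by omega)).add hz

/-- `Q` has a logarithm in a proper subspace spanned by periods. -/
def Deg (e : Module.End F (Fin d → KI F)) (Q : Fin d → KI F) : Prop :=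
  ∃ (u : Fin d → KI F) (Λ : Finset (Fin d → KI F)), (∀ l ∈ Λ, e l = 0) ∧
    Submodule.span (KI F) (Λ : Set (Fin d → KI F)) ≠ ⊤ ∧
    u ∈ Submodule.span (KI F) (Λ : Set (Fin d → KI F)) ∧ e u = Q

/-- The once twisted equation `φ f = t f + Q` for `g = σ f`. -/
def TowEq (E : Fin (s + 1) → Matrix (Fin d) (Fin d) (KI F)) (Q : Fin d → KI F)
    (g : Fin d → T F) : Prop :=
  ∀ i, (tt F - cT F (th F ^ Fintype.card F)) * g i + cT F (Q i ^ Fintype.card F) =
    ∑ l, ∑ j, cT F (E l i j ^ Fintype.card F) * (sT F)^[l.val + 1] (g j)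

/-- `(θ - t) f`, whose value at `t = θ` is the logarithm. -/
noncomputable def towU (E : Fin (s + 1) → Matrix (Fin d) (Fin d) (KI F)) (Q : Fin d → KI F)
    (g : Fin d → T F) (i : Fin d) : T F :=
  cT F (Q i) - ∑ l, ∑ j, cT F (E l i j) * (sT F)^[l.val] (g j)

/-- The twists `σ^l g_i`, `0 ≤ l ≤ s`. -/
noncomputable def tw (s : ℕ) (g : Fin d → T F) (p : Fin (s + 1) × Fin d) : T F :=
  (sT F)^[p.1.val] (g p.2)

end ta

end Pool.Agent.P.MP_e5b57f_nt.TM
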