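import Mathlib

/-! Strictly pure Anderson t-modules whose Lie action is scalar. -/

namespace Pool.Agent.P.MP_e5b57f_nt.TM

open Polynomial
open scoped Matrix

variable {K : Type} [Field K] {d s : ℕ}

/-- The action of the variable: `x ↦ θ x + E₁ x^(q) + ... + E_(s+1) x^(q^(s+1))`. -/
def phi (q : ℕ) (θ : K) (E : Fin (s + 1) → Matrix (Fin d) (Fin d) K) (x : Fin d → K) :
    Fin d → K :=
  θ • x + ∑ l, E l *ᵥ fun i => x i ^ q ^ (l.val + 1)

/-- The action of a polynomial `a`: `a(φ) x`. -/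
noncomputable def phiA {F : Type} [Field F] [Algebra F K] (φ : (Fin d → K) → Fin d → K)
    (a : F[X]) (x : Fin d → K) : Fin d → K :=
  a.sum fun n c => c • φ^[n] x

/-- The `𝔽_q`-linear polynomial functions on `K^d`. -/
def Pol (K : Type) [Field K] (q d : ℕ) : Submodule K ((Fin d → K) → K) :=
  Submodule.span K {m | ∃ i j, m = fun x => x i ^ q ^ j}

/-- No `φ`-stable `𝔽_q`-linear algebraic subgroup over `K` of dimension `1, ..., d - 1`:
a `φ`-stable module of equations is zero or has finite codimension. -/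
def Simple (q : ℕ) (φ : (Fin d → K) → Fin d → K) : Prop :=
  ∀ N : Submodule K ((Fin d → K) → K), N ≤ Pol K q d → (∀ m ∈ N, m ^ q ∈ N) →
    (∀ m ∈ N, m ∘ φ ∈ N) → N = ⊥ ∨ FiniteDimensional K (Pol K q d ⧸ N.submoduleOf (Pol K q d))

end Pool.Agent.P.MP_e5b57f_nt.TM
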