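import Pool.Agent.P.MP_e5b57f_nt.TM.BaseL
import Pool.Agent.P.MP_e5b57f_nt.TM.IfaceA

/-! Statements: slopes at `t = ∞`, the relation, the end of the proof. -/

open Polynomial WithZero
open scoped Matrix Pointwise IntermediateField Topology

namespace Pool.Agent.P.MP_e5b57f_nt.TM

-- deps:
def Z_CTX : Prop := ∀ (F : Type) [Field F] [Fintype F],
  ∃ (k M : Type) (_ : Field k) (_ : Field M), Nonempty (Ctx F k M)

-- deps:
def Z_PURM : Prop := ∀ (k A : Type) [Field k] [CommRing A] (i : k →+* A) (w : Valuation k ℤᵐ⁰)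
  (rk : k ≃+* k) (r : A ≃+* A) (d s : ℕ) (π : k) (E : Fin (s + 1) → Matrix (Fin d) (Fin d) k)
  (Q : Fin d → k) (g : Fin d → A) (I : Ideal k), Tw i w rk r → w π = exp 1 →
  (∀ l a b, w (E l a b) ≤ 1) → (∀ x ∈ I, rk.symm x ∈ I) → (∀ a, Q a ∈ I) → TowA i r π E Q g →
  ∀ p, ∃ b ∈ I, Lv i w (Set.range (twA s r g)) (-1) ((r ^ (s + 1)).symm (twA s r g p) - i b)

-- deps: Z_PURM
def Z_PURH : Prop := ∀ (k A : Type) [Field k] [CommRing A] (i : k →+* A) (w : Valuation k ℤᵐ⁰)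
  (rk : k ≃+* k) (r : A ≃+* A) (d s : ℕ) (π : k) (E : Fin (s + 1) → Matrix (Fin d) (Fin d) k)
  (E' : Matrix (Fin d) (Fin d) k) (g : Fin d → A), Tw i w rk r → w π = exp 1 →
  (∀ l a b, w (E l a b) ≤ 1) → (∀ a b, w (E' a b) ≤ 1) → E' * E (Fin.last s) = 1 →
  TowA i r π E 0 g → Pure i w (r ^ (s + 1)) 1 (Set.range (twA s r g))

-- deps:
def Z_SLB : Prop := ∀ (k L : Type) [Field k] [Field L] (i : k →+* L) (w : Valuation k ℤᵐ⁰)
  (y : Set L) (J : Type) [Fintype J] (g : J → L), y.Finite → ∃ c : ℤ, ∀ (C : J → L) (n m : ℤ),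
    (∀ b, Lv i w y n (C b)) → Lv i w y m (∑ b, C b * g b) → Lv i w y (n + c) (∑ b, C b * g b)

-- deps: Z_SLB
def Z_SL : Prop := ∀ (k L M : Type) [Field k] [Field L] [Field M] (iL : k →+* L) (iM : k →+* M)
  (v : Valuation M ℤᵐ⁰) (rk : k ≃+* k) (rL : L ≃+* L) (rM : M ≃+* M) (y : Set L) (a : ℤ)
  (J : Type) [Fintype J] (g : J → L) (g' : J → M) (A : J → J → k) (b : J → k) (C : J → L) (C₀ : L)
  (n : ℤ), Tw iL (v.comap iM) rk rL → Tw iM (v.comap iM) rk rM → (∀ x, v (rM x) = v x) →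
  y.Finite → Pure iL (v.comap iM) rL a y → (∀ p p', v (iM (A p p')) ≤ exp (-1)) →
  (∀ p, rL.symm (g p) = ∑ p', iL (A p p') * g p' + iL (b p)) →
  (∀ p, rM.symm (g' p) = ∑ p', iM (A p p') * g' p' + iM (b p)) →
  (∀ p, Lv iL (v.comap iM) y n (C p)) → Lv iL (v.comap iM) y n C₀ → C ≠ 0 →
  ∑ p, C p * g p + C₀ = 0 → ∃ (c : J → k) (γ : k), c ≠ 0 ∧ ∑ p, iM (c p) * g' p + iM γ = 0

-- deps:
def Z_TWL : Prop := ∀ (F k M : Type) [Field F] [Fintype F] [Field k] [Field M] (X : Ctx F k M),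
  (∀ (d s : ℕ) (E : Fin (s + 1) → Matrix (Fin d) (Fin d) (KI F)) (Q : Fin d → KI F)
    (g : Fin d → T F), TowEq E Q g → TowA X.iL X.sM X.pi (X.eK E) (X.qK Q) (fun a => X.j (g a)) ∧
      ∀ p, twA s X.sM (fun a => X.j (g a)) p = X.j (tw s g p)) ∧
  ∀ (κ : Subfield (KI F)) (y : Set (T F)), ∀ x ∈ Sp κ y, ∃ n, Lv X.iL X.w (X.j '' y) n (X.j x)

-- deps:
def Z_TWM : Prop := ∀ (F k M : Type) [Field F] [Fintype F] [Field k] [Field M] (X : Ctx F k M)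
  (d s : ℕ) (E : Fin (s + 1) → Matrix (Fin d) (Fin d) (KI F)) (Q : Fin d → KI F),
  ∃ g : Fin d → M, TowA X.iM X.sM X.pi (X.eK E) (X.qK Q) g ∧ ∀ p, twA s X.sM g p =
    -X.ge fun n => (phi (Fintype.card F) (th F) E)^[n] Q p.2 ^ Fintype.card F ^ (p.1.val + 1)

-- deps: Z_AGF Z_GOODT Z_TWL Z_PURH
def Z_ADM : Prop := ∀ (F k M : Type) [Field F] [Fintype F] [Field k] [Field M] (X : Ctx F k M)
  (d s : ℕ) (κ : Subfield (KI F)) (E : Fin (s + 1) → Matrix (Fin d) (Fin d) (KI F))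
  (e : Module.End F (Fin d → KI F)) (ρ : ℤ) (ev : T F →ₐ[KI F] KI F) (l : Fin d → KI F),
  th F ∈ κ → (∀ l i j, E l i j ∈ κ) → (E (Fin.last s)).det ≠ 0 → IsExp (phiL F (th F) E) e ρ →
  IsEv ev → e l = 0 → ∃ y, X.Adm κ s y ∧ ∀ i, ∃ U ∈ Sp κ y, ev U = l i

-- deps:
def Z_GAUSS : Prop := ∀ (R A L : Type) [CommRing R] [CommRing A] [Algebra R A] [Field L]
  (ev : A →+* L) (P : Set A → Prop) (d : ℕ) (Λ : Finset (Fin d → L)) (u : Fin d → L), P {1} →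
  (∀ y z, P y → P z → P (y * z)) →
  (∀ l ∈ Λ, ∃ y, P y ∧ ∀ i, ∃ U ∈ Submodule.span R y, ev U = l i) →
  Submodule.span L (Λ : Set (Fin d → L)) ≠ ⊤ → u ∈ Submodule.span L (Λ : Set (Fin d → L)) →
  ∃ (y : Set A) (C : Fin d → A), P y ∧ (∀ i, C i ∈ Submodule.span R y) ∧
    (fun i => ev (C i)) ≠ 0 ∧ ∑ i, ev (C i) * u i = 0

-- deps: Z_ABP1 Z_GOODM Z_GOODT
def Z_REL : Prop := ∀ (F : Type) [Field F] [Fintype F] (κ : IntermediateField (K0 F) (KI F))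
  [FiniteDimensional (K0 F) κ] (ev : T F →ₐ[KI F] KI F) (d s : ℕ)
  (E : Fin (s + 1) → Matrix (Fin d) (Fin d) (KI F)) (Q : Fin d → KI F) (g C : Fin d → T F)
  (y : Set (T F)), IsEv ev → (∀ l i j, E l i j ∈ κ) → (∀ i, Q i ∈ κ) → (E (Fin.last s)).det ≠ 0 →
  TowEq E Q g → Good κ.toSubfield y → (∀ i, C i ∈ Sp κ.toSubfield y) → (fun i => ev (C i)) ≠ 0 →
  ∑ i, ev (C i) * ev (towU E Q g i) = 0 →
  ∃ (C' : Fin (s + 1) × Fin d → T F) (C₀ : T F), (∀ p, C' p ∈ Sp κ.toSubfield y) ∧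
    C₀ ∈ Sp κ.toSubfield y ∧ C' ≠ 0 ∧ ∑ p, C' p * tw s g p + C₀ = 0

/-- A nonzero relation with coefficients in `K` between the twists of the orbit of `Q`. -/
def Rel {K : Type} [Field K] {d : ℕ} (q s : ℕ) (φ : (Fin d → K) → Fin d → K) (Q : Fin d → K) :
    Prop :=
  ∃ p : Fin (s + 1) × Fin d → K[X], p ≠ 0 ∧
    ∀ n, ∑ b, (p b).sum (fun l u => u * φ^[n + l] Q b.2 ^ q ^ (b.1.val + 1)) = 0

-- deps: Z_TWL Z_TWM Z_PURM Z_SL
def Z_SLA : Prop := ∀ (F k M : Type) [Field F] [Fintype F] [Field k] [Field M] (X : Ctx F k M)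
  (d s : ℕ) (κ : Subfield (KI F)) (E : Fin (s + 1) → Matrix (Fin d) (Fin d) (KI F))
  (Q : Fin d → KI F) (g : Fin d → T F) (y : Set (T F)) (C' : Fin (s + 1) × Fin d → T F) (C₀ : T F),
  TowEq E Q g → X.Adm κ s y → (∀ p, C' p ∈ Sp κ y) → C₀ ∈ Sp κ y → C' ≠ 0 →
  ∑ p, C' p * tw s g p + C₀ = 0 → Rel (Fintype.card F) s (phi (Fintype.card F) (th F) E) Q

-- deps: Z_CTX Z_EV Z_AGF Z_GOODM Z_ADM Z_GAUSS Z_REL Z_SLA
def Z_TFIN : Prop := ∀ (F : Type) [Field F] [Fintype F] (κ : IntermediateField (K0 F) (KI F))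
  [FiniteDimensional (K0 F) κ] (d s : ℕ) (E : Fin (s + 1) → Matrix (Fin d) (Fin d) (KI F))
  (e : Module.End F (Fin d → KI F)) (ρ : ℤ) (Q : Fin d → KI F), (∀ l i j, E l i j ∈ κ) →
  (∀ i, Q i ∈ κ) → (E (Fin.last s)).det ≠ 0 → IsExp (phiL F (th F) E) e ρ → Deg e Q →
  Rel (Fintype.card F) s (phi (Fintype.card F) (th F) E) Q

-- deps:
def Z_DESC : Prop := ∀ (K L : Type) [Field K] [Field L] (ι : K →+* L) (J : Type) [Fintype J]
  (x : J → ℕ → K) (p : J → L[X]), p ≠ 0 →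
  (∀ n, ∑ b, (p b).sum (fun l u => u * ι (x b (n + l))) = 0) →
  ∃ p' : J → K[X], p' ≠ 0 ∧ ∀ n, ∑ b, (p' b).sum (fun l u => u * x b (n + l)) = 0

-- deps:
def Z_POLC : Prop := ∀ (F K : Type) [Field F] [Fintype F] [Field K] [Algebra F K] (d s : ℕ) (θ : K)
  (E : Fin (s + 1) → Matrix (Fin d) (Fin d) K), ∀ m ∈ Pol K (Fintype.card F) d,
  m ^ Fintype.card F ∈ Pol K (Fintype.card F) d ∧
    m ∘ phi (Fintype.card F) θ E ∈ Pol K (Fintype.card F) d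

/-- The functions of degree less than `q ^ D`. -/
def PolLT (K : Type) [Field K] (q d D : ℕ) : Submodule K ((Fin d → K) → K) :=
  Submodule.span K {m | ∃ i j, j < D ∧ m = fun x => x i ^ q ^ j}

-- deps:
def Z_TOPA : Prop := ∀ (F K : Type) [Field F] [Fintype F] [Field K] [Algebra F K] (d s : ℕ) (θ : K)
  (E : Fin (s + 1) → Matrix (Fin d) (Fin d) K), (E (Fin.last s)).det ≠ 0 → ∀ n l : ℕ,
  ∃ G : Matrix (Fin d) (Fin d) K, G.det ≠ 0 ∧ ∀ i,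
    ((fun x => (phi (Fintype.card F) θ E)^[n] x i ^ Fintype.card F ^ l) -
      fun x => ∑ j, G i j * x j ^ Fintype.card F ^ (l + n * (s + 1))) ∈
    PolLT K (Fintype.card F) d (l + n * (s + 1))

-- deps:
def Z_TOPB : Prop := ∀ (K : Type) [Field K] [Infinite K] (q d D : ℕ) (r : Fin d → K), 2 ≤ q →
  (fun x : Fin d → K => ∑ j, r j * x j ^ q ^ D) ∈ PolLT K q d D → r = 0

-- deps: Z_TOPA Z_TOPB
def Z_TOP : Prop := ∀ (F K : Type) [Field F] [Fintype F] [Field K] [Algebra F K] [Infinite K]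
  (d s : ℕ) (θ : K) (E : Fin (s + 1) → Matrix (Fin d) (Fin d) K) (p : Fin (s + 1) × Fin d → K[X]),
  (E (Fin.last s)).det ≠ 0 → (∀ x, ∑ b, (p b).sum (fun l u =>
    u * (phi (Fintype.card F) θ E)^[l] x b.2 ^ Fintype.card F ^ (b.1.val + 1)) = 0) → p = 0

-- deps: Z_POLC
def Z_SIMP : Prop := ∀ (F K : Type) [Field F] [Fintype F] [Field K] [Algebra F K] [Infinite K]
  (d s : ℕ) (θ : K) (E : Fin (s + 1) → Matrix (Fin d) (Fin d) K) (Q : Fin d → K),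
  Simple (Fintype.card F) (phi (Fintype.card F) θ E) →
  (∀ a : F[X], a ≠ 0 → phiA (phi (Fintype.card F) θ E) a Q ≠ 0) →
  ∀ m ∈ Pol K (Fintype.card F) d, (∀ n, m ((phi (Fintype.card F) θ E)^[n] Q) = 0) → m = 0

-- deps: Z_POLC Z_TOP Z_SIMP
def Z_NREL : Prop := ∀ (F K : Type) [Field F] [Fintype F] [Field K] [Algebra F K] [Infinite K]
  (d s : ℕ) (θ : K) (E : Fin (s + 1) → Matrix (Fin d) (Fin d) K) (Q : Fin d → K),
  (E (Fin.last s)).det ≠ 0 → Simple (Fintype.card F) (phi (Fintype.card F) θ E) →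
  (∀ a : F[X], a ≠ 0 → phiA (phi (Fintype.card F) θ E) a Q ≠ 0) →
  ¬ Rel (Fintype.card F) s (phi (Fintype.card F) θ E) Q

-- deps:
def Z_FIN : Prop := ∀ (F K : Type) [Field F] [Field K] [Algebra F K] (ι : K →ₐ[F] KI F) (θ : K)
  (S : Set K), ι θ = th F → Algebra.IsAlgebraic F⟮θ⟯ K → S.Finite →
  ∃ κ : IntermediateField (K0 F) (KI F), FiniteDimensional (K0 F) κ ∧ ∀ x ∈ S, ι x ∈ κ

-- deps:
def Z_BR : Prop := ∀ (F K L : Type) [Field F] [Fintype F] [Field K] [Field L] [Algebra F K]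
  [Algebra F L] (ι : K →ₐ[F] L) (d s : ℕ) (θ : K) (E : Fin (s + 1) → Matrix (Fin d) (Fin d) K)
  (x : Fin d → K),
  (∀ n i, ι ((phi (Fintype.card F) θ E)^[n] x i) =
    (phi (Fintype.card F) (ι θ) fun l => (E l).map ι)^[n] (fun j => ι (x j)) i) ∧
  ∀ (a : F[X]) i, ι (phiA (phi (Fintype.card F) θ E) a x i) =
    aeval (phiL F (ι θ) fun l => (E l).map ι) a (fun j => ι (x j)) i

-- deps: Z_PHB Z_EXP1 Z_EXP2 Z_TOPO Z_RED Z_TFIN Z_DESC Z_NREL Z_FIN Z_BR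
def Z_MAIN : Prop := ∀ (F K : Type) [Field F] [Fintype F] [Field K] [Algebra F K]
  (ι : K →ₐ[F] KI F) (θ : K) (d s : ℕ) (E : Fin (s + 1) → Matrix (Fin d) (Fin d) K)
  (P : Fin d → K), ι θ = th F → Algebra.IsAlgebraic F⟮θ⟯ K → (E (Fin.last s)).det ≠ 0 →
  Simple (Fintype.card F) (phi (Fintype.card F) θ E) →
  (∀ a : F[X], a ≠ 0 → phiA (phi (Fintype.card F) θ E) a P ≠ 0) →
  (∃ C : ℤᵐ⁰, ∀ n i, Valued.v (ι ((phi (Fintype.card F) θ E)^[n] P i)) ≤ C) →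
  closure (Set.range fun (a : F[X]) (i : Fin d) => ι (phiA (phi (Fintype.card F) θ E) a P i)) ∈
    𝓝 (0 : Fin d → KI F)

end Pool.Agent.P.MP_e5b57f_nt.TM
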