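import Pool.Agent.P.MP_e5b57f_nt.TM.IfaceA

/-! Step ABP1. -/

open Polynomial WithZero
open scoped Matrix Pointwise IntermediateField Topology

namespace Pool.Agent.P.MP_e5b57f_nt.TM

theorem z_ABP1 (hABPK : Z_ABPK) (hSEP : Z_SEP) (hSPK : Z_SPK) :
    Z_ABP1 := by
  intro F _ _ κ _ ev y hev ⟨g1, g2, e, g3⟩ m hm h0
  obtain ⟨n, b, b1, b2⟩ := hSEP F κ
  have hle : (K0 F).toSubfield ≤ κ.toSubfield := fun x hx => κ.algebraMap_mem ⟨x, hx⟩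
  have hG : Good (K0 F).toSubfield (Set.range (fun i => cT F (b i)) * y) := by
    refine ⟨(Set.finite_range _).mul g1, ?_, e, ?_⟩
    · rintro _ ⟨_, ⟨i, rfl⟩, x, hx, rfl⟩
      refine (hSPK F _ _ n b y hle b1 _).1 ?_
      show sT F (cT F (b i) * x) ∈ _
      rw [map_mul, sT_cT]
      exact Sp.mul_mem (cT_mem_RR (b2.1 i)) (g2 x hx)
    · rintro _ ⟨_, ⟨i, rfl⟩, x, hx, rfl⟩
      have h1 : (tt F - cT F (th F ^ Fintype.card F)) ^ e * (cT F (b i) * x) ∈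
          Sp κ.toSubfield (sT F '' y) := by
        rw [mul_left_comm]
        exact Sp.mul_mem (cT_mem_RR (b1.1 i)) (g3 x hx)
      refine Submodule.span_mono ?_ ((hSPK F _ _ n _ _ hle b2 _).1 h1)
      rintro _ ⟨_, ⟨j, rfl⟩, _, ⟨z, hz, rfl⟩, rfl⟩
      exact ⟨cT F (b j) * z, ⟨_, ⟨j, rfl⟩, z, hz, rfl⟩, by rw [map_mul, sT_cT]⟩
  obtain ⟨m', h1, h2⟩ := hABPK F ev _ hev hG m ((hSPK F _ _ n b y hle b1 m).1 hm) h0
  exact ⟨m', (hSPK F _ _ n b y hle b1 m').2 h1, h2⟩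

end Pool.Agent.P.MP_e5b57f_nt.TM
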