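import Pool.Agent.P.MP_e5b57f_nt.TM.IfaceB
import Pool.Agent.P.MP_e5b57f_nt.TM.IfaceA

/-! Step ADM. -/

open Polynomial WithZero
open scoped Matrix Pointwise IntermediateField Topology

namespace Pool.Agent.P.MP_e5b57f_nt.TM

theorem z_ADM (hAGF : Z_AGF) (hGOODT : Z_GOODT) (hTWL : Z_TWL) (hPURH : Z_PURH) :
    Z_ADM := by
  intro F k M _ _ _ _ X d s κ E e ρ ev l hth hE hdet hexp hev hl
  classical
  obtain ⟨g, htow, hevg⟩ := hAGF F d s E e ρ ev hexp hev l
  rw [hl] at htow hevg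
  obtain ⟨hA, htw⟩ := (hTWL F k M X).1 d s E 0 g htow
  have hq : X.qK (0 : Fin d → KI F) = 0 := by
    funext a
    simp [Ctx.qK, zero_pow Fintype.card_ne_zero]
  rw [hq] at hA
  let f : KI F →+* k := X.c.comp (frn F (KI F) 1).toRingHom
  have hf : ∀ x, f x = X.c (x ^ Fintype.card F) := fun x => by
    show X.c (frn F (KI F) 1 x) = _
    rw [frn_apply, pow_one]
  have heK : X.eK E (Fin.last s) = (E (Fin.last s)).map f := by
    ext a b
    exact (hf _).symm
  have hinv : ((E (Fin.last s))⁻¹).map f * X.eK E (Fin.last s) = 1 := by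
    rw [heK, ← Matrix.map_mul, Matrix.nonsing_inv_mul _ (Ne.isUnit hdet),
      Matrix.map_one _ (map_zero f) (map_one f)]
  have hpure := hPURH k M X.iL X.w X.sk X.sM d s X.pi (X.eK E) (((E (Fin.last s))⁻¹).map f)
    (fun a => X.j (g a)) X.twL (X.v_t _) (fun _ _ _ => X.v_c _) (fun _ _ => X.v_c _) hinv hA
  have himg : X.j '' Set.range (tw s g) = Set.range (twA s X.sM fun a => X.j (g a)) := by
    rw [← Set.range_comp]
    exact congrArg Set.range (funext fun p => (htw p).symm)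
  refine ⟨Set.range (tw s g), ⟨(hGOODT F d s κ E 0 g hth hE (fun _ => zero_mem _) hdet htow).2 rfl,
    1, himg ▸ hpure⟩, fun i => ⟨towU E 0 g i, ?_, hevg i⟩⟩
  unfold towU
  refine sub_mem ?_ (sum_mem fun l' _ => sum_mem fun j _ => ?_)
  · simp
  · exact Sp.mul_mem (cT_mem_RR (hE l' i j)) (Submodule.subset_span ⟨(l', j), rfl⟩)

end Pool.Agent.P.MP_e5b57f_nt.TM
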