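import Pool.Agent.P.MP_e5b57f_nt.TM.IfaceA

/-! Step LOWA. -/

open Polynomial WithZero
open scoped Matrix Pointwise IntermediateField Topology

namespace Pool.Agent.P.MP_e5b57f_nt.TM

theorem z_LOWA :
    Z_LOWA := by
  classical
  intro F _ _ l M a c ha hM hc hs hb
  obtain ⟨m, hm⟩ := exists_v_eq hc
  have h1 := (bd_iff_of_v_eq hm).1 hb
  obtain ⟨j, hj, hmin⟩ := Finset.exists_min_image (Finset.univ.filter fun j => a j ≠ 0) id (by
    obtain ⟨i, hi⟩ := Function.ne_iff.1 ha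
    exact ⟨i, by simpa using hi⟩)
  have hj' : a j ≠ 0 := (Finset.mem_filter.1 hj).2
  have hv : (Valued.v (aeval (th F) (a j) * c ^ Fintype.card F ^ j.val) : ℤᵐ⁰) =
      exp (((a j).natDegree : ℤ) + (Fintype.card F ^ j.val : ℕ) * m) := by
    rw [map_mul, map_pow, v_aeval hj', hm, exp_add, ← nsmul_eq_mul, exp_nsmul]
  have h2 : Bd (∑ i ∈ Finset.univ.erase j, aeval (th F) (a i) * c ^ Fintype.card F ^ i.val)
      ((Fintype.card F ^ j.val : ℕ) * m - 1) := Bd.sum fun i hi => by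
    by_cases h0 : a i = 0
    · rw [h0, map_zero, zero_mul]; exact Bd.zero _
    have h3 : j < i := lt_of_le_of_ne (hmin i (by simpa using h0)) (Finset.ne_of_mem_erase hi).symm
    have h4 : Fintype.card F ^ j.val < Fintype.card F ^ i.val :=
      Nat.pow_lt_pow_right two_le_card h3
    have h5 : ((Fintype.card F ^ j.val : ℕ) : ℤ) + 1 ≤ (Fintype.card F ^ i.val : ℕ) := by
      exact_mod_cast h4
    have h6 : ((a i).natDegree : ℤ) ≤ M := by exact_mod_cast hM i
    refine ((Bd.aeval (a i)).mul (Bd.pow (n := m) hm.le _)).mono ?_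
    nlinarith [Int.natCast_nonneg M]
  rw [← Finset.add_sum_erase _ _ (Finset.mem_univ j), add_eq_zero_iff_eq_neg] at hs
  have h7 := (bd_iff_of_v_eq hv).1 (hs ▸ h2.neg)
  omega

end Pool.Agent.P.MP_e5b57f_nt.TM
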