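import Pool.Agent.P.MP_e5b57f_nt.TM.IfaceA

/-! Step PHB. -/

open Polynomial WithZero
open scoped Matrix Pointwise IntermediateField Topology

namespace Pool.Agent.P.MP_e5b57f_nt.TM

theorem z_PHB :
    Z_PHB := by
  intro F _ _ d s E
  obtain ⟨C, hC⟩ := exists_bd_fin fun p : Fin (s + 1) × Fin d × Fin d => E p.1 p.2.1 p.2.2
  refine ⟨max 0 C, le_max_left _ _, fun w n hn hw => ?_⟩
  rw [coe_phiL, phi, add_sub_cancel_left]
  refine BdV.sum fun l _ => BdV.mulVec (fun i j => (hC (l, i, j)).mono (le_max_right _ _))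
    fun i => ((hw i).pow _).mono (mul_le_mul_of_nonpos_right ?_ hn)
  exact_mod_cast two_le_card.trans (Nat.le_self_pow l.1.succ_ne_zero _)

end Pool.Agent.P.MP_e5b57f_nt.TM
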