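import Pool.Agent.P.MP_e5b57f_nt.TM.IfaceA

/-! Step RED. -/

open Polynomial WithZero
open scoped Matrix Pointwise IntermediateField Topology

namespace Pool.Agent.P.MP_e5b57f_nt.TM

theorem z_RED (hPIG : Z_PIG) (hRED1 : Z_RED1) (hRED2 : Z_RED2) :
    Z_RED := by
  intro F _ _ d φ e ρ R P hE hP
  obtain ⟨a₀, ha₀, hb⟩ := hPIG F d (fun n => (φ ^ n) P) R ρ hP
  rw [← aeval_end_apply] at hb
  obtain ⟨u, -, hu⟩ := hE.onto _ hb
  have h1 : ∀ a : F[X], BdV (aeval φ a P) R := fun a => by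
    rw [aeval_end_apply, Polynomial.sum]
    exact BdV.sum fun n _ => (hP n).smul _
  have h2 : ∀ a : F[X], aeval φ a (e u) = aeval φ (a * a₀) P := fun a => by
    rw [map_mul, Module.End.mul_apply, hu]
  have h3 := hRED1 F d φ e ρ R u hE fun n => by
    have := h2 (X ^ n)
    rw [map_pow, aeval_X] at this
    rw [this]
    exact h1 _
  by_cases ht : Submodule.span (KI F) {l : Fin d → KI F | e l = 0} = ⊤
  · obtain ⟨b, hb1, hb2, hb3⟩ := exists_linearIndependent (KI F) {l : Fin d → KI F | e l = 0}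
    let B : Module.Basis b (KI F) (Fin d → KI F) := Module.Basis.mk hb3 (by
      rw [Subtype.range_coe, hb2, ht])
    let B' := B.reindex (B.indexEquiv (Pi.basisFun (KI F) (Fin d)))
    have h4 : ∀ i, e (B' i) = 0 := fun i => by
      simp only [B', B, Module.Basis.reindex_apply, Module.Basis.mk_apply]
      exact hb1 (Subtype.property _)
    rcases hRED2 F d φ e ρ B' u hE h4 with h | ⟨a, ha, h⟩
    · refine Or.inl fun y hy N => ?_
      obtain ⟨a, ha⟩ := h y hy N
      exact ⟨a * a₀, by rwa [← h2]⟩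
    · exact Or.inr ⟨a * a₀, mul_ne_zero ha ha₀, by rwa [← h2]⟩
  · obtain ⟨Λ, h4, h5⟩ := Submodule.mem_span_finite_of_mem_span h3
    refine Or.inr ⟨a₀, ha₀, u, Λ, fun l hl => h4 hl, fun h => ht ?_, h5, hu⟩
    exact top_le_iff.1 (h ▸ Submodule.span_mono h4)

end Pool.Agent.P.MP_e5b57f_nt.TM
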