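import Pool.Agent.P.MP_e5b57f_nt.TM.IfaceB

/-! Step TOP. -/

open Polynomial WithZero
open scoped Matrix Pointwise IntermediateField Topology

namespace Pool.Agent.P.MP_e5b57f_nt.TM

namespace ZTOP

variable {K : Type} [Field K] {d : ℕ}

theorem mono (q : ℕ) {D D' : ℕ} (h : D ≤ D') : PolLT K q d D ≤ PolLT K q d D' :=
  Submodule.span_mono fun _ ⟨i, j, hj, e⟩ => ⟨i, j, hj.trans_le h, e⟩

theorem low {q W D : ℕ} (h : W < D) {f : (Fin d → K) → K} {r : Fin d → K}
    (hf : (f - fun x => ∑ j, r j * x j ^ q ^ W) ∈ PolLT K q d W) : f ∈ PolLT K q d D := by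
  have h1 : (∑ j, r j • fun x : Fin d → K => x j ^ q ^ W) ∈ PolLT K q d D :=
    sum_mem fun j _ => Submodule.smul_mem _ _ (Submodule.subset_span ⟨j, W, h, rfl⟩)
  convert add_mem (mono q h.le hf) h1 using 1
  funext x
  simp

theorem uniq {s a a' l l' : ℕ} (ha : a < s + 1) (ha' : a' < s + 1)
    (h : a + 1 + l * (s + 1) = a' + 1 + l' * (s + 1)) : a = a' ∧ l = l' := by
  have h1 : a + l * (s + 1) = a' + l' * (s + 1) := by omega
  have h2 := congrArg (· % (s + 1)) h1
  simp only [Nat.add_mul_mod_self_right, Nat.mod_eq_of_lt ha, Nat.mod_eq_of_lt ha'] at h2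
  subst h2
  exact ⟨rfl, Nat.eq_of_mul_eq_mul_right (Nat.succ_pos s) (Nat.add_left_cancel h1)⟩

end ZTOP

theorem z_TOP (hTOPA : Z_TOPA) (hTOPB : Z_TOPB) :
    Z_TOP := by
  intro F K _ _ _ _ _ d s θ E p hE hp
  classical
  by_contra hne
  obtain ⟨b₁, hb₁⟩ := Function.ne_iff.1 hne
  obtain ⟨l₁, hl₁⟩ := support_nonempty.2 hb₁
  obtain ⟨⟨b₀, l₀⟩, hm, hmax⟩ := Finset.exists_max_image
    (Finset.univ.sigma fun b => (p b).support)
    (fun z => z.1.1.val + 1 + z.2 * (s + 1)) ⟨⟨b₁, l₁⟩, by simpa using hl₁⟩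
  have hc : (p b₀).coeff l₀ ≠ 0 := by simpa using hm
  have hle : ∀ b, ∀ l ∈ (p b).support,
      b.1.val + 1 + l * (s + 1) ≤ b₀.1.val + 1 + l₀ * (s + 1) :=
    fun b l hl => hmax ⟨b, l⟩ (by simpa using hl)
  obtain ⟨G, hG, hT⟩ := hTOPA F K d s θ E hE l₀ (b₀.1.val + 1)
  have key : ∀ b : Fin (s + 1) × Fin d,
      ((∑ l ∈ (p b).support, (p b).coeff l • fun x =>
          (phi (Fintype.card F) θ E)^[l] x b.2 ^ Fintype.card F ^ (b.1.val + 1)) -
        if b.1 = b₀.1 then (p b).coeff l₀ • fun x : Fin d → K =>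
          ∑ j, G b.2 j * x j ^ Fintype.card F ^ (b₀.1.val + 1 + l₀ * (s + 1)) else 0) ∈
      PolLT K (Fintype.card F) d (b₀.1.val + 1 + l₀ * (s + 1)) := by
    intro b
    have lo : ∀ l ∈ (p b).support, ¬ (b.1 = b₀.1 ∧ l = l₀) → ((p b).coeff l • fun x =>
          (phi (Fintype.card F) θ E)^[l] x b.2 ^ Fintype.card F ^ (b.1.val + 1)) ∈
        PolLT K (Fintype.card F) d (b₀.1.val + 1 + l₀ * (s + 1)) := fun l hl hn => by
      obtain ⟨G', -, hT'⟩ := hTOPA F K d s θ E hE l (b.1.val + 1)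
      refine Submodule.smul_mem _ _ (ZTOP.low (lt_of_le_of_ne (hle b l hl) fun e => hn ?_)
        (hT' b.2))
      have := ZTOP.uniq b.1.2 b₀.1.2 e
      exact ⟨Fin.ext this.1, this.2⟩
    split_ifs with hb
    · by_cases hl : l₀ ∈ (p b).support
      · rw [← Finset.add_sum_erase _ _ hl, add_sub_right_comm, ← smul_sub]
        refine add_mem (Submodule.smul_mem _ _ ?_) (sum_mem fun l hl' =>
          lo l (Finset.mem_of_mem_erase hl') fun h => Finset.ne_of_mem_erase hl' h.2)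
        rw [hb]
        exact hT b.2
      · rw [notMem_support_iff.1 hl, zero_smul, sub_zero]
        exact sum_mem fun l hl' => lo l hl' fun h => hl (h.2 ▸ hl')
    · rw [sub_zero]
      exact sum_mem fun l hl' => lo l hl' fun h => hb h.1
  have h0 : ((fun i => (p (b₀.1, i)).coeff l₀) ᵥ* G) = 0 := by
    refine hTOPB K (Fintype.card F) d (b₀.1.val + 1 + l₀ * (s + 1)) _ two_le_card ?_
    convert neg_mem (sum_mem (t := Finset.univ) fun b _ => key b) using 1
    funext x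
    have h1 := hp x
    simp only [Polynomial.sum] at h1
    simp only [Finset.sum_sub_distrib, Pi.neg_apply, Pi.sub_apply, Finset.sum_apply, Pi.smul_apply,
      smul_eq_mul, h1, zero_sub, neg_neg]
    rw [Fintype.sum_prod_type, Finset.sum_eq_single b₀.1 (fun a _ ha => by simp [ha]) (by simp)]
    simp only [if_true, Pi.smul_apply, smul_eq_mul, Matrix.vecMul, dotProduct, Finset.sum_mul,
      Finset.mul_sum, mul_assoc]
    exact Finset.sum_comm
  exact hc (congrFun (Matrix.eq_zero_of_vecMul_eq_zero hG h0) b₀.2)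

end Pool.Agent.P.MP_e5b57f_nt.TM
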